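import Pool.Agent.MP_5168f5_an.H29.Tau

/-! The estimate for two-ended families. -/

namespace Pool.Agent.MP_5168f5_an.H29

open Finset H19

variable {m : ℕ} {ι : Type}

open Classical in
/-- The objects of one class. -/
noncomputable def Gc (Q j : ℕ) (G : Finset ι) (g : ι → Line m)
    (c : (Fin m → ℤ) × (Fin m → ℤ)) : Finset ι := G.filter fun i => cls Q j (g i) = c

theorem mem_Gc {Q j : ℕ} {G : Finset ι} {g : ι → Line m} {c} {i : ι} :
    i ∈ Gc Q j G g c ↔ i ∈ G ∧ cls Q j (g i) = c := by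
  unfold Gc; rw [Finset.mem_filter]

theorem cls_cover {Q j : ℕ} (A : Finset ι) (g : ι → Line m) (y x : Fin m → ℝ)
    (hy : ∀ i ∈ A, ∀ k, |2 ^ j * (g i).2 k - y k| ≤ 2)
    (hx : ∀ i ∈ A, ∀ k, |2 ^ j * (g i).1 k / Q - x k| ≤ 2) :
    ∃ c, (A.card : ℝ) ≤ 49 ^ m * (Gc Q j A g c).card := by
  obtain ⟨c, -, B, hB, hBc, hsum⟩ := exists_fib A (fun i => cls Q j (g i))
    (cube (fun k => ⌊y k⌋) 2 ×ˢ cube (fun k => ⌊x k⌋) 2)
    ⟨(_, _), Finset.mem_product.2 ⟨self_mem_cube _ _, self_mem_cube _ _⟩⟩ (fun _ => 1)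
    (fun i hi => Finset.mem_product.2 ⟨floor_mem_cube (hy i hi), floor_mem_cube (hx i hi)⟩)
  refine ⟨c, ?_⟩
  simp only [Finset.sum_const, nsmul_eq_mul, mul_one, Finset.card_product, Nat.cast_mul] at hsum
  refine hsum.trans (mul_le_mul ?_ ?_ (Nat.cast_nonneg _) (by positivity))
  · rw [show (49 : ℝ) = 7 * 7 by norm_num, mul_pow]
    exact mul_le_mul (card_cube2 _) (card_cube2 _) (Nat.cast_nonneg _) (by positivity)
  · exact Nat.cast_le.2 (Finset.card_le_card fun i hi => mem_Gc.2 ⟨hB hi, (hBc i (hB hi)).1 hi⟩)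

theorem exists_cap {Q : ℕ} (hQ : 0 < Q) {G : Finset ι} (hG : G.Nonempty) (g : ι → Line m)
    (Y : ι → Finset ℕ) (ε : ℝ) (z : Pt m) : ∃ j c, 2 ^ j ≤ Q ∧ ∀ j' c', 2 ^ j' ≤ Q →
      ((thru (Gc Q j' G g c') g Y z).card : ℝ) * ((2 : ℝ) ^ j') ^ ε ≤
        (thru (Gc Q j G g c) g Y z).card * ((2 : ℝ) ^ j) ^ ε := by
  obtain ⟨i0, hi0⟩ := hG
  obtain ⟨x, hx, hmax⟩ := Finset.exists_max_image
    (((Finset.range Q).filter fun j => 2 ^ j ≤ Q) ×ˢ G)
    (fun x => ((thru (Gc Q x.1 G g (cls Q x.1 (g x.2))) g Y z).card : ℝ) * ((2 : ℝ) ^ x.1) ^ ε)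
    ⟨(0, i0), Finset.mem_product.2 ⟨Finset.mem_filter.2 ⟨Finset.mem_range.2 hQ, by
      rw [pow_zero]; exact hQ⟩, hi0⟩⟩
  refine ⟨x.1, cls Q x.1 (g x.2), (Finset.mem_filter.1 (Finset.mem_product.1 hx).1).2,
    fun j' c' hj' => ?_⟩
  rcases (thru (Gc Q j' G g c') g Y z).eq_empty_or_nonempty with h | ⟨i, hi⟩
  · rw [h, Finset.card_empty, Nat.cast_zero, zero_mul]; positivity
  · obtain ⟨h1, h2⟩ := mem_Gc.1 (mem_thru.1 hi).1
    rw [← h2]
    exact hmax (j', i) (Finset.mem_product.2 ⟨Finset.mem_filter.2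
      ⟨Finset.mem_range.2 (lt_of_lt_of_le Nat.lt_two_pow_self hj'), hj'⟩, h1⟩)

theorem Gc_thru {Q j : ℕ} {G : Finset ι} {g : ι → Line m} {Y : ι → Finset ℕ} {z : Pt m}
    {B : Finset ι} (hB : B ⊆ thru G g Y z) (c) :
    ((Gc Q j B g c).card : ℝ) ≤ (thru (Gc Q j G g c) g Y z).card :=
  Nat.cast_le.2 (Finset.card_le_card fun i hi => by
    obtain ⟨h1, h2⟩ := mem_Gc.1 hi
    obtain ⟨h3, h4⟩ := mem_thru.1 (hB h1)
    exact mem_thru.2 ⟨mem_Gc.2 ⟨h3, h2⟩, h4⟩)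

theorem x_near {Q j t : ℕ} (hQ : 0 < Q) (hj : 2 ^ j ≤ Q) (ht : t < Q) {g g' : Line m}
    (hc : cell g t = cell g' t) (k : Fin m) (hy : 2 ^ j * |g.2 k - g'.2 k| ≤ 1) :
    |2 ^ j * g.1 k / Q - 2 ^ j * g'.1 k / Q| ≤ 2 := by
  have hQ0 : (0 : ℝ) < Q := by exact_mod_cast hQ
  have e : 2 ^ j * g.1 k / Q - 2 ^ j * g'.1 k / Q = (2 : ℝ) ^ j / Q * (pos g t k - pos g' t k) -
      (t : ℝ) / Q * (2 ^ j * (g.2 k - g'.2 k)) := by
    unfold pos; ring
  have h4 : |(t : ℝ) / Q| ≤ 1 := by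
    rw [abs_div, Nat.abs_cast, Nat.abs_cast, div_le_one hQ0]; exact_mod_cast ht.le
  have h5 : |(2 : ℝ) ^ j / Q| ≤ 1 := by
    rw [abs_div, Nat.abs_cast, abs_of_pos (by positivity), div_le_one hQ0]; exact_mod_cast hj
  have h6 : |2 ^ j * (g.2 k - g'.2 k)| ≤ 1 := by
    rwa [abs_mul, abs_of_pos (show (0 : ℝ) < 2 ^ j by positivity)]
  rw [e]
  have h7 := abs_mul_le' h5 (pos_close hc k)
  have h8 := abs_mul_le' h4 h6
  exact (abs_sub _ _).trans (by linarith)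

theorem col_card {j : ℕ} {c : Fin m → ℤ} (B : Finset (Pt m)) (γ : Pt m)
    (h : ∀ z ∈ B, col j c z = γ) : B.card ≤ 2 ^ j := by
  rw [← Finset.card_range (2 ^ j)]
  refine Finset.card_le_card_of_injOn (fun z => z.2 % 2 ^ j)
    (fun z _ => Finset.mem_coe.2 (Finset.mem_range.2 (Nat.mod_lt _ (by positivity)))) ?_
  intro z hz z' hz' e
  have h1 := (h z hz).trans (h z' hz').symm
  have h2 : z.2 / 2 ^ j = z'.2 / 2 ^ j := (Prod.ext_iff.1 h1).2
  have h3 : z.2 = z'.2 := by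
    rw [← Nat.div_add_mod z.2 (2 ^ j), ← Nat.div_add_mod z'.2 (2 ^ j), h2]
    exact congrArg _ e
  refine Prod.ext (funext fun k => ?_) h3
  have h4 := Int.abs_sub_lt_one_of_floor_eq_floor (congrFun (Prod.ext_iff.1 h1).1 k)
  rw [h3, sub_sub_sub_cancel_right] at h4
  have h5 : |z.1 k - z'.1 k| < 1 := by exact_mod_cast h4
  have := abs_lt.1 h5
  omega

theorem log_lt {a : ℕ} {N : ℝ} (ha : 0 < a) (h : (a : ℝ) ≤ N) :
    Nat.log 2 a < ⌊2 * Real.log N⌋₊ + 1 := by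
  have h1 := log_card_le ha
  have h2 : Real.log a ≤ Real.log N := Real.log_le_log (by exact_mod_cast ha) h
  push_cast at h1
  exact Nat.lt_succ_of_le (Nat.le_floor (by linarith))

theorem dyad {a : ℕ} (ha : 0 < a) :
    (2 : ℝ) ^ Nat.log 2 a ≤ a ∧ (a : ℝ) ≤ 2 * 2 ^ Nat.log 2 a := by
  refine ⟨by exact_mod_cast Nat.pow_log_le_self 2 ha.ne', ?_⟩
  have := (Nat.lt_pow_succ_log_self (b := 2) (by norm_num) a).le
  rw [pow_succ, mul_comm] at this
  exact_mod_cast this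

theorem two_ends_bd {φ β D A ε C : ℝ} (h0 : 0 ≤ φ) (h1 : φ ≤ 1) (hβ : 0 ≤ β) (hβ1 : β ≤ 1)
    (hD : D = β + 1 + φ * m) (hC : 0 < C) (hε : 0 < ε) (hB : BRc m φ D A ε C) {j0 : ℕ}
    (hj0 : 8 * 49 ^ m ≤ ((2 : ℝ) ^ j0) ^ ε)
    {G : Finset ι} {g : ι → Line m} {E : Finset (Pt m)} {Y : ι → Finset ℕ} {Q : ℕ}
    {N l u F K η : ℝ} (hQ : 0 < Q) (hQN : (Q : ℝ) + 1 ≤ N) (hGN : (G.card : ℝ) ≤ N)
    (hl : 0 < l) (hu : 0 ≤ u) (hF0 : 0 ≤ F) (hK : 1 ≤ K)
    (hη : η = 1 / (2 * 49 ^ m * N ^ ε * (2 * Real.log N + 1) ^ 3))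
    (hy : ∀ i ∈ G, ∀ k, |(g i).2 k| ≤ 1) (hd : DirM Q G g u) (hF : Fro φ β Q G g F)
    (hE : ∀ i ∈ G, ∀ t ∈ Y i, t < Q ∧ (cell (g i) t, t) ∈ E)
    (hl1 : ∀ i ∈ G, l ≤ (Y i).card) (hl2 : ∀ i ∈ G, ((Y i).card : ℝ) ≤ 2 * l)
    (h2e : ∀ i ∈ G, ∀ s : ℕ, ∀ B ⊆ Y i, (∀ t ∈ B, K * |(t : ℝ) - s| < Q) →
      (B.card : ℝ) ≤ η * l / 64) :
    (G.card : ℝ) * l ^ D ≤ 2 / η * (C * N ^ ε * (12 * 7 ^ m * K * 2 ^ j0) ^ A * 70 ^ m *
      (64 * 7 ^ m / η) ^ D + (10 * K * 2 ^ j0) ^ (m + 1) / η) * F * (u * (Q : ℝ) ^ m) ^ φ *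
      E.card := by
  classical
  have hQ1 : (1 : ℝ) ≤ Q := by exact_mod_cast hQ
  have hN1 : 1 ≤ N := by linarith
  have hlog : 0 ≤ Real.log N := Real.log_nonneg hN1
  have hη0 : 0 < η := by rw [hη]; positivity
  set Λ := (C * N ^ ε * (12 * 7 ^ m * K * 2 ^ j0) ^ A * 70 ^ m *
      (64 * 7 ^ m / η) ^ D + (10 * K * 2 ^ j0) ^ (m + 1) / η) * F * (u * (Q : ℝ) ^ m) ^ φ with hΛ
  have hΛ0 : 0 ≤ Λ := by positivity
  suffices h : η * (G.card * l ^ D) ≤ 2 * Λ * E.card by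
    calc (G.card : ℝ) * l ^ D = 1 / η * (η * (G.card * l ^ D)) := by field_simp
      _ ≤ 1 / η * (2 * Λ * E.card) := mul_le_mul_of_nonneg_left h (by positivity)
      _ = _ := by rw [hΛ]; ring
  rcases G.eq_empty_or_nonempty with rfl | hG
  · simp only [Finset.card_empty, Nat.cast_zero, zero_mul, mul_zero]; positivity
  have hG0 : (0 : ℝ) < G.card := by exact_mod_cast hG.card_pos
  have hlQ : l ≤ Q := by
    obtain ⟨i, hi⟩ := hG
    have := Finset.card_le_card (show Y i ⊆ Finset.range Q from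
      fun t ht => Finset.mem_range.2 (hE i hi t ht).1)
    rw [Finset.card_range] at this
    exact (hl1 i hi).trans (by exact_mod_cast this)
  choose jz cz hjz hmax using exists_cap hQ hG g Y ε
  set n : Pt m → ℕ := fun z => (thru (Gc Q (jz z) G g (cz z)) g Y z).card with hn
  set I : ℕ := ⌊2 * Real.log N⌋₊ + 1 with hI
  have hI1 : (I : ℝ) ≤ 2 * Real.log N + 1 := by
    have := Nat.floor_le (show 0 ≤ 2 * Real.log N by linarith)
    rw [hI]; push_cast; linarith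
  have s1 : G.card * l ≤ 49 ^ m * N ^ ε * ∑ z ∈ E.filter (fun z => 0 < n z), (n z : ℝ) := by
    have a1 : G.card * l ≤ ∑ z ∈ E, ((thru G g Y z).card : ℝ) := by
      rw [← Nat.cast_sum, sum_thru, Nat.cast_sum, ← nsmul_eq_mul]
      refine Finset.card_nsmul_le_sum _ _ _ fun i hi => ?_
      rw [Finset.filter_true_of_mem fun t ht => (hE i hi t ht).2]
      exact hl1 i hi
    rw [Finset.sum_filter_of_ne fun z _ h => by
      have : n z ≠ 0 := by exact_mod_cast h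
      omega, Finset.mul_sum]
    refine a1.trans (Finset.sum_le_sum fun z _ => ?_)
    rcases (thru G g Y z).eq_empty_or_nonempty with h | ⟨i0, hi0⟩
    · rw [h, Finset.card_empty, Nat.cast_zero]; positivity
    obtain ⟨b1, b2, b3⟩ := mem_thru.1 hi0
    obtain ⟨c, hc⟩ := cls_cover (Q := Q) (j := 0) (thru G g Y z) g 0 (fun k => z.1 k / Q) (by
      intro i hi k
      have := hy i (mem_thru.1 hi).1 k
      simp only [pow_zero, one_mul, Pi.zero_apply, sub_zero]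
      linarith) (by
      intro i hi k
      have h3 := pos_sub_cell (g i) z.2 k
      rw [(mem_thru.1 hi).2.2] at h3
      have h4 := abs_mul_le' (show |(z.2 : ℝ)| ≤ Q by
        rw [Nat.abs_cast]; exact_mod_cast (hE _ b1 _ b2).1.le) (hy i (mem_thru.1 hi).1 k)
      have e : (2 : ℝ) ^ 0 * (g i).1 k / Q - z.1 k / Q =
          ((pos (g i) z.2 k - z.1 k) - z.2 * (g i).2 k) / Q := by
        unfold pos; ring
      rw [e, abs_div, Nat.abs_cast, div_le_iff₀ (by linarith)]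
      have := abs_sub (pos (g i) z.2 k - z.1 k) (z.2 * (g i).2 k)
      linarith)
    have a2 := hmax z 0 c (by rw [pow_zero]; exact hQ)
    rw [pow_zero, Real.one_rpow, mul_one] at a2
    have a3 : ((2 : ℝ) ^ jz z) ^ ε ≤ N ^ ε := Real.rpow_le_rpow (by positivity) (by
      have : (2 : ℝ) ^ jz z ≤ Q := by exact_mod_cast hjz z
      linarith) hε.le
    refine hc.trans ?_
    rw [mul_assoc]
    refine mul_le_mul_of_nonneg_left ((Gc_thru subset_rfl c).trans (a2.trans ?_)) (by positivity)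
    rw [mul_comm]
    exact mul_le_mul_of_nonneg_right a3 (Nat.cast_nonneg _)
  have hnG : ∀ z, (n z : ℝ) ≤ N := fun z => le_trans (Nat.cast_le.2 (Finset.card_le_card
    fun i hi => (mem_Gc.1 (mem_thru.1 hi).1).1)) hGN
  obtain ⟨⟨j, k⟩, -, E1, hE1, hE1m, s2⟩ := exists_fib (E.filter fun z => 0 < n z)
    (fun z => (jz z, Nat.log 2 (n z))) (Finset.range I ×ˢ Finset.range I)
    ⟨(0, 0), by simp [hI]⟩ (fun z => (n z : ℝ)) (by
      intro z hz
      refine Finset.mem_product.2 ⟨Finset.mem_range.2 ?_,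
        Finset.mem_range.2 (log_lt (Finset.mem_filter.1 hz).2 (hnG z))⟩
      have := two_pow_lt (hjz z)
      have h2 := log_lt hQ (show (Q : ℝ) ≤ N by linarith)
      simp only
      omega)
  have hE1a : ∀ z ∈ E1, z ∈ E ∧ 0 < n z ∧ jz z = j ∧ Nat.log 2 (n z) = k := fun z hz => by
    have h2 := (hE1m z (hE1 hz)).1 hz
    simp only [Prod.mk.injEq] at h2
    exact ⟨(Finset.mem_filter.1 (hE1 hz)).1, (Finset.mem_filter.1 (hE1 hz)).2, h2⟩
  set co : Pt m → Finset (Pt m) := fun z => E1.filter fun z' =>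
    cz z' = cz z ∧ col j (cz z).1 z' = col j (cz z).1 z with hco
  have hco1 : ∀ z ∈ E1, 0 < (co z).card := fun z hz =>
    Finset.card_pos.2 ⟨z, Finset.mem_filter.2 ⟨hz, rfl, rfl⟩⟩
  have hco2 : ∀ z, (co z).card ≤ 2 ^ j := fun z =>
    col_card _ _ fun z' hz' => (Finset.mem_filter.1 hz').2.2
  have hco3 : ∀ z, ∀ z' ∈ co z, co z' = co z := fun z z' hz' => by
    obtain ⟨-, a1, a2⟩ := Finset.mem_filter.1 hz'
    simp only [hco, a1, a2]
  obtain ⟨k', -, E2, hE2, hE2m, s3⟩ := exists_fib E1 (fun z => Nat.log 2 (co z).card)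
    (Finset.range I) ⟨0, by simp [hI]⟩ (fun z => (n z : ℝ)) (by
      intro z hz
      refine Finset.mem_range.2 (log_lt (hco1 z hz) ?_)
      have a1 := (hco2 z).trans ((hE1a z hz).2.2.1 ▸ hjz z)
      have : ((co z).card : ℝ) ≤ Q := by exact_mod_cast a1
      linarith)
  have s4 : 2 * η * (G.card * l) ≤ ∑ z ∈ E2, (n z : ℝ) := by
    simp only [Finset.card_product, Finset.card_range, Nat.cast_mul] at s2 s3
    have a0 : 0 ≤ ∑ z ∈ E2, (n z : ℝ) := Finset.sum_nonneg fun _ _ => Nat.cast_nonneg _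
    have a1 : ∑ z ∈ E.filter (fun z => 0 < n z), (n z : ℝ) ≤
        (2 * Real.log N + 1) ^ 3 * ∑ z ∈ E2, (n z : ℝ) := by
      calc _ ≤ I * I * (I * ∑ z ∈ E2, (n z : ℝ)) :=
            s2.trans (mul_le_mul_of_nonneg_left s3 (by positivity))
        _ = (I : ℝ) ^ 3 * ∑ z ∈ E2, (n z : ℝ) := by ring
        _ ≤ _ := mul_le_mul_of_nonneg_right (pow_le_pow_left₀ (Nat.cast_nonneg _) hI1 3) a0
    have a2 := s1.trans (mul_le_mul_of_nonneg_left a1 (by positivity))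
    have a3 : 2 * η = 1 / (49 ^ m * N ^ ε * (2 * Real.log N + 1) ^ 3) := by rw [hη]; field_simp
    rw [a3, one_div, inv_mul_le_iff₀ (by positivity), mul_assoc (49 ^ m * N ^ ε)]
    exact a2
  have hE2ne : E2.Nonempty := by
    by_contra h
    rw [Finset.not_nonempty_iff_eq_empty.1 h, Finset.sum_empty] at s4
    have : 0 < 2 * η * (G.card * l) := by positivity
    linarith
  obtain ⟨z0, hz0⟩ := hE2ne
  have hj : 2 ^ j ≤ Q := (hE1a z0 (hE2 hz0)).2.2.1 ▸ hjz z0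
  have hθ : (2 : ℝ) ^ k' ≤ 2 ^ j := by
    have a1 := (dyad (hco1 z0 (hE2 hz0))).1
    rw [(hE2m z0 (hE2 hz0)).1 hz0] at a1
    exact a1.trans (by exact_mod_cast hco2 z0)
  have hthru : ∀ z ∈ E1, ((thru (Gc Q j G g (cz z)) g Y z).card : ℝ) = n z := fun z hz => by
    rw [← (hE1a z hz).2.2.1]
  have hmaps : ∀ z ∈ E2, cz z ∈ G.image fun i => cls Q j (g i) := fun z hz => by
    obtain ⟨i, hi⟩ := Finset.card_pos.1 (hE1a z (hE2 hz)).2.1
    obtain ⟨a1, a2⟩ := mem_Gc.1 (mem_thru.1 hi).1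
    rw [(hE1a z (hE2 hz)).2.2.1] at a2
    exact Finset.mem_image.2 ⟨i, a1, a2⟩
  have hlD : 0 < l ^ D := Real.rpow_pos_of_pos hl D
  have main : ∀ τ ∈ G.image fun i => cls Q j (g i),
      ∑ z ∈ E2.filter (fun z => cz z = τ), (n z : ℝ) ≤ η * (Gc Q j G g τ).card * l +
        2 * l * Λ / l ^ D * (E2.filter fun z => cz z = τ).card := by
    intro τ hτ
    set Eτ := E2.filter (fun z => cz z = τ) with hEτ
    have hsub : Gc Q j G g τ ⊆ G := fun i hi => (mem_Gc.1 hi).1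
    have hEτ1 : ∀ z ∈ Eτ, z ∈ E1 ∧ ((thru (Gc Q j G g τ) g Y z).card : ℝ) = n z := fun z hz => by
      obtain ⟨a1, a2⟩ := Finset.mem_filter.1 hz
      exact ⟨hE2 a1, a2 ▸ hthru z (hE2 a1)⟩
    have hsum : ∑ z ∈ Eτ, ((thru (Gc Q j G g τ) g Y z).card : ℝ) = ∑ z ∈ Eτ, (n z : ℝ) :=
      Finset.sum_congr rfl fun z hz => (hEτ1 z hz).2
    by_cases hI' : η * (Gc Q j G g τ).card * l ≤ ∑ z ∈ Eτ, (n z : ℝ)
    swap
    · exact (not_le.1 hI').le.trans (le_add_of_nonneg_right (by positivity))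
    refine le_trans ?_ (le_add_of_nonneg_left (by positivity))
    have hdy : ∀ z ∈ Eτ, (2 : ℝ) ^ k ≤ n z ∧ (n z : ℝ) ≤ 2 * 2 ^ k := fun z hz => by
      have a1 := hE1a z (hEτ1 z hz).1
      have := dyad a1.2.1
      rwa [a1.2.2.2] at this
    have hdy2 : ∀ z ∈ Eτ, (2 : ℝ) ^ k' ≤ (co z).card ∧ ((co z).card : ℝ) ≤ 2 * 2 ^ k' :=
      fun z hz => by
        have a1 := (Finset.mem_filter.1 hz).1
        have := dyad (hco1 z (hE2 a1))
        rwa [(hE2m z (hE2 a1)).1 a1] at this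
    have key := tau_bd h0 h1 hβ hβ1 hD hC hB (G := Gc Q j G g τ) (g := g) (E := Eτ) (Y := Y)
      (c := τ.1) (K0 := 2 ^ j0) (μ := 2 ^ k) (θ := 2 ^ k') hQN
      (le_trans (Nat.cast_le.2 (Finset.card_le_card hsub)) hGN) hl hlQ hK
      (one_le_pow₀ (by norm_num)) hη0 (by positivity) (by positivity) hθ hj (by
        obtain ⟨i, hi, rfl⟩ := Finset.mem_image.1 hτ
        exact ⟨i, mem_Gc.2 ⟨hi, rfl⟩⟩)
      (fun i hi k => by rw [← (mem_Gc.1 hi).2]; rfl) (hd.mono hsub)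
      (hF j hj _ hsub τ fun i hi => (mem_Gc.1 hi).2) (fun i hi t ht => (hE i (hsub hi) t ht).1)
      (fun z hz => (hEτ1 z hz).2 ▸ (hdy z hz).1) (fun z hz => (hEτ1 z hz).2 ▸ (hdy z hz).2) (by
        intro hb z hz i' hi' B hB hc
        have a1 : 2 ^ (j + j0) ≤ Q := by
          rw [← pow_add, add_comm] at hb
          exact_mod_cast hb
        have a2 : ∀ i ∈ B, ∀ k, 2 ^ (j + j0) * |(g i).2 k - (g i').2 k| ≤ 1 := fun i hi k => by
          have := hc i hi k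
          rw [pow_add]; linarith
        obtain ⟨b1, b2, b3⟩ := mem_thru.1 hi'
        obtain ⟨c, hc'⟩ := cls_cover (Q := Q) (j := j + j0) B g
          (fun k => 2 ^ (j + j0) * (g i').2 k) (fun k => 2 ^ (j + j0) * (g i').1 k / Q) (by
            intro i hi k
            rw [← mul_sub, abs_mul, abs_of_pos (show (0 : ℝ) < 2 ^ (j + j0) by positivity)]
            linarith [a2 i hi k]) fun i hi k =>
          x_near hQ a1 (hE _ (hsub b1) _ b2).1 ((mem_thru.1 (hB hi)).2.2.trans b3.symm) k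
            (a2 i hi k)
        have a3 := Gc_thru (Q := Q) (j := j + j0) (G := G) (Y := Y) (z := z) (B := B)
          (fun i hi => mem_thru.2 ⟨hsub (mem_thru.1 (hB hi)).1, (mem_thru.1 (hB hi)).2⟩) c
        have a4 := hmax z (j + j0) c a1
        rw [(hE1a z (hEτ1 z hz).1).2.2.1, hthru z (hEτ1 z hz).1, pow_add,
          Real.mul_rpow (by positivity) (by positivity), mul_comm (((2 : ℝ) ^ j) ^ ε),
          ← mul_assoc] at a4
        have a5 := le_of_mul_le_mul_right a4 (by positivity)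
        have a6 : ((thru (Gc Q (j + j0) G g c) g Y z).card : ℝ) * (8 * 49 ^ m) ≤ 2 * 2 ^ k :=
          (mul_le_mul_of_nonneg_left hj0 (Nat.cast_nonneg _)).trans (a5.trans (hdy z hz).2)
        have a7 : (49 : ℝ) ^ m * (Gc Q (j + j0) B g c).card ≤
            49 ^ m * (thru (Gc Q (j + j0) G g c) g Y z).card :=
          mul_le_mul_of_nonneg_left a3 (by positivity)
        linarith) (by
        rw [Finset.card_eq_sum_card_image (col j τ.1) Eτ, Nat.cast_sum, mul_comm, ← nsmul_eq_mul]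
        refine Finset.card_nsmul_le_sum _ _ _ fun γ hγ => ?_
        obtain ⟨z, hz, rfl⟩ := Finset.mem_image.1 hγ
        refine (hdy2 z hz).1.trans (Nat.cast_le.2 (Finset.card_le_card fun z' hz' => ?_))
        obtain ⟨a1, a2⟩ := Finset.mem_filter.1 hz
        obtain ⟨b1, b2, b3⟩ := Finset.mem_filter.1 hz'
        refine Finset.mem_filter.2 ⟨Finset.mem_filter.2 ⟨(hE2m z' b1).2 ?_, b2.trans a2⟩, a2 ▸ b3⟩
        rw [hco3 z z' hz']
        exact (hE2m z (hE2 a1)).1 a1) (by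
        intro B hB γ hγ
        rcases B.eq_empty_or_nonempty with rfl | ⟨z, hz⟩
        · simp only [Finset.card_empty, Nat.cast_zero]; positivity
        refine le_trans (Nat.cast_le.2 (Finset.card_le_card fun z' hz' => ?_)) (hdy2 z (hB hz)).2
        have a2 := (Finset.mem_filter.1 (hB hz)).2
        have b2 := (Finset.mem_filter.1 (hB hz')).2
        refine Finset.mem_filter.2 ⟨(hEτ1 z' (hB hz')).1, b2.trans a2.symm, ?_⟩
        rw [a2, hγ z' hz', hγ z hz]) (hsum ▸ hI') fun i hi => h2e i (hsub hi)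
    have a1 : ∑ z ∈ Eτ, (n z : ℝ) ≤ (Gc Q j G g τ).card * (2 * l) := by
      rw [← hsum, ← Nat.cast_sum, sum_thru, Nat.cast_sum, ← nsmul_eq_mul]
      exact Finset.sum_le_card_nsmul _ _ _ fun i hi =>
        le_trans (Nat.cast_le.2 (Finset.card_filter_le _ _)) (hl2 i (hsub hi))
    refine a1.trans ?_
    rw [div_mul_eq_mul_div, le_div_iff₀ hlD]
    have a2 := mul_le_mul_of_nonneg_left key (show 0 ≤ 2 * l by positivity)
    rw [← hΛ] at a2
    linarith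
  have t1 := Finset.sum_le_sum main
  rw [Finset.sum_fiberwise_of_maps_to hmaps, Finset.sum_add_distrib, ← Finset.mul_sum,
    ← Finset.sum_mul, ← Finset.mul_sum, ← Nat.cast_sum _ fun τ => (Gc Q j G g τ).card,
    ← Nat.cast_sum _ fun τ => (E2.filter fun z => cz z = τ).card,
    ← Finset.card_eq_sum_card_fiberwise hmaps] at t1
  have t2 : ∑ τ ∈ G.image (fun i => cls Q j (g i)), (Gc Q j G g τ).card = G.card := by
    rw [Finset.card_eq_sum_card_image (fun i => cls Q j (g i)) G]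
    refine Finset.sum_congr rfl fun τ _ => congrArg Finset.card ?_
    ext i
    rw [mem_Gc, Finset.mem_filter]
  rw [t2] at t1
  have t3 : (E2.card : ℝ) ≤ E.card :=
    Nat.cast_le.2 (Finset.card_le_card fun z hz => (hE1a z (hE2 hz)).1)
  have t4 : η * (G.card * l) ≤ 2 * l * Λ / l ^ D * E.card := by
    have := mul_le_mul_of_nonneg_left t3 (show 0 ≤ 2 * l * Λ / l ^ D by positivity)
    linarith
  rw [div_mul_eq_mul_div, le_div_iff₀ hlD] at t4
  refine le_of_mul_le_mul_left ?_ hl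
  linarith

end Pool.Agent.MP_5168f5_an.H29
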