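import Pool.Agent.MP_5168f5_an.H29.Cord

/-! The coarse cell of a random point of a hairbrush has two-dimensional entropy. -/

namespace Pool.Agent.MP_5168f5_an.H29

open Finset H19 Setoid

variable {m : ℕ} {ι : Type}

/-- The coarse cell at dyadic level `j`. -/
noncomputable def cc (Q j : ℕ) (z : Pt m) : (Fin m → ℤ) × ℤ :=
  (fun k => ⌊(2 : ℝ) ^ j * z.1 k / Q⌋, ⌊(2 : ℝ) ^ j * z.2 / Q⌋)

theorem close_of_floor {Q j : ℕ} (hQ : 0 < Q) {a b : ℝ}
    (h : ⌊(2 : ℝ) ^ j * a / Q⌋ = ⌊(2 : ℝ) ^ j * b / Q⌋) : |a - b| ≤ Q / 2 ^ j := by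
  have hQ0 : (0 : ℝ) < Q := by exact_mod_cast hQ
  have h1 := abs_of_floor h
  have e : (2 : ℝ) ^ j * a / Q - 2 ^ j * b / Q = (a - b) / (Q / 2 ^ j) := by field_simp
  rw [e, abs_div, abs_of_pos (show (0 : ℝ) < Q / 2 ^ j by positivity), div_le_one (by positivity)] at h1
  exact h1

theorem one_le_ratio {Q j : ℕ} (hj : 2 ^ j ≤ Q) : (1 : ℝ) ≤ Q / 2 ^ j := by
  rw [le_div_iff₀ (by positivity), one_mul]
  exact_mod_cast hj

theorem pair_count {Q j : ℕ} (hQ : 0 < Q) (hj : 2 ^ j ≤ Q) {K : ℝ} (hK : 1 ≤ K)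
    {g0 g1 g2 : Line m} (hy : ∀ k, |g1.2 k| ≤ 1) {t1 t2 : ℕ} (ht1 : t1 < Q) (ht2 : t2 < Q)
    (h1 : Near K g1 g0 t1) (h2 : Near K g2 g0 t2) (hang : ∃ k, 1 ≤ K * |g1.2 k - g0.2 k|)
    (B : Finset (ℕ × ℕ)) (hB : ∀ x ∈ B, x.2 < Q ∧
      cc Q j (cell g2 x.2, x.2) = cc Q j (cell g1 x.1, x.1)) :
    (B.card : ℝ) ≤ 190 * K ^ 2 * ((Q : ℝ) / 2 ^ j) ^ 2 * Q * (1 / (|(t2 : ℝ) - t1| + 1)) := by
  classical
  obtain ⟨k, hk⟩ := hang
  have hQ1 : (1 : ℝ) ≤ Q := by exact_mod_cast hQ
  set r : ℝ := Q / 2 ^ j with hr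
  have hr1 : 1 ≤ r := one_le_ratio hj
  set d : ℝ := |(t2 : ℝ) - t1| with hd
  have d0 : 0 ≤ d := abs_nonneg _
  have d1 : d ≤ Q := abs_nat_sub_le ht2 ht1
  have hs : ∀ x ∈ B, |(x.2 : ℝ) - x.1| ≤ r := fun x hx =>
    close_of_floor hQ (Prod.ext_iff.1 (hB x hx).2).2
  set σ := g1.2 k - g2.2 k with hσ
  set c := g1.1 k - g2.1 k with hc
  have hf : ∀ x ∈ B, |c + x.2 * σ| ≤ 4 * r := by
    intro x hx
    have a1 : |(cell g2 x.2 k : ℝ) - cell g1 x.1 k| ≤ r :=
      close_of_floor hQ (congrFun (Prod.ext_iff.1 (hB x hx).2).1 k)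
    have a2 := pos_sub_cell g1 x.1 k
    have a3 := pos_sub_cell g2 x.2 k
    have a4 := abs_mul_le' (hs x hx) (hy k)
    have e : c + x.2 * σ = (pos g1 x.1 k - cell g1 x.1 k) - (pos g2 x.2 k - cell g2 x.2 k) -
        ((cell g2 x.2 k : ℝ) - cell g1 x.1 k) + ((x.2 : ℝ) - x.1) * g1.2 k := by
      simp only [hc, hσ, pos]; ring
    rw [e]
    refine (abs_add_le _ _).trans ?_
    have a5 := abs_sub ((pos g1 x.1 k - cell g1 x.1 k) - (pos g2 x.2 k - cell g2 x.2 k))
      ((cell g2 x.2 k : ℝ) - cell g1 x.1 k)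
    have a6 := abs_sub (pos g1 x.1 k - cell g1 x.1 k) (pos g2 x.2 k - cell g2 x.2 k)
    linarith
  have c1 : (B.card : ℝ) ≤ (B.image Prod.snd).card * (5 * r) := by
    refine card_le_of_fib B Prod.snd _ _ (fun x hx => Finset.mem_image_of_mem _ hx) ?_
    intro B' hB' s _ hs'
    refine le_trans ?_ ((card_seg_le (s : ℤ) (R := r) (by linarith)).trans (by linarith))
    refine Nat.cast_le.2 (Finset.card_le_card_of_injOn (fun x => (x.1 : ℤ)) ?_ ?_)
    · intro x hx
      refine Finset.mem_coe.2 (int_mem_seg ?_)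
      have := hs x (hB' hx)
      rw [hs' x hx, abs_sub_comm] at this
      simpa using this
    · intro x hx y hy e
      have e' : (x.1 : ℤ) = (y.1 : ℤ) := e
      exact Prod.ext (by exact_mod_cast e') ((hs' x hx).trans (hs' y hy).symm)
  have c2 : ((B.image Prod.snd).card : ℝ) * (d + 1) ≤ 38 * K ^ 2 * r * Q := by
    have k1 : K ≤ K ^ 2 := le_self_pow₀ hK (by norm_num)
    have k2 : 1 ≤ K ^ 2 * r := by nlinarith
    have c0 : (0 : ℝ) ≤ (B.image Prod.snd).card := Nat.cast_nonneg _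
    by_cases hd2 : d < 12 * K ^ 2 * r
    · have a1 : ((B.image Prod.snd).card : ℝ) ≤ Q := by
        have : B.image Prod.snd ⊆ Finset.range Q := by
          intro s hs
          obtain ⟨x, hx, rfl⟩ := Finset.mem_image.1 hs
          exact Finset.mem_range.2 (hB x hx).1
        have := Finset.card_le_card this
        rw [Finset.card_range] at this
        exact_mod_cast this
      calc _ ≤ Q * (13 * (K ^ 2 * r)) := mul_le_mul a1 (by linarith) (by positivity) (by positivity)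
        _ ≤ _ := by nlinarith
    · push Not at hd2
      rcases B.eq_empty_or_nonempty with rfl | ⟨x, hx⟩
      · simp only [Finset.image_empty, Finset.card_empty, Nat.cast_zero, zero_mul]; positivity
      have a1 : d ≤ K * (|c + t2 * σ| + 2 * K) := by
        have e : ((t2 : ℝ) - t1) * (g1.2 k - g0.2 k) = (c + t2 * σ) +
            (pos g2 t2 k - pos g0 t2 k) - (pos g1 t1 k - pos g0 t1 k) := by
          simp only [hc, hσ, pos]; ring
        have b1 : d * |g1.2 k - g0.2 k| ≤ |c + t2 * σ| + 2 * K := by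
          rw [hd, ← abs_mul, e]
          refine (abs_sub _ _).trans ?_
          have := abs_add_le (c + t2 * σ) (pos g2 t2 k - pos g0 t2 k)
          linarith [h1 k, h2 k]
        calc d = d * 1 := (mul_one _).symm
          _ ≤ d * (K * |g1.2 k - g0.2 k|) := mul_le_mul_of_nonneg_left hk d0
          _ = K * (d * |g1.2 k - g0.2 k|) := by ring
          _ ≤ _ := mul_le_mul_of_nonneg_left b1 (by linarith)
      have a2 : |c + t2 * σ| ≤ 4 * r + Q * |σ| := by
        have e : c + t2 * σ = (c + x.2 * σ) + ((t2 : ℝ) - x.2) * σ := by ring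
        rw [e]
        refine (abs_add_le _ _).trans ?_
        have := abs_mul_le' (abs_nat_sub_le ht2 (hB x hx).1) (le_refl |σ|)
        linarith [hf x hx]
      have a3 : d ≤ 2 * K * Q * |σ| := by
        have b1 : K * |c + t2 * σ| ≤ K * (4 * r + Q * |σ|) :=
          mul_le_mul_of_nonneg_left a2 (by linarith)
        have b2 : K * r ≤ K ^ 2 * r := mul_le_mul_of_nonneg_right k1 (by linarith)
        have b3 : K ^ 2 ≤ K ^ 2 * r := le_mul_of_one_le_right (by positivity) hr1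
        nlinarith
      have hσ0 : 0 < |σ| := by
        by_contra hh
        have : |σ| = 0 := le_antisymm (not_lt.1 hh) (abs_nonneg _)
        rw [this] at a3; nlinarith
      have a4 := heights_le (B.image Prod.snd) (c := c) (σ := σ) (R := 4 * r) (abs_pos.1 hσ0)
        (by linarith) (by
          intro s hs
          obtain ⟨y, hy, rfl⟩ := Finset.mem_image.1 hs
          exact hf y hy)
      have a5 : 4 * r / |σ| * (d + 1) ≤ 16 * K * r * Q := by
        rw [div_mul_eq_mul_div, div_le_iff₀ hσ0]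
        have : d + 1 ≤ 4 * K * Q * |σ| := by nlinarith
        nlinarith
      have a6 : ((B.image Prod.snd).card : ℝ) * (d + 1) ≤ (2 * (4 * r / |σ|) + 3) * (d + 1) :=
        mul_le_mul_of_nonneg_right a4 (by positivity)
      have a7 : K * r * Q ≤ K ^ 2 * r * Q := by gcongr
      have a8 : (Q : ℝ) ≤ K ^ 2 * r * Q := le_mul_of_one_le_left (by positivity) k2
      nlinarith
  rw [mul_one_div, le_div_iff₀ (by positivity)]
  calc _ ≤ (B.image Prod.snd).card * (5 * r) * (d + 1) :=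
        mul_le_mul_of_nonneg_right c1 (by positivity)
    _ = 5 * r * ((B.image Prod.snd).card * (d + 1)) := by ring
    _ ≤ 5 * r * (38 * K ^ 2 * r * Q) := mul_le_mul_of_nonneg_left c2 (by positivity)
    _ = _ := by ring

theorem two_pow_lt {Q j : ℕ} (hj : 2 ^ j ≤ Q) : j < Nat.log 2 Q + 1 :=
  Nat.lt_succ_of_le (Nat.le_log_of_pow_le (by norm_num) hj)

theorem log_card_le {Q : ℕ} (hQ : 0 < Q) : ((Nat.log 2 Q + 1 : ℕ) : ℝ) ≤ 2 * Real.log Q + 1 := by
  have h1 : (2 : ℝ) ^ Nat.log 2 Q ≤ Q := by exact_mod_cast Nat.pow_log_le_self 2 hQ.ne'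
  have h2 := Real.log_le_log (by positivity) h1
  rw [Real.log_pow] at h2
  have hl2 : (1 : ℝ) / 2 < Real.log 2 := by have := Real.log_two_gt_d9; linarith
  have h3 : (0 : ℝ) ≤ Nat.log 2 Q := Nat.cast_nonneg _
  push_cast
  nlinarith

theorem coarse_ge {Ω : Type} (P : FP Ω) {Q : ℕ} (hQ : 0 < Q) {K l : ℝ} (hK : 1 ≤ K) (hl : 0 < l)
    {G : Finset ι} {g : ι → Line m} {Y : ι → Finset ℕ} {T : Finset (ι × ι × ℕ)}
    (hG : G.Nonempty) (hy : ∀ i ∈ G, ∀ k, |(g i).2 k| ≤ 1) (hT : ∀ o ∈ T, Cross Q K l G g Y o)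
    (hfib : ∀ B ⊆ T, ∀ c, (∀ o ∈ B, o.2 = c) → (G.card : ℝ) * l * B.card ≤ K * T.card)
    (hTne : T.Nonempty) (O : Ω → ι × ι × ℕ) (s w : Ω → ℕ) (hO : ∀ a ∈ P.S, O a ∈ T)
    (hw : ∀ a ∈ P.S, 2 ^ w a ≤ Q)
    (hdom : ∀ F : ι × ι × ℕ → ℕ → ℝ, (∀ o r, 0 ≤ F o r) → P.E (fun a => F (O a) (s a)) ≤
      1 / (T.card * l) * ∑ o ∈ T, ∑ r ∈ Finset.range Q, F o r) :
    2 * (Real.log 2 * P.E fun a => (w a : ℝ)) - 3 * (Real.log Q - Real.log l) -
      Real.log (380 * K ^ 3 * (2 * Real.log Q + 1) * (1 + Real.log (Q + 1))) ≤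
      hh P fun a => (w a, cc Q (w a) (cell (g (O a).1) (s a), s a)) := by
  classical
  have hQ1 : (1 : ℝ) ≤ Q := by exact_mod_cast hQ
  have hG0 : (0 : ℝ) < G.card := by exact_mod_cast hG.card_pos
  have hT0 : (0 : ℝ) < T.card := by exact_mod_cast hTne.card_pos
  have hlog : 0 ≤ Real.log Q := Real.log_nonneg hQ1
  have hlog1 : 0 ≤ Real.log (Q + 1) := Real.log_nonneg (by linarith)
  set Λ : ℝ := 380 * K ^ 3 * Q ^ 3 * (1 + Real.log (Q + 1)) / (G.card * l ^ 3) with hΛ
  set χ : ℕ → ι × ι × ℕ → ℕ → ι × ι × ℕ → ℕ → ℝ := fun j o r o' r' =>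
    if o'.2.1 = o.2.1 ∧ cc Q j (cell (g o'.1) r', r') = cc Q j (cell (g o.1) r, r) then 1 else 0
    with hχ
  have hχ0 : ∀ j o r o' r', 0 ≤ χ j o r o' r' := fun j o r o' r' => by
    simp only [hχ]; split_ifs <;> norm_num
  have key : ∀ j, 2 ^ j ≤ Q →
      4 ^ j * P.E (fun a => P.E fun b => χ j (O a) (s a) (O b) (s b)) ≤ Λ := by
    intro j hj
    have c1 : P.E (fun a => P.E fun b => χ j (O a) (s a) (O b) (s b)) ≤
        P.E fun a => 1 / (T.card * l) * ∑ o' ∈ T, ∑ r' ∈ Finset.range Q, χ j (O a) (s a) o' r' :=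
      P.E_mono fun a _ => hdom _ (hχ0 j _ _)
    have c2 := hdom (fun o r => 1 / (T.card * l) * ∑ o' ∈ T, ∑ r' ∈ Finset.range Q, χ j o r o' r')
      (fun o r => mul_nonneg (by positivity)
        (Finset.sum_nonneg fun _ _ => Finset.sum_nonneg fun _ _ => hχ0 _ _ _ _ _))
    have c3 : ∀ o ∈ T, ∑ r ∈ Finset.range Q, ∑ o' ∈ T, ∑ r' ∈ Finset.range Q, χ j o r o' r' ≤
        190 * K ^ 2 * ((Q : ℝ) / 2 ^ j) ^ 2 * Q *
          (2 * (K * T.card / (G.card * l)) * (1 + Real.log (Q + 1))) := by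
      intro o ho
      have ho' := hT o ho
      rw [Finset.sum_comm]
      have d1 : ∀ o' ∈ T, ∑ r ∈ Finset.range Q, ∑ r' ∈ Finset.range Q, χ j o r o' r' ≤
          if o'.2.1 = o.2.1 then 190 * K ^ 2 * ((Q : ℝ) / 2 ^ j) ^ 2 * Q *
            (1 / (|((o'.2.2 : ℤ) : ℝ) - (o.2.2 : ℤ)| + 1)) else 0 := by
        intro o' ho2
        have ho2' := hT o' ho2
        split_ifs with h
        · rw [← Finset.sum_product']
          simp only [hχ, h, true_and]
          rw [Finset.sum_boole]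
          have := pair_count hQ hj hK (g0 := g o.2.1) (g1 := g o.1) (g2 := g o'.1)
            (hy _ ho'.m1) ho'.lt ho2'.lt ho'.near (by rw [← h]; exact ho2'.near) ho'.ang
            ((Finset.range Q ×ˢ Finset.range Q).filter fun x =>
              cc Q j (cell (g o'.1) x.2, x.2) = cc Q j (cell (g o.1) x.1, x.1)) (by
              intro x hx
              obtain ⟨h1, h2⟩ := Finset.mem_filter.1 hx
              exact ⟨Finset.mem_range.1 (Finset.mem_product.1 h1).2, h2⟩)
          simpa using this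
        · simp [hχ, h]
      refine (Finset.sum_le_sum d1).trans ?_
      rw [← Finset.sum_filter, ← Finset.mul_sum]
      refine mul_le_mul_of_nonneg_left ?_ (by positivity)
      refine sum_fib_le _ (fun o' : ι × ι × ℕ => (o'.2.2 : ℤ)) (o.2.2 : ℤ) Q (by positivity) ?_ ?_
      · intro B hB c hc
        rw [le_div_iff₀ (by positivity), mul_comm]
        refine hfib B (hB.trans (Finset.filter_subset _ _)) (o.2.1, c.toNat) fun x hx => ?_
        refine Prod.ext (Finset.mem_filter.1 (hB hx)).2 ?_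
        have := hc x hx
        simp only at this ⊢
        omega
      · intro x hx
        have h1 := (hT x (Finset.mem_filter.1 hx).1).lt
        have h2 := ho'.lt
        rw [abs_le]; constructor <;> omega
    have c4 : ∑ o ∈ T, ∑ r ∈ Finset.range Q,
        1 / (T.card * l) * ∑ o' ∈ T, ∑ r' ∈ Finset.range Q, χ j o r o' r' ≤
        T.card * (1 / (T.card * l) * (190 * K ^ 2 * ((Q : ℝ) / 2 ^ j) ^ 2 * Q *
          (2 * (K * T.card / (G.card * l)) * (1 + Real.log (Q + 1))))) := by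
      refine (Finset.sum_le_card_nsmul T _ _ fun o ho => ?_).trans (le_of_eq (nsmul_eq_mul _ _))
      rw [← Finset.mul_sum]
      exact mul_le_mul_of_nonneg_left (c3 o ho) (by positivity)
    have c5 := c1.trans (c2.trans (mul_le_mul_of_nonneg_left c4 (by positivity)))
    refine (mul_le_mul_of_nonneg_left c5 (by positivity)).trans (le_of_eq ?_)
    rw [hΛ, show (4 : ℝ) ^ j = (2 ^ j) ^ 2 by rw [← pow_mul, mul_comm, pow_mul]; norm_num]
    field_simp
    ring
  set R := ker fun a => ((O a).2.1, w a, cc Q (w a) (cell (g (O a).1) (s a), s a)) with hR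
  have c6 : P.E (fun a => P.pr R a * 4 ^ w a) ≤ (2 * Real.log Q + 1) * Λ := by
    have d1 : P.E (fun a => P.pr R a * 4 ^ w a) ≤ P.E fun a =>
        ∑ j ∈ (Finset.range (Nat.log 2 Q + 1)).filter (fun j => 2 ^ j ≤ Q),
          4 ^ j * P.E fun b => χ j (O a) (s a) (O b) (s b) := by
      refine P.E_mono fun a ha => ?_
      refine le_trans ?_ (Finset.single_le_sum (f := fun j => 4 ^ j *
        P.E fun b => χ j (O a) (s a) (O b) (s b)) (fun j _ => mul_nonneg (by positivity)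
          (P.E_nonneg fun _ _ => hχ0 _ _ _ _ _))
        (Finset.mem_filter.2 ⟨Finset.mem_range.2 (two_pow_lt (hw a ha)), hw a ha⟩))
      rw [mul_comm]
      refine mul_le_mul_of_nonneg_left (P.E_mono fun b _ => ?_) (by positivity)
      split_ifs with h
      · simp only [ker_def, Prod.mk.injEq] at h
        obtain ⟨h1, h2, h3⟩ := h
        rw [h2] at h3
        simp only [hχ]
        rw [if_pos ⟨h1, h3⟩]
      · exact hχ0 _ _ _ _ _
    refine d1.trans ?_
    rw [FP.E_sum]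
    have hΛ0 : 0 ≤ Λ := by positivity
    calc _ ≤ ∑ _j ∈ (Finset.range (Nat.log 2 Q + 1)).filter (fun j => 2 ^ j ≤ Q), Λ := by
          refine Finset.sum_le_sum fun j hj => ?_
          rw [FP.E_mul]
          exact key j (Finset.mem_filter.1 hj).2
      _ ≤ _ := by
          rw [Finset.sum_const, nsmul_eq_mul]
          refine mul_le_mul_of_nonneg_right (le_trans ?_ (log_card_le hQ)) hΛ0
          have := Finset.card_filter_le (Finset.range (Nat.log 2 Q + 1)) (fun j => 2 ^ j ≤ Q)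
          rw [Finset.card_range] at this
          exact_mod_cast this
  have c7 := jensen P R (fun a => 4 ^ w a) (fun a _ => by positivity) (by positivity) c6
  have c8 : (P.E fun a => Real.log (4 ^ w a)) = 2 * (Real.log 2 * P.E fun a => (w a : ℝ)) := by
    rw [← FP.E_mul, ← FP.E_mul]
    refine P.E_congr fun a _ => ?_
    rw [Real.log_pow, show (4 : ℝ) = 2 ^ 2 by norm_num, Real.log_pow]
    push_cast; ring
  have c9 : P.H R ≤ (hh P fun a => (w a, cc Q (w a) (cell (g (O a).1) (s a), s a))) +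
      Real.log G.card :=
    hh_count P _ _ (fun a => (O a).2.1) G.card (fun a _ b _ h1 h2 => by rw [h1, h2])
      fun a _ => ⟨G, le_rfl, fun b hb _ => (hT _ (hO b hb)).m2⟩
  have c10 : Real.log ((2 * Real.log Q + 1) * Λ) =
      Real.log (380 * K ^ 3 * (2 * Real.log Q + 1) * (1 + Real.log (Q + 1))) +
        3 * (Real.log Q - Real.log l) - Real.log G.card := by
    have : (2 * Real.log Q + 1) * Λ = 380 * K ^ 3 * (2 * Real.log Q + 1) * (1 + Real.log (Q + 1)) *
        (Q / l) ^ 3 / G.card := by rw [hΛ]; field_simp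
    rw [this, Real.log_div (by positivity) hG0.ne', Real.log_mul (by positivity) (by positivity),
      Real.log_pow, Real.log_div (by positivity) hl.ne']
    push_cast; ring
  rw [c8, c10] at c7
  linarith

end Pool.Agent.MP_5168f5_an.H29
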