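import Pool.Agent.MP_5168f5_an.H29.UEnt

/-! Overlaps of lines that meet a common line transversally. -/

namespace Pool.Agent.MP_5168f5_an.H29

open Finset H19

variable {m : ℕ} {ι : Type}

theorem heights_le (B : Finset ℕ) {c σ R : ℝ} (hσ : σ ≠ 0) (hR : 0 ≤ R)
    (h : ∀ t ∈ B, |c + t * σ| ≤ R) : (B.card : ℝ) ≤ 2 * (R / |σ|) + 3 := by
  have hs := abs_pos.2 hσ
  refine le_trans ?_ (card_seg_le ⌊-c / σ⌋ (R := R / |σ|) (by positivity))
  refine Nat.cast_le.2 (Finset.card_le_card_of_injOn (fun t : ℕ => (t : ℤ)) ?_ ?_)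
  · intro t ht
    have h1 : |(t : ℝ) - -c / σ| ≤ R / |σ| := by
      have : (t : ℝ) - -c / σ = (c + t * σ) / σ := by field_simp; ring
      rw [this, abs_div]
      exact div_le_div_of_nonneg_right (h t ht) hs.le
    simpa using floor_mem_seg h1
  · intro a _ b _ e
    have e' : (a : ℤ) = (b : ℤ) := e
    exact_mod_cast e'

theorem harm_sum (M : ℕ) :
    ∑ d ∈ Finset.range (M + 1), (1 : ℝ) / (d + 1) ≤ 1 + Real.log (M + 1) := by
  have h := harmonic_le_one_add_log (M + 1)
  unfold harmonic at h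
  push_cast at h
  simpa [one_div] using h

theorem sum_fib_le {α : Type} (A : Finset α) (r : α → ℤ) (r0 : ℤ) (M : ℕ) {n : ℝ} (hn : 0 ≤ n)
    (hf : ∀ B ⊆ A, ∀ c, (∀ x ∈ B, r x = c) → (B.card : ℝ) ≤ n)
    (hM : ∀ x ∈ A, |r x - r0| ≤ M) :
    ∑ x ∈ A, (1 : ℝ) / (|(r x : ℝ) - r0| + 1) ≤ 2 * n * (1 + Real.log (M + 1)) := by
  classical
  have h1 : ∀ x ∈ A, (r x - r0).natAbs ∈ Finset.range (M + 1) := by
    intro x hx
    have := abs_le.1 (hM x hx)
    rw [Finset.mem_range]
    omega
  rw [← Finset.sum_fiberwise_of_maps_to h1]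
  calc _ ≤ ∑ d ∈ Finset.range (M + 1), 2 * n * ((1 : ℝ) / (d + 1)) := by
        refine Finset.sum_le_sum fun d _ => ?_
        have h2 : ∀ x ∈ A.filter (fun x => (r x - r0).natAbs = d),
            (1 : ℝ) / (|(r x : ℝ) - r0| + 1) = 1 / (d + 1) := by
          intro x hx
          have h3 := (Finset.mem_filter.1 hx).2
          have h4 : |(r x : ℝ) - r0| = d := by
            rw [← h3, Nat.cast_natAbs]; push_cast; rfl
          rw [h4]
        rw [Finset.sum_congr rfl h2, Finset.sum_const, nsmul_eq_mul]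
        refine mul_le_mul_of_nonneg_right ?_ (by positivity)
        have h5 := card_le_of_fib (A.filter (fun x => (r x - r0).natAbs = d)) r
          {r0 + d, r0 - d} n (by
            intro x hx
            have h3 := (Finset.mem_filter.1 hx).2
            simp only [Finset.mem_insert, Finset.mem_singleton]
            omega)
          (fun B hB c _ hc => hf B (hB.trans (Finset.filter_subset _ _)) c hc)
        refine h5.trans (mul_le_mul_of_nonneg_right ?_ hn)
        exact_mod_cast Finset.card_le_two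
    _ ≤ _ := by
        rw [← Finset.mul_sum]
        exact mul_le_mul_of_nonneg_left (harm_sum M) (by positivity)

/-- Two lines are close at a height. -/
def Near (K : ℝ) (g g' : Line m) (t : ℕ) : Prop := ∀ k, |pos g t k - pos g' t k| ≤ K

theorem Near.symm {K : ℝ} {g g' : Line m} {t : ℕ} (h : Near K g g' t) : Near K g' g t :=
  fun k => by rw [abs_sub_comm]; exact h k

theorem abs_nat_sub_le {Q a b : ℕ} (ha : a < Q) (hb : b < Q) : |(a : ℝ) - b| ≤ Q := by
  have h1 : (a : ℝ) < Q := by exact_mod_cast ha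
  have h2 : (b : ℝ) < Q := by exact_mod_cast hb
  have h3 : (0 : ℝ) ≤ a := Nat.cast_nonneg _
  have h4 : (0 : ℝ) ≤ b := Nat.cast_nonneg _
  rw [abs_le]; constructor <;> linarith

theorem far_ne {Q : ℕ} {K a : ℝ} (hQ : 0 < Q) (h : (Q : ℝ) ≤ K * |a|) : a ≠ 0 := by
  rintro rfl
  have : (0 : ℝ) < Q := by exact_mod_cast hQ
  simp only [abs_zero, mul_zero] at h
  linarith

theorem in_plane {Q : ℕ} (hQ : 0 < Q) {K : ℝ} (hK : 1 ≤ K) {g0 g1 g2 : Line m} {t t1 t2 : ℕ}
    (h1 : Near K g0 g1 t1) (h2 : Near K g0 g2 t2) (hf : (Q : ℝ) ≤ K * |(t : ℝ) - t2|)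
    (hc : cell g2 t = cell g1 t) :
    ∃ ρ : ℝ, ∀ k, Q * |g2.2 k - g0.2 k - ρ * (g1.2 k - g0.2 k)| ≤ 3 * K ^ 2 := by
  have hne := far_ne hQ hf
  refine ⟨((t : ℝ) - t1) / (t - t2), fun k => ?_⟩
  have e : g2.2 k - g0.2 k - ((t : ℝ) - t1) / (t - t2) * (g1.2 k - g0.2 k) =
      ((pos g2 t k - pos g1 t k) + (pos g0 t2 k - pos g2 t2 k) - (pos g0 t1 k - pos g1 t1 k)) /
        (t - t2) := by
    unfold pos; field_simp; ring
  have b1 := pos_close hc k
  have b2 : |(pos g2 t k - pos g1 t k) + (pos g0 t2 k - pos g2 t2 k) -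
      (pos g0 t1 k - pos g1 t1 k)| ≤ 3 * K := by
    refine (abs_sub _ _).trans ?_
    have := abs_add_le (pos g2 t k - pos g1 t k) (pos g0 t2 k - pos g2 t2 k)
    linarith [h1 k, h2 k]
  have hp := abs_pos.2 hne
  rw [e, abs_div, ← mul_div_assoc, div_le_iff₀ hp]
  calc _ ≤ (K * |(t : ℝ) - t2|) * (3 * K) :=
        mul_le_mul hf b2 (abs_nonneg _) (by positivity)
    _ = _ := by ring

/-- The overlap bound. -/
noncomputable def cM (m Q : ℕ) (K u : ℝ) : ℝ :=
  40 * (43 * K ^ 3) ^ m * u * Q * (1 + Real.log (2 * Q + 1))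

theorem cordW {Q : ℕ} (hQ : 0 < Q) {K u : ℝ} (hK : 1 ≤ K) {G : Finset ι} {g : ι → Line m}
    (hy : ∀ i ∈ G, ∀ k, |(g i).2 k| ≤ 1) (hd : DirM Q G g u) {i0 i1 : ι} (h0 : i0 ∈ G)
    (h1 : i1 ∈ G) (hang : ∃ k, 1 ≤ K * |(g i0).2 k - (g i1).2 k|) :
    ∃ W : Finset (ℕ × ι), (W.card : ℝ) ≤ cM m Q K u ∧ ∀ t < Q, ∀ i ∈ G,
      cell (g i) t = cell (g i1) t → ∀ t1 t2 : ℕ, Near K (g i0) (g i1) t1 →
      Near K (g i0) (g i) t2 → (Q : ℝ) ≤ K * |(t : ℝ) - t2| → (t, i) ∈ W := by
  classical
  obtain ⟨k0, hk0⟩ := hang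
  have hQ1 : (1 : ℝ) ≤ Q := by exact_mod_cast hQ
  have hu : 0 ≤ u := le_trans zero_le_one (hd.one_le ⟨i0, h0⟩)
  set A : Finset ι := G.filter fun i => ∃ ρ : ℝ, ∀ k,
    Q * |(g i).2 k - (g i0).2 k - ρ * ((g i1).2 k - (g i0).2 k)| ≤ 3 * K ^ 2 with hA
  set H : ι → Finset ℕ := fun i => (Finset.range Q).filter fun t => cell (g i) t = cell (g i1) t
    with hH
  refine ⟨(A.sigma H).image fun x => (x.2, x.1), ?_, ?_⟩
  · have c1 : (((A.sigma H).image fun x => (x.2, x.1)).card : ℝ) ≤ ∑ i ∈ A, ((H i).card : ℝ) := by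
      rw [← Nat.cast_sum, ← Finset.card_sigma]
      exact_mod_cast Finset.card_image_le
    have hdir : ∀ i ∈ G, |dir Q (g i) k0| ≤ Q := by
      intro i hi
      have h2 := floor_near (a := Q * (g i).2 k0) (b := 0) (R := Q) (by
        rw [sub_zero, abs_mul, Nat.abs_cast]
        have := hy i hi k0
        nlinarith)
      simpa [dir] using h2
    have c2 : ∀ i ∈ A, ((H i).card : ℝ) ≤
        20 * Q * (1 / (|(dir Q (g i) k0 : ℝ) - dir Q (g i1) k0| + 1)) := by
      intro i hi
      have hiG := (Finset.mem_filter.1 hi).1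
      set d : ℝ := |(dir Q (g i) k0 : ℝ) - dir Q (g i1) k0| with hdd
      have d0 : 0 ≤ d := abs_nonneg _
      rw [mul_one_div, le_div_iff₀ (by positivity)]
      by_cases hd2 : d < 2
      · have h2 : ((H i).card : ℝ) ≤ Q := by
          have := Finset.card_filter_le (Finset.range Q) fun t => cell (g i) t = cell (g i1) t
          rw [Finset.card_range] at this
          exact_mod_cast this
        have h3 : (0 : ℝ) ≤ (H i).card := Nat.cast_nonneg _
        nlinarith
      · push Not at hd2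
        have d1 : d ≤ 2 * Q := by
          have a1 : |(dir Q (g i) k0 : ℝ)| ≤ Q := by exact_mod_cast hdir i hiG
          have a2 : |(dir Q (g i1) k0 : ℝ)| ≤ Q := by exact_mod_cast hdir i1 h1
          have := abs_sub (dir Q (g i) k0 : ℝ) (dir Q (g i1) k0)
          linarith
        set σ := (g i).2 k0 - (g i1).2 k0 with hσ
        have d2 : d ≤ Q * |σ| + 1 := by
          have a1 := Int.floor_le ((Q : ℝ) * (g i).2 k0)
          have a2 := Int.lt_floor_add_one ((Q : ℝ) * (g i).2 k0)
          have a3 := Int.floor_le ((Q : ℝ) * (g i1).2 k0)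
          have a4 := Int.lt_floor_add_one ((Q : ℝ) * (g i1).2 k0)
          have a5 : Q * |σ| = |Q * (g i).2 k0 - Q * (g i1).2 k0| := by
            rw [← mul_sub, abs_mul, Nat.abs_cast]
          have a6 := le_abs_self (Q * (g i).2 k0 - Q * (g i1).2 k0)
          have a7 := neg_abs_le (Q * (g i).2 k0 - Q * (g i1).2 k0)
          rw [a5, hdd, abs_le]
          unfold dir
          constructor <;> linarith
        have hσ0 : 0 < |σ| := by
          by_contra hh
          have : |σ| = 0 := le_antisymm (not_lt.1 hh) (abs_nonneg _)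
          rw [this] at d2; linarith
        have h2 := heights_le (H i) (c := (g i).1 k0 - (g i1).1 k0) (σ := σ) (R := 1)
          (abs_pos.1 hσ0) zero_le_one (by
            intro t ht
            have := pos_close (Finset.mem_filter.1 ht).2 k0
            refine le_trans (le_of_eq ?_) this
            congr 1
            unfold pos; ring)
        have h3 : 1 / |σ| * (d + 1) ≤ 3 * Q := by
          rw [one_div, inv_mul_le_iff₀ hσ0]
          nlinarith
        have h4 : ((H i).card : ℝ) * (d + 1) ≤ (2 * (1 / |σ|) + 3) * (d + 1) :=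
          mul_le_mul_of_nonneg_right h2 (by positivity)
        nlinarith
    have c3 := sum_fib_le A (fun i => dir Q (g i) k0) (dir Q (g i1) k0) (2 * Q)
      (n := (43 * K ^ 3) ^ m * u) (by positivity) (by
        intro B hB c hc
        rcases B.eq_empty_or_nonempty with rfl | ⟨j, hj⟩
        · simp only [Finset.card_empty, Nat.cast_zero]; positivity
        obtain ⟨hjG, ρ', hρ'⟩ := Finset.mem_filter.1 (hB hj)
        have k3 : 1 ≤ K ^ 3 := one_le_pow₀ hK
        have h2 := hd.ball hu (hB.trans (Finset.filter_subset _ _)) (fun k => Q * (g j).2 k)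
          (R := 20 * K ^ 3) (by positivity) (by
            intro i hi k
            obtain ⟨hiG, ρ, hρ⟩ := Finset.mem_filter.1 (hB hi)
            have a1 : |Q * (g i).2 k0 - Q * (g j).2 k0| ≤ 1 :=
              abs_of_floor ((hc i hi).trans (hc j hj).symm)
            have key : ∀ k, |Q * (g i).2 k - Q * (g j).2 k -
                Q * (ρ - ρ') * ((g i1).2 k - (g i0).2 k)| ≤ 6 * K ^ 2 := by
              intro k
              have e : Q * (g i).2 k - Q * (g j).2 k - Q * (ρ - ρ') * ((g i1).2 k - (g i0).2 k) =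
                  Q * ((g i).2 k - (g i0).2 k - ρ * ((g i1).2 k - (g i0).2 k)) -
                  Q * ((g j).2 k - (g i0).2 k - ρ' * ((g i1).2 k - (g i0).2 k)) := by ring
              rw [e]
              refine (abs_sub _ _).trans ?_
              rw [abs_mul, abs_mul, Nat.abs_cast]
              linarith [hρ k, hρ' k]
            have a2 : |Q * (ρ - ρ')| * |(g i0).2 k0 - (g i1).2 k0| ≤ 1 + 6 * K ^ 2 := by
              rw [abs_sub_comm ((g i0).2 k0), ← abs_mul]
              have := abs_sub (Q * (g i).2 k0 - Q * (g j).2 k0) (Q * (g i).2 k0 - Q * (g j).2 k0 -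
                Q * (ρ - ρ') * ((g i1).2 k0 - (g i0).2 k0))
              rw [sub_sub_cancel] at this
              linarith [key k0]
            have a3 : |Q * (ρ - ρ')| ≤ 7 * K ^ 3 := by
              have b0 := abs_nonneg (Q * (ρ - ρ'))
              have b1 : |Q * (ρ - ρ')| * 1 ≤
                  |Q * (ρ - ρ')| * (K * |(g i0).2 k0 - (g i1).2 k0|) :=
                mul_le_mul_of_nonneg_left hk0 b0
              have b2 : K * (|Q * (ρ - ρ')| * |(g i0).2 k0 - (g i1).2 k0|) ≤ K * (1 + 6 * K ^ 2) :=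
                mul_le_mul_of_nonneg_left a2 (by linarith)
              have b3 : K ≤ K ^ 3 := le_self_pow₀ hK (by norm_num)
              nlinarith
            have a4 : |(g i1).2 k - (g i0).2 k| ≤ 2 := by
              have := abs_sub ((g i1).2 k) ((g i0).2 k)
              linarith [hy i1 h1 k, hy i0 h0 k]
            have a5 := abs_mul_le' a3 a4
            have a6 := abs_add_le (Q * (g i).2 k - Q * (g j).2 k -
                Q * (ρ - ρ') * ((g i1).2 k - (g i0).2 k))
                (Q * (ρ - ρ') * ((g i1).2 k - (g i0).2 k))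
            rw [sub_add_cancel] at a6
            have b3 : K ^ 2 ≤ K ^ 3 := pow_le_pow_right₀ hK (by norm_num)
            linarith [key k])
        refine h2.trans (mul_le_mul_of_nonneg_right ?_ hu)
        exact pow_le_pow_left₀ (by positivity) (by linarith) m) (by
        intro i hi
        have a1 := hdir i (Finset.mem_filter.1 hi).1
        have a2 := hdir i1 h1
        have := abs_sub (dir Q (g i) k0) (dir Q (g i1) k0)
        push_cast
        linarith)
    refine c1.trans ((Finset.sum_le_sum c2).trans ?_)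
    rw [← Finset.mul_sum]
    refine (mul_le_mul_of_nonneg_left c3 (by positivity)).trans (le_of_eq ?_)
    unfold cM
    push_cast
    ring
  · intro t ht i hi hc t1 t2 n1 n2 hf
    exact Finset.mem_image.2 ⟨⟨i, t⟩, Finset.mem_sigma.2
      ⟨Finset.mem_filter.2 ⟨hi, in_plane hQ hK n1 n2 hf hc⟩,
        Finset.mem_filter.2 ⟨Finset.mem_range.2 ht, hc⟩⟩, rfl⟩

end Pool.Agent.MP_5168f5_an.H29
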