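import Pool.Agent.MP_5168f5_an.H19.Core

/-! Discrete Kakeya estimates for families of lines with direction multiplicity and a
non-concentration bound. -/

namespace Pool.Agent.MP_5168f5_an.H29

open Finset H19

variable {m : ℕ} {ι : Type}

/-- The class of a line at dyadic level `j`. -/
noncomputable def cls (Q j : ℕ) (g : Line m) : (Fin m → ℤ) × (Fin m → ℤ) :=
  (fun k => ⌊(2 : ℝ) ^ j * g.2 k⌋, fun k => ⌊(2 : ℝ) ^ j * g.1 k / Q⌋)

/-- At most `u` objects in each direction cell. -/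
def DirM (Q : ℕ) (G : Finset ι) (g : ι → Line m) (u : ℝ) : Prop :=
  ∀ A ⊆ G, ∀ c, (∀ i ∈ A, dir Q (g i) = c) → (A.card : ℝ) ≤ u

/-- Non-concentration in the classes of every dyadic level. -/
def Fro (φ β : ℝ) (Q : ℕ) (G : Finset ι) (g : ι → Line m) (F : ℝ) : Prop :=
  ∀ j : ℕ, 2 ^ j ≤ Q → ∀ A ⊆ G, ∀ c, (∀ i ∈ A, cls Q j (g i) = c) →
    (A.card : ℝ) ^ (1 - φ) * ((2 : ℝ) ^ j) ^ β ≤ F

/-- Position of a line at a height. -/
def pos (g : Line m) (t : ℝ) (k : Fin m) : ℝ := g.1 k + t * g.2 k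

/-- The general estimate. -/
def UU (m : ℕ) (φ β D : ℝ) : Prop :=
  ∀ ε : ℝ, 0 < ε → ∃ C : ℝ, 0 < C ∧ ∀ (ι : Type) (G : Finset ι) (g : ι → Line m)
    (E : Finset (Pt m)) (Y : ι → Finset ℕ) (Q : ℕ) (N l u F : ℝ),
    0 < Q → (Q : ℝ) ≤ N → (G.card : ℝ) ≤ N → 0 < l → 0 ≤ u → 0 ≤ F →
    (∀ i ∈ G, ∀ k, |(g i).2 k| ≤ 1) → DirM Q G g u → Fro φ β Q G g F →
    (∀ i ∈ G, ∀ t ∈ Y i, t < Q ∧ (cell (g i) t, t) ∈ E) → (∀ i ∈ G, l ≤ (Y i).card) →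
    (G.card : ℝ) * l ^ D ≤ C * N ^ ε * F * (u * (Q : ℝ) ^ m) ^ φ * E.card

/-- Many shaded heights away from any two given heights. -/
def Ends (Q : ℕ) (K l : ℝ) (Y : Finset ℕ) : Prop :=
  ∀ s₁ s₂ : ℕ, ∃ Z ⊆ Y, l ≤ Z.card ∧
    ∀ t ∈ Z, (Q : ℝ) ≤ K * |(t : ℝ) - s₁| ∧ (Q : ℝ) ≤ K * |(t : ℝ) - s₂|

/-- A transversal crossing of two lines of the family. -/
structure Cross (Q : ℕ) (K l : ℝ) (G : Finset ι) (g : ι → Line m) (Y : ι → Finset ℕ)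
    (o : ι × ι × ℕ) : Prop where
  m1 : o.1 ∈ G
  m2 : o.2.1 ∈ G
  lt : o.2.2 < Q
  near : ∀ k, |pos (g o.1) o.2.2 k - pos (g o.2.1) o.2.2 k| ≤ K
  ang : ∃ k, 1 ≤ K * |(g o.1).2 k - (g o.2.1).2 k|
  e1 : Ends Q K l (Y o.1)
  e2 : Ends Q K l (Y o.2.1)

/-- The estimate for broad two-ended families. -/
def BR (m : ℕ) (φ D : ℝ) : Prop :=
  ∃ A : ℝ, 0 ≤ A ∧ ∀ ε : ℝ, 0 < ε → ∃ C : ℝ, 0 < C ∧ ∀ (ι : Type) (G : Finset ι) (g : ι → Line m)
    (E : Finset (Pt m)) (Y : ι → Finset ℕ) (T : Finset (ι × ι × ℕ)) (Q : ℕ) (N l u K : ℝ),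
    0 < Q → (Q : ℝ) ≤ N → (G.card : ℝ) ≤ N → 0 < l → 1 ≤ K → G.Nonempty →
    (∀ i ∈ G, ∀ k, |(g i).2 k| ≤ 1) → DirM Q G g u →
    (∀ i ∈ G, ∀ t ∈ Y i, t < Q ∧ (cell (g i) t, t) ∈ E) →
    (∀ o ∈ T, Cross Q K l G g Y o) →
    ((G.card : ℝ) * l) ^ 2 ≤ K * T.card * E.card →
    (∀ B ⊆ T, ∀ c, (∀ o ∈ B, o.2 = c) → (G.card : ℝ) * l * B.card ≤ K * T.card) →
    (G.card : ℝ) ^ φ * l ^ D ≤ C * N ^ ε * K ^ A * (u * (Q : ℝ) ^ m) ^ φ * E.card

theorem cell_eq (g : Line m) (t : ℕ) (k : Fin m) : cell g t k = ⌊pos g t k⌋ := rfl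

/-- Counting through fibres. -/
theorem card_le_of_fib {α β : Type} (A : Finset α) (f : α → β) (T : Finset β) (u : ℝ)
    (hT : ∀ i ∈ A, f i ∈ T) (hu : ∀ B ⊆ A, ∀ c ∈ T, (∀ i ∈ B, f i = c) → (B.card : ℝ) ≤ u) :
    (A.card : ℝ) ≤ T.card * u := by
  classical
  rw [Finset.card_eq_sum_card_fiberwise hT]
  push_cast
  calc _ ≤ ∑ _c ∈ T, u := Finset.sum_le_sum fun c hc =>
        hu _ (Finset.filter_subset _ _) c hc fun i hi => (Finset.mem_filter.1 hi).2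
    _ = _ := by simp

/-- A popular fibre. -/
theorem exists_fib {α β : Type} (A : Finset α) (f : α → β) (T : Finset β) (hne : T.Nonempty)
    (w : α → ℝ) (hT : ∀ i ∈ A, f i ∈ T) :
    ∃ c ∈ T, ∃ B ⊆ A, (∀ i ∈ A, i ∈ B ↔ f i = c) ∧ ∑ i ∈ A, w i ≤ T.card * ∑ i ∈ B, w i := by
  classical
  obtain ⟨c, hc, hmax⟩ := Finset.exists_max_image T
    (fun c => ∑ i ∈ A.filter (fun i => f i = c), w i) hne
  refine ⟨c, hc, A.filter (fun i => f i = c), Finset.filter_subset _ _,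
    fun i hi => by simp [hi], ?_⟩
  rw [← Finset.sum_fiberwise_of_maps_to hT]
  calc _ ≤ ∑ _b ∈ T, ∑ i ∈ A.filter (fun i => f i = c), w i :=
        Finset.sum_le_sum fun b hb => hmax b hb
    _ = _ := by simp

theorem floor_near {a b R : ℝ} (h : |a - b| ≤ R) : |⌊a⌋ - ⌊b⌋| ≤ (⌈R⌉₊ : ℤ) := by
  have h1 := abs_le.1 h
  have f1 := Int.floor_le a
  have f2 := Int.lt_floor_add_one a
  have f3 := Int.floor_le b
  have f4 := Int.lt_floor_add_one b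
  have f5 : R ≤ ⌈R⌉₊ := Nat.le_ceil R
  rw [abs_le]
  constructor
  · have : ((-(⌈R⌉₊ : ℤ) - 1 : ℤ) : ℝ) < ((⌊a⌋ - ⌊b⌋ : ℤ) : ℝ) := by push_cast; linarith
    have := Int.cast_lt.1 this
    omega
  · have : ((⌊a⌋ - ⌊b⌋ : ℤ) : ℝ) < (((⌈R⌉₊ : ℤ) + 1 : ℤ) : ℝ) := by push_cast; linarith
    have := Int.cast_lt.1 this
    omega

/-- The integer cube of radius `R` around `c`. -/
noncomputable def cube (c : Fin m → ℤ) (R : ℝ) : Finset (Fin m → ℤ) :=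
  Fintype.piFinset fun j => Finset.Icc (c j - (⌈R⌉₊ : ℕ)) (c j + (⌈R⌉₊ : ℕ))

theorem card_cube_le (c : Fin m → ℤ) {R : ℝ} (hR : 0 ≤ R) :
    ((cube c R).card : ℝ) ≤ (2 * R + 3) ^ m := by
  unfold cube
  rw [card_cube]
  push_cast
  have := Nat.ceil_lt_add_one hR
  exact pow_le_pow_left₀ (by positivity) (by linarith) m

theorem mem_cube {c w : Fin m → ℤ} {R : ℝ} (h : ∀ k, |w k - c k| ≤ (⌈R⌉₊ : ℤ)) : w ∈ cube c R := by
  unfold cube
  rw [Fintype.mem_piFinset]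
  intro k
  have := abs_le.1 (h k)
  rw [Finset.mem_Icc]
  constructor <;> linarith [this.1, this.2]

theorem self_mem_cube (c : Fin m → ℤ) (R : ℝ) : c ∈ cube c R :=
  mem_cube fun k => by simp

theorem floor_mem_cube {a b : Fin m → ℝ} {R : ℝ} (h : ∀ k, |a k - b k| ≤ R) :
    (fun k => ⌊a k⌋) ∈ cube (fun k => ⌊b k⌋) R :=
  mem_cube fun k => floor_near (h k)

theorem int_mem_cube {w c : Fin m → ℤ} {R : ℝ} (h : ∀ k, |(w k : ℝ) - c k| ≤ R) : w ∈ cube c R := by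
  have := floor_mem_cube (a := fun k => (w k : ℝ)) (b := fun k => (c k : ℝ)) h
  simpa using this

/-- The integer interval of radius `R` around `c`. -/
noncomputable def seg (c : ℤ) (R : ℝ) : Finset ℤ := Finset.Icc (c - (⌈R⌉₊ : ℕ)) (c + (⌈R⌉₊ : ℕ))

theorem card_seg_le (c : ℤ) {R : ℝ} (hR : 0 ≤ R) : ((seg c R).card : ℝ) ≤ 2 * R + 3 := by
  unfold seg
  rw [Int.card_Icc]
  have h : (c + (⌈R⌉₊ : ℕ) + 1 - (c - (⌈R⌉₊ : ℕ))).toNat = 2 * ⌈R⌉₊ + 1 := by omega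
  rw [h]
  push_cast
  have := Nat.ceil_lt_add_one hR
  linarith

theorem floor_mem_seg {a b R : ℝ} (h : |a - b| ≤ R) : ⌊a⌋ ∈ seg ⌊b⌋ R := by
  have := abs_le.1 (floor_near h)
  unfold seg
  rw [Finset.mem_Icc]
  constructor <;> linarith [this.1, this.2]

theorem int_mem_seg {a b : ℤ} {R : ℝ} (h : |(a : ℝ) - b| ≤ R) : a ∈ seg b R := by
  simpa using floor_mem_seg h

theorem DirM.mono {Q : ℕ} {G G' : Finset ι} {g : ι → Line m} {u : ℝ} (h : DirM Q G g u)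
    (hs : G' ⊆ G) : DirM Q G' g u := fun A hA => h A (hA.trans hs)

theorem Fro.mono {φ β : ℝ} {Q : ℕ} {G G' : Finset ι} {g : ι → Line m} {F : ℝ}
    (h : Fro φ β Q G g F) (hs : G' ⊆ G) : Fro φ β Q G' g F :=
  fun j hj A hA => h j hj A (hA.trans hs)

theorem DirM.one_le {Q : ℕ} {G : Finset ι} {g : ι → Line m} {u : ℝ} (h : DirM Q G g u)
    (hne : G.Nonempty) : 1 ≤ u := by
  obtain ⟨i, hi⟩ := hne
  have := h {i} (by simpa using hi) (dir Q (g i)) (by simp)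
  simpa using this

/-- Objects whose directions lie in a ball. -/
theorem DirM.ball {Q : ℕ} {G : Finset ι} {g : ι → Line m} {u : ℝ} (h : DirM Q G g u) (hu : 0 ≤ u)
    {A : Finset ι} (hA : A ⊆ G) (y : Fin m → ℝ) {R : ℝ} (hR : 0 ≤ R)
    (hy : ∀ i ∈ A, ∀ k, |Q * (g i).2 k - y k| ≤ R) : (A.card : ℝ) ≤ (2 * R + 3) ^ m * u := by
  have h1 := card_le_of_fib A (fun i => dir Q (g i)) (cube (fun k => ⌊y k⌋) R) u
    (fun i hi => floor_mem_cube (hy i hi)) (fun B hB c _ hc => h B (hB.trans hA) c hc)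
  exact h1.trans (mul_le_mul_of_nonneg_right (card_cube_le _ hR) hu)

theorem DirM.total {Q : ℕ} {G : Finset ι} {g : ι → Line m} {u : ℝ} (h : DirM Q G g u) (hu : 0 ≤ u)
    (hQ : 0 < Q) (hy : ∀ i ∈ G, ∀ k, |(g i).2 k| ≤ 1) :
    (G.card : ℝ) ≤ 5 ^ m * (u * (Q : ℝ) ^ m) := by
  have hQ1 : (1 : ℝ) ≤ Q := by exact_mod_cast hQ
  have h1 := h.ball hu subset_rfl 0 (R := Q) (by positivity) (by
    intro i hi k
    rw [Pi.zero_apply, sub_zero, abs_mul, Nat.abs_cast]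
    have := hy i hi k
    nlinarith)
  refine h1.trans ?_
  rw [← mul_assoc, mul_right_comm, ← mul_pow]
  exact mul_le_mul_of_nonneg_right (pow_le_pow_left₀ (by positivity) (by linarith) m) hu

/-- Objects in a ball of the space of lines. -/
theorem Fro.ball {φ β : ℝ} (h0 : 0 ≤ φ) (h1 : φ ≤ 1) {Q : ℕ} {G : Finset ι} {g : ι → Line m}
    {F : ℝ} (h : Fro φ β Q G g F) {j : ℕ} (hj : 2 ^ j ≤ Q) {A : Finset ι} (hA : A ⊆ G)
    (y x : Fin m → ℝ) {R : ℝ} (hR : 0 ≤ R)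
    (hy : ∀ i ∈ A, ∀ k, |2 ^ j * (g i).2 k - y k| ≤ R)
    (hx : ∀ i ∈ A, ∀ k, |2 ^ j * (g i).1 k / Q - x k| ≤ R) :
    (A.card : ℝ) ^ (1 - φ) * ((2 : ℝ) ^ j) ^ β ≤ (2 * R + 3) ^ (2 * m) * F := by
  obtain ⟨c, -, B, hB, hBc, hsum⟩ := exists_fib A (fun i => cls Q j (g i))
    (cube (fun k => ⌊y k⌋) R ×ˢ cube (fun k => ⌊x k⌋) R)
    ⟨(_, _), Finset.mem_product.2 ⟨self_mem_cube _ _, self_mem_cube _ _⟩⟩ (fun _ => 1)
    (fun i hi => Finset.mem_product.2 ⟨floor_mem_cube (hy i hi), floor_mem_cube (hx i hi)⟩)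
  have h2 := h j hj B (hB.trans hA) c fun i hi => (hBc i (hB hi)).1 hi
  simp only [Finset.sum_const, nsmul_eq_mul, mul_one, Finset.card_product, Nat.cast_mul] at hsum
  have h3 : (A.card : ℝ) ≤ (2 * R + 3) ^ (2 * m) * B.card := by
    refine hsum.trans (mul_le_mul_of_nonneg_right ?_ (Nat.cast_nonneg _))
    rw [two_mul m, pow_add]
    exact mul_le_mul (card_cube_le _ hR) (card_cube_le _ hR) (Nat.cast_nonneg _) (by positivity)
  have h4 : (1 : ℝ) ≤ (2 * R + 3) ^ (2 * m) := one_le_pow₀ (by linarith)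
  have h5 : (A.card : ℝ) ^ (1 - φ) ≤ (2 * R + 3) ^ (2 * m) * (B.card : ℝ) ^ (1 - φ) := by
    refine (Real.rpow_le_rpow (Nat.cast_nonneg _) h3 (by linarith)).trans ?_
    rw [Real.mul_rpow (by positivity) (Nat.cast_nonneg _)]
    refine mul_le_mul_of_nonneg_right ?_ (by positivity)
    calc _ ≤ ((2 * R + 3) ^ (2 * m)) ^ (1 : ℝ) := Real.rpow_le_rpow_of_exponent_le h4 (by linarith)
      _ = _ := Real.rpow_one _
  calc _ ≤ (2 * R + 3) ^ (2 * m) * (B.card : ℝ) ^ (1 - φ) * ((2 : ℝ) ^ j) ^ β :=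
        mul_le_mul_of_nonneg_right h5 (by positivity)
    _ = (2 * R + 3) ^ (2 * m) * ((B.card : ℝ) ^ (1 - φ) * ((2 : ℝ) ^ j) ^ β) := by ring
    _ ≤ _ := mul_le_mul_of_nonneg_left h2 (by positivity)

theorem pos_sub_cell (g : Line m) (t : ℕ) (k : Fin m) : |pos g t k - cell g t k| ≤ 1 :=
  abs_frac _

theorem pos_close {g g' : Line m} {t : ℕ} (h : cell g t = cell g' t) (k : Fin m) :
    |pos g t k - pos g' t k| ≤ 1 :=
  abs_of_floor (congrFun h k)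

/-- Lines through one cell: the trivial bound. -/
theorem through_le {φ β : ℝ} (h0 : 0 ≤ φ) (h1 : φ ≤ 1) {Q : ℕ} (hQ : 0 < Q) {G : Finset ι}
    {g : ι → Line m} {u F : ℝ} (hu : 0 ≤ u) (hy : ∀ i ∈ G, ∀ k, |(g i).2 k| ≤ 1)
    (hd : DirM Q G g u) (hF : Fro φ β Q G g F) {A : Finset ι} (hA : A ⊆ G) {t : ℕ} (ht : t < Q)
    {w : Fin m → ℤ} (hw : ∀ i ∈ A, cell (g i) t = w) :
    (A.card : ℝ) ≤ 7 ^ (3 * m) * F * (u * (Q : ℝ) ^ m) ^ φ := by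
  have hQ1 : (1 : ℝ) ≤ Q := by exact_mod_cast hQ
  have ht' : (t : ℝ) ≤ Q := by exact_mod_cast ht.le
  have h2 := hF.ball h0 h1 (j := 0) (by rw [pow_zero]; exact hQ) hA 0 (fun k => w k / Q) (R := 2)
    (by norm_num) (by
      intro i hi k
      have := hy i (hA hi) k
      simp only [pow_zero, one_mul, Pi.zero_apply, sub_zero]
      linarith) (by
      intro i hi k
      have h3 := pos_sub_cell (g i) t k
      rw [hw i hi] at h3
      have h4 := abs_mul_le' (show |(t : ℝ)| ≤ Q by rwa [Nat.abs_cast]) (hy i (hA hi) k)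
      have e : (2 : ℝ) ^ 0 * (g i).1 k / Q - w k / Q =
          ((pos (g i) t k - w k) - t * (g i).2 k) / Q := by
        unfold pos; ring
      rw [e, abs_div, Nat.abs_cast, div_le_iff₀ (by linarith)]
      have := abs_sub (pos (g i) t k - w k) (t * (g i).2 k)
      linarith)
  simp only [pow_zero, Real.one_rpow, mul_one] at h2
  have h3 := (hd.mono hA).total hu hQ fun i hi => hy i (hA hi)
  have h4 : (A.card : ℝ) ^ φ ≤ 7 ^ m * (u * (Q : ℝ) ^ m) ^ φ := by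
    refine (Real.rpow_le_rpow (Nat.cast_nonneg _) h3 h0).trans ?_
    rw [Real.mul_rpow (by positivity) (by positivity)]
    refine mul_le_mul_of_nonneg_right ?_ (by positivity)
    calc ((5 : ℝ) ^ m) ^ φ ≤ ((5 : ℝ) ^ m) ^ (1 : ℝ) :=
          Real.rpow_le_rpow_of_exponent_le (one_le_pow₀ (by norm_num)) h1
      _ = 5 ^ m := Real.rpow_one _
      _ ≤ 7 ^ m := pow_le_pow_left₀ (by norm_num) (by norm_num) m
  have h5 : (A.card : ℝ) = (A.card : ℝ) ^ (1 - φ) * (A.card : ℝ) ^ φ := by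
    rw [← Real.rpow_add' (Nat.cast_nonneg _) (by norm_num)]; simp
  have h7 : (0 : ℝ) ≤ (A.card : ℝ) := Nat.cast_nonneg _
  have h6 : (0 : ℝ) ≤ (2 * 2 + 3) ^ (2 * m) * F := le_trans (Real.rpow_nonneg h7 _) h2
  rw [h5]
  calc _ ≤ (2 * 2 + 3) ^ (2 * m) * F * (7 ^ m * (u * (Q : ℝ) ^ m) ^ φ) :=
        mul_le_mul h2 h4 (Real.rpow_nonneg h7 _) h6
    _ = _ := by
        rw [show 3 * m = 2 * m + m by ring, pow_add]; norm_num; ring

/-- Double counting of incidences. -/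
theorem inc_le {G : Finset ι} {g : ι → Line m} {E : Finset (Pt m)} {Y : ι → Finset ℕ} {M : ℝ}
    (hE : ∀ i ∈ G, ∀ t ∈ Y i, (cell (g i) t, t) ∈ E)
    (hM : ∀ z ∈ E, ∀ A ⊆ G, (∀ i ∈ A, z.2 ∈ Y i ∧ cell (g i) z.2 = z.1) → (A.card : ℝ) ≤ M) :
    ∑ i ∈ G, ((Y i).card : ℝ) ≤ E.card * M := by
  classical
  have h1 := card_le_of_fib (G.sigma Y) (fun x => (cell (g x.1) x.2, x.2)) E M
    (fun x hx => hE _ (Finset.mem_sigma.1 hx).1 _ (Finset.mem_sigma.1 hx).2) (by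
      intro B hB z hz hc
      have h2 := hM z hz (B.image fun x => x.1) (by
        intro i hi
        obtain ⟨x, hx, rfl⟩ := Finset.mem_image.1 hi
        exact (Finset.mem_sigma.1 (hB hx)).1) (by
        intro i hi
        obtain ⟨x, hx, rfl⟩ := Finset.mem_image.1 hi
        have h3 := hc x hx
        rw [← h3]
        exact ⟨(Finset.mem_sigma.1 (hB hx)).2, rfl⟩)
      rwa [Finset.card_image_of_injOn] at h2
      intro x hx y hy e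
      have h3 : x.2 = y.2 := by
        have := (hc x hx).trans (hc y hy).symm
        exact (Prod.ext_iff.1 this).2
      exact Sigma.ext e (heq_of_eq h3))
  rwa [Finset.card_sigma, Nat.cast_sum] at h1

/-- The trivial estimate. -/
theorem triv {φ β : ℝ} (h0 : 0 ≤ φ) (h1 : φ ≤ 1) {Q : ℕ} (hQ : 0 < Q) {G : Finset ι}
    {g : ι → Line m} {u F l : ℝ} (hu : 0 ≤ u) (hy : ∀ i ∈ G, ∀ k, |(g i).2 k| ≤ 1)
    (hd : DirM Q G g u) (hF : Fro φ β Q G g F) (hF0 : 0 ≤ F) {E : Finset (Pt m)}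
    {Y : ι → Finset ℕ} (hE : ∀ i ∈ G, ∀ t ∈ Y i, t < Q ∧ (cell (g i) t, t) ∈ E)
    (hl : ∀ i ∈ G, l ≤ (Y i).card) :
    (G.card : ℝ) * l ≤ 7 ^ (3 * m) * F * (u * (Q : ℝ) ^ m) ^ φ * E.card := by
  have h2 := inc_le (M := 7 ^ (3 * m) * F * (u * (Q : ℝ) ^ m) ^ φ)
    (fun i hi t ht => (hE i hi t ht).2) (by
      intro z _ A hA hz
      rcases A.eq_empty_or_nonempty with rfl | ⟨i, hi⟩
      · simp only [Finset.card_empty, Nat.cast_zero]; positivity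
      · exact through_le h0 h1 hQ hu hy hd hF hA (hE i (hA hi) _ (hz i hi).1).1
          fun i hi => (hz i hi).2)
  have h3 : (G.card : ℝ) * l ≤ ∑ i ∈ G, ((Y i).card : ℝ) := by
    calc _ = ∑ _i ∈ G, l := by simp
      _ ≤ _ := Finset.sum_le_sum hl
  linarith

theorem uu_base (m : ℕ) : UU m 0 0 1 := by
  intro ε hε
  refine ⟨7 ^ (3 * m), by positivity, ?_⟩
  intro ι G g E Y Q N l u F hQ hN _ _ hu hF0 hy hd hF hE hl
  have h := triv le_rfl zero_le_one hQ hu hy hd hF hF0 hE hl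
  have hQ1 : (1 : ℝ) ≤ Q := by exact_mod_cast hQ
  have h1 : (1 : ℝ) ≤ N ^ ε := Real.one_le_rpow (by linarith) hε.le
  rw [Real.rpow_one]
  refine h.trans ?_
  have h2 : 0 ≤ 7 ^ (3 * m) * F * (u * (Q : ℝ) ^ m) ^ (0 : ℝ) * E.card := by positivity
  nlinarith

end Pool.Agent.MP_5168f5_an.H29
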