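import Pool.Agent.MP_5168f5_an.H29.Broad

/-! The two-ends reduction. -/

namespace Pool.Agent.MP_5168f5_an.H29

open Finset H19

variable {m : ℕ} {ι : Type}

/-- The body of the estimate for two-ended families. -/
def U1c (m : ℕ) (φ β D A ε C : ℝ) : Prop :=
  ∀ (ι : Type) (G : Finset ι) (g : ι → Line m)
    (E : Finset (Pt m)) (Y : ι → Finset ℕ) (Q : ℕ) (N l u F K : ℝ),
    0 < Q → (Q : ℝ) ≤ N → (G.card : ℝ) ≤ N → 0 < l → 0 ≤ u → 0 ≤ F → 1 ≤ K →
    (∀ i ∈ G, ∀ k, |(g i).2 k| ≤ 1) → DirM Q G g u → Fro φ β Q G g F →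
    (∀ i ∈ G, ∀ t ∈ Y i, t < Q ∧ (cell (g i) t, t) ∈ E) → (∀ i ∈ G, l ≤ (Y i).card) →
    (∀ i ∈ G, ((Y i).card : ℝ) ≤ 2 * l) →
    (∀ i ∈ G, ∀ s : ℕ, ∀ B ⊆ Y i, (∀ t ∈ B, K * |(t : ℝ) - s| < Q) → C * N ^ ε * B.card ≤ l) →
    (G.card : ℝ) * l ^ D ≤ C * N ^ (ε * A) * K ^ A * F * (u * (Q : ℝ) ^ m) ^ φ * E.card

theorem u1_of_br {φ β D : ℝ} (h0 : 0 ≤ φ) (h1 : φ ≤ 1) (hβ : 0 ≤ β) (hβ1 : β ≤ 1)
    (hD : D = β + 1 + φ * m) (hB : BR m φ D) :
    ∃ A : ℝ, 0 ≤ A ∧ ∀ ε : ℝ, 0 < ε → ∃ C : ℝ, 1 ≤ C ∧ U1c m φ β D A ε C := by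
  obtain ⟨A, hA, hB⟩ := hB
  have hD0 : 0 ≤ D := by rw [hD]; positivity
  refine ⟨A + m + D + 3, by positivity, fun ε hε => ?_⟩
  obtain ⟨C, hC, hB⟩ := hB (ε / 4) (by positivity)
  obtain ⟨C2, hC2⟩ := loglog_small (ε := ε / 4) (by positivity)
  obtain ⟨j0, hj0⟩ : ∃ j0 : ℕ, 8 * 49 ^ m ≤ ((2 : ℝ) ^ j0) ^ (ε / 4) := by
    obtain ⟨j0, h⟩ := pow_unbounded_of_one_lt (((8 : ℝ) * 49 ^ m) ^ (ε / 4)⁻¹) one_lt_two
    refine ⟨j0, ?_⟩
    have := Real.rpow_le_rpow (by positivity) h.le (show 0 ≤ ε / 4 by positivity)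
    rwa [Real.rpow_inv_rpow (by positivity) (by positivity)] at this
  set c3 : ℝ := 2 * 49 ^ m * Real.exp C2 ^ 3 * 2 ^ ε with hc3
  have hc30 : 0 < c3 := by positivity
  set c4 : ℝ := 2 * c3 * (C * 2 ^ (ε / 4) * (12 * 7 ^ m * 2 ^ j0) ^ A * 70 ^ m *
    (64 * 7 ^ m * c3) ^ D + (10 * 2 ^ j0) ^ (m + 1) * c3) with hc4
  have hc40 : 0 < c4 := by positivity
  refine ⟨1 + 64 * c3 + c4, by linarith, ?_⟩
  intro ι G g E Y Q N l u F K hQ hQN hGN hl hu hF0 hK hy hd hF hE hl1 hl2 h2e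
  have hQ1 : (1 : ℝ) ≤ Q := by exact_mod_cast hQ
  have hN1 : 1 ≤ N := hQ1.trans hQN
  have hlog : 0 ≤ Real.log (2 * N) := Real.log_nonneg (by linarith)
  set η : ℝ := 1 / (2 * 49 ^ m * (2 * N) ^ (ε / 4) * (2 * Real.log (2 * N) + 1) ^ 3) with hη
  have hη0 : 0 < η := by positivity
  set M : ℝ := N ^ ε with hM
  have hM1 : 1 ≤ M := Real.one_le_rpow hN1 hε.le
  have a1 : 1 / η ≤ c3 * M := by
    have b1 : 2 * Real.log (2 * N) + 1 ≤ Real.exp C2 * (2 * N) ^ (ε / 4) := by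
      have := Real.exp_le_exp.2 (hC2 (2 * N) (by linarith))
      rw [Real.exp_log (by positivity), Real.exp_add, mul_comm (ε / 4), ← Real.rpow_def_of_pos
        (by positivity)] at this
      linarith
    have b2 : (2 * N) ^ (ε / 4) * ((2 * N) ^ (ε / 4)) ^ 3 = 2 ^ ε * M := by
      rw [← pow_succ', ← Real.rpow_natCast, ← Real.rpow_mul (by positivity), hM,
        ← Real.mul_rpow (by norm_num) (by positivity)]
      congr 1; push_cast; ring
    rw [hη, one_div_one_div]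
    calc _ ≤ 2 * 49 ^ m * (2 * N) ^ (ε / 4) * (Real.exp C2 * (2 * N) ^ (ε / 4)) ^ 3 := by gcongr
      _ = 2 * 49 ^ m * Real.exp C2 ^ 3 * ((2 * N) ^ (ε / 4) * ((2 * N) ^ (ε / 4)) ^ 3) := by ring
      _ = _ := by rw [b2, hc3]; ring
  have key := two_ends_bd h0 h1 hβ hβ1 hD hC (by positivity) hB hj0 (N := 2 * N) hQ (by linarith)
    (by linarith) hl hu hF0 hK hη hy hd hF hE hl1 hl2 (by
      intro i hi s B hB hs
      have b1 := h2e i hi s B hB hs
      have b2 : 64 * (1 / η) * B.card ≤ (1 + 64 * c3 + c4) * M * B.card :=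
        mul_le_mul_of_nonneg_right (by nlinarith) (Nat.cast_nonneg _)
      have b3 : (B.card : ℝ) = η * (64 * (1 / η) * B.card) / 64 := by field_simp
      rw [b3]
      gcongr
      exact b2.trans b1)
  refine key.trans ?_
  have e1 : N ^ (ε * (A + m + D + 3)) = M ^ (A + m + D + 3) := by
    rw [hM, Real.rpow_mul (by linarith)]
  rw [e1]
  refine mul_le_mul_of_nonneg_right (mul_le_mul_of_nonneg_right (mul_le_mul_of_nonneg_right ?_
    hF0) (by positivity)) (Nat.cast_nonneg _)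
  set MA := M ^ (A + m + D + 3) with hMA
  set KA := K ^ (A + m + D + 3) with hKA
  have hm : (0 : ℝ) ≤ m := Nat.cast_nonneg m
  have k1 : K ^ A ≤ KA := Real.rpow_le_rpow_of_exponent_le hK (by linarith)
  have k2 : K ^ (m + 1) ≤ KA := by
    rw [← Real.rpow_natCast]
    exact Real.rpow_le_rpow_of_exponent_le hK (by push_cast; linarith)
  have m1 : M * M * M ^ D ≤ MA := by
    rw [← sq, ← Real.rpow_natCast, ← Real.rpow_add (by linarith)]
    exact Real.rpow_le_rpow_of_exponent_le hM1 (by push_cast; linarith)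
  have m2 : M * M ≤ MA := by
    rw [← sq, ← Real.rpow_natCast]
    exact Real.rpow_le_rpow_of_exponent_le hM1 (by push_cast; linarith)
  have m3 : (2 * N) ^ (ε / 4) ≤ 2 ^ (ε / 4) * M := by
    rw [Real.mul_rpow (by norm_num) (by positivity)]
    exact mul_le_mul_of_nonneg_left (Real.rpow_le_rpow_of_exponent_le hN1 (by linarith))
      (by positivity)
  have m4 : (64 * 7 ^ m / η) ^ D ≤ (64 * 7 ^ m * c3) ^ D * M ^ D := by
    rw [← Real.mul_rpow (by positivity) (by positivity)]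
    refine Real.rpow_le_rpow (by positivity) ?_ hD0
    rw [div_eq_mul_one_div, mul_assoc (64 * 7 ^ m)]
    exact mul_le_mul_of_nonneg_left a1 (by positivity)
  have m5 : (12 * 7 ^ m * K * 2 ^ j0) ^ A = (12 * 7 ^ m * 2 ^ j0) ^ A * K ^ A := by
    rw [← Real.mul_rpow (by positivity) (by positivity)]; congr 1; ring
  have m6 : (10 * K * 2 ^ j0) ^ (m + 1) = (10 * 2 ^ j0) ^ (m + 1) * K ^ (m + 1) := by
    rw [← mul_pow]; congr 1; ring
  rw [m5, m6, div_eq_mul_one_div 2 η, div_eq_mul_one_div (_ * K ^ (m + 1)) η]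
  calc _ ≤ 2 * (c3 * M) * (C * (2 ^ (ε / 4) * M) * ((12 * 7 ^ m * 2 ^ j0) ^ A * KA) * 70 ^ m *
        ((64 * 7 ^ m * c3) ^ D * M ^ D) + (10 * 2 ^ j0) ^ (m + 1) * KA * (c3 * M)) := by
        gcongr
    _ = 2 * c3 * (C * 2 ^ (ε / 4) * (12 * 7 ^ m * 2 ^ j0) ^ A * 70 ^ m * (64 * 7 ^ m * c3) ^ D *
        (M * M * M ^ D) + (10 * 2 ^ j0) ^ (m + 1) * c3 * (M * M)) * KA := by ring
    _ ≤ 2 * c3 * (C * 2 ^ (ε / 4) * (12 * 7 ^ m * 2 ^ j0) ^ A * 70 ^ m * (64 * 7 ^ m * c3) ^ D *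
        MA + (10 * 2 ^ j0) ^ (m + 1) * c3 * MA) * KA := by gcongr
    _ = c4 * MA * KA := by rw [hc4]; ring
    _ ≤ _ := by gcongr; linarith

theorem div_cast (t j : ℕ) : ((t / 2 ^ j : ℕ) : ℤ) = ⌊(t : ℝ) / 2 ^ j⌋ := by
  have h2 : ⌊(t : ℝ) / 2 ^ j⌋₊ = t / 2 ^ j := by
    rw [← Nat.floor_div_eq_div (K := ℝ)]; push_cast; rfl
  rw [← h2, Int.natCast_floor_eq_floor (by positivity)]

theorem exists_block {Q : ℕ} (hQ : 0 < Q) (Y : Finset ℕ) (ε : ℝ) :
    ∃ k a : ℕ, 2 ^ k ≤ Q ∧ ((∀ t ∈ Y, t < Q) → ∀ k' a' : ℕ, 2 ^ k' ≤ Q →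
      ((Y.filter fun t => t / 2 ^ k' = a').card : ℝ) / ((2 : ℝ) ^ k') ^ ε ≤
        (Y.filter fun t => t / 2 ^ k = a).card / ((2 : ℝ) ^ k) ^ ε) := by
  obtain ⟨x, hx, hmax⟩ := Finset.exists_max_image
    (((Finset.range Q).filter fun j => 2 ^ j ≤ Q) ×ˢ Finset.range Q)
    (fun x => ((Y.filter fun t => t / 2 ^ x.1 = x.2).card : ℝ) / ((2 : ℝ) ^ x.1) ^ ε)
    ⟨(0, 0), Finset.mem_product.2 ⟨Finset.mem_filter.2 ⟨Finset.mem_range.2 hQ, by
      rw [pow_zero]; exact hQ⟩, Finset.mem_range.2 hQ⟩⟩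
  refine ⟨x.1, x.2, (Finset.mem_filter.1 (Finset.mem_product.1 hx).1).2, fun hY k' a' hk' => ?_⟩
  rcases (Y.filter fun t => t / 2 ^ k' = a').eq_empty_or_nonempty with h | ⟨t, ht⟩
  · rw [h, Finset.card_empty, Nat.cast_zero, zero_div]; positivity
  · obtain ⟨h1, h2⟩ := Finset.mem_filter.1 ht
    exact hmax (k', a') (Finset.mem_product.2 ⟨Finset.mem_filter.2
      ⟨Finset.mem_range.2 (lt_of_lt_of_le Nat.lt_two_pow_self hk'), hk'⟩,
      Finset.mem_range.2 (h2 ▸ lt_of_le_of_lt (Nat.div_le_self _ _) (hY t h1))⟩)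

/-- The line restarted at a later height. -/
def shift (g : Line m) (s : ℕ) : Line m := (fun k => g.1 k + s * g.2 k, g.2)

theorem cell_shift (g : Line m) (s r : ℕ) : cell (shift g s) r = cell g (s + r) := by
  funext k
  unfold cell shift
  congr 1
  push_cast; ring

theorem block_bd {φ β D A ε C : ℝ} (h0 : 0 ≤ φ) (h1 : φ ≤ 1) (hC : 1 ≤ C)
    (hU : U1c m φ β D A ε C) {G : Finset ι} {g : ι → Line m} {E : Finset (Pt m)}
    {Y : ι → Finset ℕ} {Q k k0 a : ℕ} {N l u F ε0 : ℝ} (hQN : (Q : ℝ) ≤ N)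
    (hGN : (G.card : ℝ) ≤ N) (hl : 0 < l) (hu : 0 ≤ u) (hF0 : 0 ≤ F) (hk : 2 ^ k ≤ Q)
    (hk0 : k0 ≤ k) (hK : 10 * C * N ^ ε ≤ ((2 : ℝ) ^ k0) ^ ε0)
    (hy : ∀ i ∈ G, ∀ k, |(g i).2 k| ≤ 1) (hd : DirM Q G g u) (hF : Fro φ β Q G g F)
    (hE : ∀ i ∈ G, ∀ t ∈ Y i, t < Q ∧ (cell (g i) t, t) ∈ E)
    (hl1 : ∀ i ∈ G, l ≤ ((Y i).filter fun t => t / 2 ^ k = a).card)
    (hl2 : ∀ i ∈ G, (((Y i).filter fun t => t / 2 ^ k = a).card : ℝ) ≤ 2 * l)
    (hmax : ∀ i ∈ G, ∀ k' a' : ℕ, 2 ^ k' ≤ Q →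
      (((Y i).filter fun t => t / 2 ^ k' = a').card : ℝ) / ((2 : ℝ) ^ k') ^ ε0 ≤
        ((Y i).filter fun t => t / 2 ^ k = a).card / ((2 : ℝ) ^ k) ^ ε0) :
    (G.card : ℝ) * l ^ D ≤ 245 ^ m * C * N ^ (ε * A) * ((2 : ℝ) ^ k0) ^ A * F *
      (u * (Q : ℝ) ^ m) ^ φ * (E.filter fun z => z.2 / 2 ^ k = a).card := by
  classical
  have r0 : (0 : ℝ) < 2 ^ k := by positivity
  have hk' : (2 : ℝ) ^ k ≤ Q := by exact_mod_cast hk
  have hQ0 : (0 : ℝ) < Q := by linarith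
  have hN0 : 0 < N := by linarith
  rcases G.eq_empty_or_nonempty with rfl | ⟨i1, hi1⟩
  · simp only [Finset.card_empty, Nat.cast_zero, zero_mul]; positivity
  have hdm : ∀ t, t / 2 ^ k = a → a * 2 ^ k + t % 2 ^ k = t := fun t ht => by
    rw [← ht, mul_comm]; exact Nat.div_add_mod t _
  have haQ : ((a * 2 ^ k : ℕ) : ℝ) ≤ Q := by
    have h2 : (0 : ℝ) < ((Y i1).filter fun t => t / 2 ^ k = a).card := lt_of_lt_of_le hl (hl1 i1 hi1)
    obtain ⟨t, ht⟩ := Finset.card_pos.1 (Nat.cast_pos.1 h2)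
    obtain ⟨h3, h4⟩ := Finset.mem_filter.1 ht
    have h5 := hdm t h4
    have h6 := (hE i1 hi1 t h3).1
    exact Nat.cast_le.2 (by omega)
  have hcard : ∀ i, (((Y i).filter fun t => t / 2 ^ k = a).image (· % 2 ^ k)).card =
      ((Y i).filter fun t => t / 2 ^ k = a).card := fun i =>
    Finset.card_image_of_injOn fun t ht t' ht' e => by
      rw [← hdm t (Finset.mem_filter.1 ht).2, ← hdm t' (Finset.mem_filter.1 ht').2]
      exact congrArg _ e
  have key := hU ι G (fun i => shift (g i) (a * 2 ^ k))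
    ((E.filter fun z => z.2 / 2 ^ k = a).image fun z => (z.1, z.2 % 2 ^ k))
    (fun i => ((Y i).filter fun t => t / 2 ^ k = a).image (· % 2 ^ k)) (2 ^ k) N l
    ((5 * (Q / 2 ^ k)) ^ m * u) (49 ^ m * F) (2 ^ k0) (by positivity)
    (by push_cast; linarith) hGN hl (by positivity) (by positivity) (one_le_pow₀ (by norm_num)) hy
    (by
      intro B hB c hc
      rcases B.eq_empty_or_nonempty with rfl | ⟨i0, hi0⟩
      · simp only [Finset.card_empty, Nat.cast_zero]; positivity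
      have := one_le_ratio hk
      refine (hd.ball hu hB (fun k => Q * (g i0).2 k) (R := Q / 2 ^ k) (by positivity) ?_).trans
        (mul_le_mul_of_nonneg_right (pow_le_pow_left₀ (by positivity) (by linarith) m) hu)
      intro i hi j
      have h2 := abs_of_floor (congrFun ((hc i hi).trans (hc i0 hi0).symm) j)
      simp only [shift] at h2
      push_cast at h2
      rw [← mul_sub, abs_mul, abs_of_pos r0] at h2
      rw [← mul_sub, abs_mul, Nat.abs_cast, le_div_iff₀ r0]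
      nlinarith) (by
      intro j hj B hB c hc
      rcases B.eq_empty_or_nonempty with rfl | ⟨i0, hi0⟩
      · have := hF j (hj.trans hk) ∅ (Finset.empty_subset _) c (by simp)
        have h2 : (1 : ℝ) ≤ 49 ^ m := one_le_pow₀ (by norm_num)
        nlinarith
      have b1 : ∀ i ∈ B, ∀ n, |2 ^ j * (g i).2 n - 2 ^ j * (g i0).2 n| ≤ 1 := fun i hi n =>
        abs_of_floor (congrFun (Prod.ext_iff.1 ((hc i hi).trans (hc i0 hi0).symm)).1 n)
      refine (hF.ball h0 h1 (hj.trans hk) hB (fun n => 2 ^ j * (g i0).2 n)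
        (fun n => 2 ^ j * (g i0).1 n / Q) (R := 2) (by norm_num)
        (fun i hi n => (b1 i hi n).trans (by norm_num)) ?_).trans (le_of_eq (by
          rw [pow_mul]; norm_num))
      intro i hi n
      have b2 := abs_of_floor (congrFun (Prod.ext_iff.1 ((hc i hi).trans (hc i0 hi0).symm)).2 n)
      simp only [shift] at b2
      have e : 2 ^ j * (g i).1 n / Q - 2 ^ j * (g i0).1 n / Q = (2 : ℝ) ^ k / Q *
          (2 ^ j * ((g i).1 n + (a * 2 ^ k : ℕ) * (g i).2 n) / (2 ^ k : ℕ) -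
            2 ^ j * ((g i0).1 n + (a * 2 ^ k : ℕ) * (g i0).2 n) / (2 ^ k : ℕ)) -
          ((a * 2 ^ k : ℕ) : ℝ) / Q * (2 ^ j * (g i).2 n - 2 ^ j * (g i0).2 n) := by
        push_cast; field_simp; ring
      have h4 : |((a * 2 ^ k : ℕ) : ℝ) / Q| ≤ 1 := by
        rwa [abs_div, Nat.abs_cast, Nat.abs_cast, div_le_one hQ0]
      have h5 : |(2 : ℝ) ^ k / Q| ≤ 1 := by
        rwa [abs_div, Nat.abs_cast, abs_of_pos r0, div_le_one hQ0]
      rw [e]
      have h7 := abs_mul_le' h5 b2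
      have h8 := abs_mul_le' h4 (b1 i hi n)
      exact (abs_sub _ _).trans (by linarith)) (by
      intro i hi r hr
      obtain ⟨t, ht, rfl⟩ := Finset.mem_image.1 hr
      obtain ⟨h2, h3⟩ := Finset.mem_filter.1 ht
      refine ⟨Nat.mod_lt _ (by positivity), Finset.mem_image.2 ⟨(cell (g i) t, t),
        Finset.mem_filter.2 ⟨(hE i hi t h2).2, h3⟩, ?_⟩⟩
      rw [cell_shift, hdm t h3]) (fun i hi => by rw [hcard]; exact hl1 i hi)
    (fun i hi => by rw [hcard]; exact hl2 i hi) (by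
      intro i hi s B hB hs
      obtain ⟨k', rfl⟩ := Nat.exists_eq_add_of_le hk0
      have r1 : (0 : ℝ) < 2 ^ k' := by positivity
      have r2 : (0 : ℝ) < ((2 : ℝ) ^ k0) ^ ε0 := by positivity
      have c1 := card_le_of_fib B (fun r => (((a * 2 ^ (k0 + k') + r) / 2 ^ k' : ℕ) : ℤ))
        (seg ⌊((a * 2 ^ (k0 + k') + s : ℕ) : ℝ) / 2 ^ k'⌋ 1) (2 * l / ((2 : ℝ) ^ k0) ^ ε0) (by
          intro r hr
          rw [div_cast]
          refine floor_mem_seg ?_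
          have h2 := hs r hr
          rw [← sub_div, abs_div, abs_of_pos r1, div_le_one r1]
          push_cast at h2 ⊢
          rw [add_sub_add_left_eq_sub]
          rw [pow_add] at h2
          exact (lt_of_mul_lt_mul_left h2 (by positivity)).le) (by
          intro B' hB' b _ hb
          have d1 : (B'.card : ℝ) ≤ ((Y i).filter fun t => t / 2 ^ k' = b.toNat).card := by
            refine Nat.cast_le.2 (Finset.card_le_card_of_injOn (fun r => a * 2 ^ (k0 + k') + r) ?_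
              fun r _ r' _ e => Nat.add_left_cancel e)
            intro r hr
            obtain ⟨t, ht, rfl⟩ := Finset.mem_image.1 (hB (hB' hr))
            obtain ⟨h2, h3⟩ := Finset.mem_filter.1 ht
            have h4 := hb _ hr
            simp only [hdm t h3] at h4 ⊢
            refine Finset.mem_coe.2 (Finset.mem_filter.2 ⟨h2, ?_⟩)
            rw [← h4, Int.toNat_natCast]
          have d2 := hmax i hi k' b.toNat
            ((Nat.pow_le_pow_right (by norm_num) (by omega)).trans hk)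
          rw [div_le_div_iff₀ (by positivity) (by positivity), pow_add,
            Real.mul_rpow (by positivity) (by positivity), ← mul_assoc] at d2
          have d3 := le_of_mul_le_mul_right d2 (by positivity)
          rw [le_div_iff₀ r2]
          exact (mul_le_mul_of_nonneg_right d1 r2.le).trans (d3.trans (hl2 i hi)))
      have c2 := c1.trans (mul_le_mul_of_nonneg_right (card_seg_le _ zero_le_one) (by positivity))
      rw [← mul_div_assoc, le_div_iff₀ r2] at c2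
      have c3 := mul_le_mul_of_nonneg_left hK (Nat.cast_nonneg B.card)
      linarith)
  refine key.trans ?_
  have e1 : ((5 * ((Q : ℝ) / 2 ^ k)) ^ m * u * ((2 ^ k : ℕ) : ℝ) ^ m) ^ φ ≤
      5 ^ m * (u * (Q : ℝ) ^ m) ^ φ := by
    have : (5 * ((Q : ℝ) / 2 ^ k)) ^ m * u * ((2 ^ k : ℕ) : ℝ) ^ m = 5 ^ m * (u * (Q : ℝ) ^ m) := by
      push_cast
      rw [mul_pow, div_pow]; field_simp
    rw [this, Real.mul_rpow (by positivity) (by positivity)]
    exact mul_le_mul_of_nonneg_right (rpow_le_self' (one_le_pow₀ (by norm_num)) h1) (by positivity)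
  have e2 : (((E.filter fun z => z.2 / 2 ^ k = a).image fun z => (z.1, z.2 % 2 ^ k)).card : ℝ) ≤
      (E.filter fun z => z.2 / 2 ^ k = a).card := Nat.cast_le.2 Finset.card_image_le
  calc _ ≤ C * N ^ (ε * A) * ((2 : ℝ) ^ k0) ^ A * (49 ^ m * F) * (5 ^ m * (u * (Q : ℝ) ^ m) ^ φ) *
        (E.filter fun z => z.2 / 2 ^ k = a).card := by gcongr
    _ = _ := by rw [show (245 : ℝ) = 49 * 5 by norm_num, mul_pow]; ring

end Pool.Agent.MP_5168f5_an.H29
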