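import Pool.Agent.MP_5168f5_an.H29.Defs

/-! More entropy inequalities. -/

namespace Pool.Agent.MP_5168f5_an.H29

open Finset H19 Setoid

variable {Ω : Type} (P : FP Ω)

/-- Entropy of a random variable. -/
noncomputable def hh {β : Type} (f : Ω → β) : ℝ := P.H (ker f)

theorem hh_mono {β γ : Type} (f : Ω → β) (g : Ω → γ)
    (h : ∀ a ∈ P.S, ∀ b ∈ P.S, g a = g b → f a = f b) : hh P f ≤ hh P g :=
  P.H_mono fun a ha b hb e => h a ha b hb e

theorem hh_nonneg {β : Type} (f : Ω → β) : 0 ≤ hh P f := P.H_nonneg _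

theorem hh_submod {α β γ δ : Type} (A : Ω → α) (B : Ω → β) (J : Ω → γ) (M : Ω → δ)
    (hJ : ∀ a ∈ P.S, ∀ b ∈ P.S, A a = A b → B a = B b → J a = J b)
    (hA : ∀ a ∈ P.S, ∀ b ∈ P.S, A a = A b → M a = M b)
    (hB : ∀ a ∈ P.S, ∀ b ∈ P.S, B a = B b → M a = M b) :
    hh P J + hh P M ≤ hh P A + hh P B :=
  P.submod _ _ _ _ hJ hA hB

theorem hh_subadd {α β γ : Type} (A : Ω → α) (B : Ω → β) (J : Ω → γ)
    (hJ : ∀ a ∈ P.S, ∀ b ∈ P.S, A a = A b → B a = B b → J a = J b) :
    hh P J ≤ hh P A + hh P B :=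
  P.subadd _ _ _ hJ

theorem hh_count {α β γ : Type} (R : Ω → α) (U : Ω → β) (X : Ω → γ) (B : ℝ)
    (hR : ∀ a ∈ P.S, ∀ b ∈ P.S, U a = U b → X a = X b → R a = R b)
    (hT : ∀ a ∈ P.S, ∃ T : Finset γ, (T.card : ℝ) ≤ B ∧ ∀ b ∈ P.S, U b = U a → X b ∈ T) :
    hh P R ≤ hh P U + Real.log B :=
  P.count_const _ _ X B hR hT

theorem hh_le_log {α : Type} (X : Ω → α) (T : Finset α) (B : ℝ) (hB : (T.card : ℝ) ≤ B)
    (hT : ∀ a ∈ P.S, X a ∈ T) : hh P X ≤ Real.log B := by
  have := P.count_const (ker X) ⊤ X B (fun a _ b _ _ e => e)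
    fun a _ => ⟨T, hB, fun b hb _ => hT b hb⟩
  rwa [FP.H_top, zero_add] at this

/-- Counting with weights. -/
theorem wcount {β : Type} (R U : Setoid Ω) (X : Ω → β) (q : Ω → ℝ) (hq : ∀ a ∈ P.S, 0 < q a)
    (hR : ∀ a ∈ P.S, ∀ b ∈ P.S, U a b → X a = X b → R a b)
    (hT : ∀ a ∈ P.S, ∃ T : Finset β, ∃ w : β → ℝ, (∀ t ∈ T, 0 ≤ w t) ∧ ∑ t ∈ T, w t ≤ 1 ∧
      ∀ b ∈ P.S, U b a → X b ∈ T ∧ q b ≤ w (X b)) :
    P.H R ≤ P.H U + P.E fun ω => -Real.log (q ω) := by
  classical
  have key : P.H R ≤ P.E fun ω => -Real.log (P.pr U ω * q ω) := by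
    refine P.gibbs R _ (fun ω hω => mul_pos (P.pr_pos U hω) (hq ω hω)) ?_
    have e1 : P.E (fun ω => P.pr U ω * q ω / P.pr R ω) =
        P.E (fun ω => P.E fun a => if U a ω then q ω / P.pr R ω else 0) := by
      refine P.E_congr fun ω _ => ?_
      have : (P.E fun a => if U a ω then q ω / P.pr R ω else 0) =
          P.E fun a => (q ω / P.pr R ω) * if U a ω then 1 else 0 :=
        P.E_congr fun a _ => by split_ifs <;> simp
      rw [this, FP.E_mul]
      change _ = _ * P.pr U ω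
      ring
    rw [e1, FP.E_comm]
    have e2 : ∀ a ∈ P.S, (P.E fun ω => if U a ω then q ω / P.pr R ω else 0) ≤ 1 := by
      intro a ha
      obtain ⟨T, w, hw, h1, h2⟩ := hT a ha
      have e3 : (P.E fun ω => if U a ω then q ω / P.pr R ω else 0) ≤
          P.E fun ω => ∑ t ∈ T, w t * if U a ω ∧ X ω = t then 1 / P.pr R ω else 0 := by
        refine P.E_mono fun ω hω => ?_
        have hp := P.pr_pos R hω
        by_cases h3 : U a ω
        · obtain ⟨h4, h5⟩ := h2 ω hω (U.symm' h3)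
          simp only [h3, true_and, if_true, mul_ite, mul_zero]
          rw [Finset.sum_ite_eq, if_pos h4, mul_one_div]
          exact div_le_div_of_nonneg_right h5 hp.le
        · simp [h3]
      refine e3.trans ?_
      rw [FP.E_sum]
      refine le_trans (Finset.sum_le_sum fun t ht => ?_) h1
      rw [FP.E_mul]
      have := P.class_sum R (fun ω => U a ω ∧ X ω = t) fun x hx y hy h3 h4 =>
        hR x hx y hy (U.trans' (U.symm' h3.1) h4.1) (h3.2.trans h4.2.symm)
      have h6 : (P.E fun ω => if U a ω ∧ X ω = t then 1 / P.pr R ω else 0) ≤ 1 :=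
        le_trans (le_of_eq (P.E_congr fun ω _ => by split_ifs <;> rfl)) this
      have := mul_le_mul_of_nonneg_left h6 (hw t ht)
      linarith
    have := P.E_mono e2
    rwa [FP.E_const] at this
  have e : (P.E fun ω => -Real.log (P.pr U ω * q ω)) =
      P.E fun ω => -Real.log (P.pr U ω) + -Real.log (q ω) := by
    refine P.E_congr fun ω hω => ?_
    rw [Real.log_mul (P.pr_pos U hω).ne' (hq ω hω).ne']
    ring
  rw [e, FP.E_add] at key
  exact key

/-- The entropy form of the planar overlap argument. -/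
theorem cord {α β γ : Type} (Z : Ω → γ) (X : Ω → α) (T : Ω → ℕ) (pt : Ω → β) (M : ℝ)
    (hW : ∀ a ∈ P.S, ∃ W : Finset (ℕ × α), (W.card : ℝ) ≤ M ∧ ∀ b ∈ P.S, ∀ c ∈ P.S,
      Z b = Z a → X b = X a → Z c = Z a → pt c = pt b → (T b, X c) ∈ W) :
    hh P (fun ω => (X ω, pt ω, Z ω)) + hh P (fun ω => (T ω, X ω, Z ω)) ≤
      hh P (fun ω => (pt ω, Z ω)) + hh P (fun ω => (X ω, Z ω)) + Real.log M := by
  classical
  set n : Ω → Finset α := fun ω => (P.S.filter fun c => Z c = Z ω ∧ pt c = pt ω).image X with hn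
  have hn1 : ∀ ω ∈ P.S, (0 : ℝ) < (n ω).card := fun ω hω => by
    have h0 : X ω ∈ n ω := Finset.mem_image.2 ⟨ω, Finset.mem_filter.2 ⟨hω, rfl, rfl⟩, rfl⟩
    exact_mod_cast Finset.card_pos.2 ⟨X ω, h0⟩
  have hnc : ∀ a b, Z a = Z b → pt a = pt b → n a = n b := by
    intro a b h1 h2
    simp only [hn, h1, h2]
  have h1 : hh P (fun ω => (X ω, pt ω, Z ω)) ≤
      hh P (fun ω => (pt ω, Z ω)) + P.E fun ω => Real.log (n ω).card := by
    refine P.count _ _ X (fun ω => ((n ω).card : ℝ)) ?_ ?_ ?_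
    · intro a _ b _ h2 h3
      simp only [ker_def, Prod.mk.injEq] at h2 ⊢
      exact ⟨h3, h2⟩
    · intro a _ b _ h2
      simp only [ker_def, Prod.mk.injEq] at h2
      rw [hnc a b h2.2 h2.1]
    · intro a _
      refine ⟨n a, le_rfl, fun b hb h2 => ?_⟩
      simp only [ker_def, Prod.mk.injEq] at h2
      exact Finset.mem_image.2 ⟨b, Finset.mem_filter.2 ⟨hb, h2.2, h2.1⟩, rfl⟩
  have hM : ∀ a ∈ P.S, 0 < M := by
    intro a ha
    obtain ⟨W, h2, h3⟩ := hW a ha
    have : 0 < W.card := Finset.card_pos.2 ⟨_, h3 a ha a ha rfl rfl rfl rfl⟩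
    exact lt_of_lt_of_le (by exact_mod_cast this) h2
  have h2 : hh P (fun ω => (T ω, X ω, Z ω)) ≤
      hh P (fun ω => (X ω, Z ω)) + P.E fun ω => -Real.log ((n ω).card / M) := by
    refine wcount P _ _ T (fun ω => (n ω).card / M) (fun a ha => div_pos (hn1 a ha) (hM a ha)) ?_ ?_
    · intro a _ b _ h3 h4
      simp only [ker_def, Prod.mk.injEq] at h3 ⊢
      exact ⟨h4, h3⟩
    · intro a ha
      obtain ⟨W, h3, h4⟩ := hW a ha
      have hMa := hM a ha
      refine ⟨W.image Prod.fst, fun t => (W.filter fun x => x.1 = t).card / M,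
        fun t _ => by positivity, ?_, ?_⟩
      · rw [← Finset.sum_div, div_le_one hMa]
        refine le_trans (le_of_eq ?_) h3
        rw [Finset.card_eq_sum_card_image Prod.fst W]
        push_cast; rfl
      · intro b hb h5
        simp only [ker_def, Prod.mk.injEq] at h5
        refine ⟨Finset.mem_image.2 ⟨_, h4 b hb b hb h5.2 h5.1 h5.2 rfl, rfl⟩, ?_⟩
        refine div_le_div_of_nonneg_right ?_ hMa.le
        have : (n b).card ≤ (W.filter fun x => x.1 = T b).card := by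
          refine Finset.card_le_card_of_injOn (fun x => (T b, x)) ?_ ?_
          · intro x hx
            obtain ⟨c, hc, rfl⟩ := Finset.mem_image.1 hx
            obtain ⟨hc1, hc2, hc3⟩ := Finset.mem_filter.1 hc
            exact Finset.mem_coe.2 (Finset.mem_filter.2
              ⟨h4 b hb c hc1 h5.2 h5.1 (hc2.trans h5.2) hc3, rfl⟩)
          · intro x _ y _ e
            exact (Prod.ext_iff.1 e).2
        exact_mod_cast this
  have e : (P.E fun ω => -Real.log ((n ω).card / M)) =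
      P.E fun ω => Real.log M - Real.log (n ω).card := by
    refine P.E_congr fun ω hω => ?_
    rw [Real.log_div (hn1 ω hω).ne' (hM ω hω).ne']
    ring
  rw [e, FP.E_sub, FP.E_const] at h2
  linarith

/-- A lower bound for entropy through collisions. -/
theorem jensen (R : Setoid Ω) (A : Ω → ℝ) (hA : ∀ a ∈ P.S, 0 < A a) {B : ℝ} (hB : 0 < B)
    (h : P.E (fun ω => P.pr R ω * A ω) ≤ B) :
    (P.E fun ω => Real.log (A ω)) - Real.log B ≤ P.H R := by
  have h1 : P.E (fun ω => Real.log (A ω) - -Real.log (P.pr R ω)) ≤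
      P.E (fun ω => (1 / B) * (P.pr R ω * A ω) + (Real.log B - 1)) := by
    refine P.E_mono fun ω hω => ?_
    have hp := P.pr_pos R hω
    have ha := hA ω hω
    have h2 := Real.log_le_sub_one_of_pos (div_pos (mul_pos hp ha) hB)
    rw [Real.log_div (by positivity) hB.ne', Real.log_mul hp.ne' ha.ne'] at h2
    have : 1 / B * (P.pr R ω * A ω) = P.pr R ω * A ω / B := by ring
    linarith
  rw [FP.E_sub, FP.E_add, FP.E_mul, FP.E_const] at h1
  have h3 : 1 / B * P.E (fun ω => P.pr R ω * A ω) ≤ 1 := by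
    rw [one_div, inv_mul_le_iff₀ hB, mul_one]; exact h
  unfold FP.H
  linarith

/-- A label choosing among finitely many partitions. -/
theorem label (Rj : ℕ → Setoid Ω) (lab : Ω → ℕ) (J : ℕ) (hJ : ∀ a ∈ P.S, lab a < J)
    (R : Setoid Ω) (hR : ∀ a ∈ P.S, ∀ b ∈ P.S, lab a = lab b → Rj (lab a) a b → R a b) :
    P.H R ≤ (P.E fun ω => -Real.log (P.pr (Rj (lab ω)) ω)) + Real.log J := by
  classical
  have hJ0 : ∀ a ∈ P.S, (0 : ℝ) < J := fun a ha => by
    exact_mod_cast lt_of_le_of_lt (Nat.zero_le _) (hJ a ha)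
  have key : P.H R ≤ P.E fun ω => -Real.log (P.pr (Rj (lab ω)) ω / J) := by
    refine P.gibbs R _ (fun ω hω => div_pos (P.pr_pos _ hω) (hJ0 ω hω)) ?_
    have e1 : P.E (fun ω => P.pr (Rj (lab ω)) ω / J / P.pr R ω) =
        P.E (fun ω => P.E fun a => ∑ j ∈ Finset.range J,
          (1 / J : ℝ) * if lab ω = j ∧ Rj j a ω then 1 / P.pr R ω else 0) := by
      refine P.E_congr fun ω hω => ?_
      have : (P.E fun a => ∑ j ∈ Finset.range J,
          (1 / J : ℝ) * if lab ω = j ∧ Rj j a ω then 1 / P.pr R ω else 0) =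
          P.E fun a => (1 / J / P.pr R ω) * if Rj (lab ω) a ω then 1 else 0 := by
        refine P.E_congr fun a _ => ?_
        rw [Finset.sum_eq_single (lab ω)]
        · by_cases h : Rj (lab ω) a ω <;> simp [h, div_eq_mul_inv]
        · intro j _ hj
          rw [if_neg (fun h => hj h.1.symm), mul_zero]
        · intro h
          exact absurd (Finset.mem_range.2 (hJ ω hω)) h
      rw [this, FP.E_mul]
      change _ = _ * P.pr (Rj (lab ω)) ω
      ring
    rw [e1, FP.E_comm]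
    have e2 : ∀ a ∈ P.S, (P.E fun ω => ∑ j ∈ Finset.range J,
        (1 / J : ℝ) * if lab ω = j ∧ Rj j a ω then 1 / P.pr R ω else 0) ≤ 1 := by
      intro a ha
      have h0 := hJ0 a ha
      rw [FP.E_sum]
      calc _ ≤ ∑ _j ∈ Finset.range J, (1 / J : ℝ) := by
            refine Finset.sum_le_sum fun j _ => ?_
            rw [FP.E_mul]
            have := P.class_sum R (fun ω => lab ω = j ∧ Rj j a ω) fun x hx y hy h3 h4 =>
              hR x hx y hy (h3.1.trans h4.1.symm) (by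
                rw [h3.1]; exact (Rj j).trans' ((Rj j).symm' h3.2) h4.2)
            have h6 : (P.E fun ω => if lab ω = j ∧ Rj j a ω then 1 / P.pr R ω else 0) ≤ 1 :=
              le_trans (le_of_eq (P.E_congr fun ω _ => by split_ifs <;> rfl)) this
            have := mul_le_mul_of_nonneg_left h6 (show (0 : ℝ) ≤ 1 / J by positivity)
            linarith
        _ = 1 := by
            rw [Finset.sum_const, Finset.card_range, nsmul_eq_mul]; field_simp
    have := P.E_mono e2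
    rwa [FP.E_const] at this
  have e : (P.E fun ω => -Real.log (P.pr (Rj (lab ω)) ω / J)) =
      P.E fun ω => -Real.log (P.pr (Rj (lab ω)) ω) + Real.log J := by
    refine P.E_congr fun ω hω => ?_
    rw [Real.log_div (P.pr_pos _ hω).ne' (hJ0 ω hω).ne']
    ring
  rw [e, FP.E_add, FP.E_const] at key
  exact key

theorem card_S_le {N : ℝ} (hN : 0 < N) (h : ∀ a ∈ P.S, 1 / N ≤ P.p a) : (P.S.card : ℝ) ≤ N := by
  have h1 : ∑ _a ∈ P.S, 1 / N ≤ ∑ a ∈ P.S, P.p a := Finset.sum_le_sum h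
  rw [P.sum_one, Finset.sum_const, nsmul_eq_mul, mul_one_div, div_le_one hN] at h1
  exact h1

theorem log_ratio_le {N : ℝ} (hN : 0 < N) (h : ∀ a ∈ P.S, 1 / N ≤ P.p a) (R T : Setoid Ω) {a : Ω}
    (ha : a ∈ P.S) : Real.log (P.pr R a) - Real.log (P.pr T a) ≤ Real.log N := by
  have h1 : Real.log (P.pr R a) ≤ 0 := Real.log_nonpos (P.pr_pos R ha).le (P.pr_le_one R a)
  have h2 := Real.log_le_log (by positivity) ((h a ha).trans (P.p_le_pr T ha))
  rw [one_div, Real.log_inv] at h2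
  linarith

/-- Few values have small surprise. -/
theorem few {β γ : Type} (Z : Ω → γ) (X : Ω → β) (A : Finset β) (z : γ) (v : ℝ)
    (hA : ∀ x ∈ A, ∃ b ∈ P.S, X b = x ∧ Z b = z ∧
      Real.log (P.pr (ker Z) b) - Real.log (P.pr (ker fun ω => (X ω, Z ω)) b) ≤ v) :
    (A.card : ℝ) ≤ Real.exp v := by
  classical
  rcases A.eq_empty_or_nonempty with rfl | ⟨x0, hx0⟩
  · simp only [Finset.card_empty, Nat.cast_zero]; positivity
  obtain ⟨a, ha, -, hz, -⟩ := hA x0 hx0
  have h1 := P.card_heavy (ker Z) X (fun b => Z b = z ∧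
      Real.log (P.pr (ker Z) b) - Real.log (P.pr (ker fun ω => (X ω, Z ω)) b) ≤ v) a
      (Real.exp (-v)) (by
    intro b hb h2
    refine ⟨h2.1.trans hz.symm, ?_⟩
    have h9 := P.pr_pos (ker Z) hb
    have h10 := P.pr_pos (ker fun ω => (X ω, Z ω)) hb
    have h11 : P.pr (ker fun ω => (X ω, Z ω)) b ≤ P.pr (mt (ker X) (ker Z)) b :=
      P.pr_mono fun c _ h => by
        simp only [ker_def, Prod.mk.injEq] at h
        exact mt_rel.2 h
    refine le_trans ?_ h11
    rw [← Real.exp_log h9, ← Real.exp_log h10, ← Real.exp_add]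
    exact Real.exp_le_exp.2 (by linarith [h2.2]))
  have h2 := P.pr_pos (ker Z) ha
  have h3 := le_of_mul_le_mul_right (h1.trans (le_of_eq (one_mul _).symm)) h2
  rw [Real.exp_neg, ← div_eq_mul_inv, div_le_one (Real.exp_pos _)] at h3
  refine le_trans ?_ h3
  refine Nat.cast_le.2 (Finset.card_le_card fun x hx => ?_)
  obtain ⟨b, hb, h4, h5, h6⟩ := hA x hx
  simp only [Finset.mem_image, Finset.mem_filter]
  exact ⟨b, ⟨hb, h5, h6⟩, h4⟩

end Pool.Agent.MP_5168f5_an.H29
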