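import Pool.Agent.MP_5168f5_an.H29.Iter
import Pool.Agent.MP_5168f5_an.H42.Max

/-! The limit of the iteration and the estimate for direction-separated families. -/

namespace Pool.Agent.MP_5168f5_an.H29

open Finset H19

variable {m : ℕ}

/-- The estimate at dimension `p` for direction-separated families. -/
def LK (m : ℕ) (p : ℝ) : Prop :=
  ∀ ε : ℝ, 0 < ε → ∃ C : ℝ, 0 < C ∧ ∀ (Q l : ℕ) (G : Finset (Line m)) (E : Finset (Pt m)),
    0 < l → G.Nonempty → Sep Q G → (∀ g ∈ G, l ≤ (shade E (Finset.range Q) g).card) →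
    (G.card : ℝ) ^ ((p - 1) / m) * (l : ℝ) ^ p ≤ C * (Q : ℝ) ^ ε * (Q : ℝ) ^ (p - 1) * E.card

theorem shade_facts {Q l : ℕ} {G : Finset (Line m)} {E : Finset (Pt m)} (hl : 0 < l)
    (hG : G.Nonempty) (hs : ∀ g ∈ G, l ≤ (shade E (Finset.range Q) g).card) :
    l ≤ Q ∧ l ≤ E.card := by
  classical
  obtain ⟨g, hg⟩ := hG
  have _ := hl
  refine ⟨(hs g hg).trans ?_, (hs g hg).trans ?_⟩
  · unfold shade
    exact (Finset.card_filter_le _ _).trans (le_of_eq (Finset.card_range Q))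
  · refine Finset.card_le_card_of_injOn (fun r => (cell g r, r)) ?_
      fun a _ b _ e => (Prod.ext_iff.1 e).2
    intro r hr
    unfold shade at hr
    exact (Finset.mem_filter.1 (Finset.mem_coe.1 hr)).2

theorem card_le_pow {Q : ℕ} (hQ : 0 < Q) {G : Finset (Line m)} (h : Sep Q G) :
    (G.card : ℝ) ≤ (3 * Q) ^ m := by
  have hQ1 : (1 : ℝ) ≤ Q := by exact_mod_cast hQ
  have h1 : (G.card : ℝ) ≤ (2 * Q + 1) ^ m := by exact_mod_cast h.card_le
  exact h1.trans (pow_le_pow_left₀ (by positivity) (by linarith) m)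

theorem lk_of_uu (hm : 0 < m) {φ β : ℝ} (hβ : 0 ≤ β) (hβ1 : β ≤ 1 - φ)
    (hU : UU m φ β (β + 1 + φ * m)) : LK m (β + 1 + φ * m) := by
  classical
  intro ε hε
  have hm' : (1 : ℝ) ≤ m := by exact_mod_cast hm
  obtain ⟨C, hC, h⟩ := hU (ε / m) (by positivity)
  refine ⟨C * 3 ^ ε * 5 ^ β, by positivity, fun Q l G E hl hG hS hs => ?_⟩
  have hQ : 0 < Q := lt_of_lt_of_le hl (shade_facts hl hG hs).1
  have hQ1 : (1 : ℝ) ≤ Q := by exact_mod_cast hQ
  have hG0 : (0 : ℝ) < G.card := by exact_mod_cast hG.card_pos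
  have hd : DirM Q G id 1 := by
    intro A hA c hc
    exact_mod_cast Finset.card_le_one.2 fun a ha b hb =>
      hS.dir_inj (hA ha) (hA hb) ((hc a ha).trans (hc b hb).symm)
  have hbm : β / m ≤ 1 - φ := (div_le_self hβ hm').trans hβ1
  have key := h (Line m) G id E (shade E (Finset.range Q)) Q ((3 * Q) ^ m) l 1
    ((G.card : ℝ) ^ (1 - φ - β / m) * (5 * Q) ^ β) hQ
    (le_trans (by linarith) (le_self_pow₀ (by linarith) hm.ne')) (card_le_pow hQ hS)
    (by exact_mod_cast hl) zero_le_one (by positivity) hS.1 hd (by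
      intro j hj A hA c hc
      rcases A.eq_empty_or_nonempty with rfl | ⟨i0, hi0⟩
      · have := one_le_ratio hj
        have r0 : (0 : ℝ) < 2 ^ j := by positivity
        by_cases hφ : 1 - φ = 0
        · have hb : β = 0 := by linarith
          simp [hφ, hb]
        · simp only [Finset.card_empty, Nat.cast_zero, Real.zero_rpow hφ, zero_mul]; positivity
      have hA0 : (0 : ℝ) < A.card := by exact_mod_cast Finset.card_pos.2 ⟨i0, hi0⟩
      have r0 : (0 : ℝ) < 2 ^ j := by positivity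
      have r1 := one_le_ratio hj
      have a1 : (A.card : ℝ) ≤ (5 * (Q / 2 ^ j)) ^ m := by
        refine (hd.ball zero_le_one hA (fun k => Q * i0.2 k) (R := Q / 2 ^ j) (by positivity)
          ?_).trans (by
            rw [mul_one]; exact pow_le_pow_left₀ (by positivity) (by linarith) m)
        intro i hi k
        have h2 := abs_of_floor (congrFun (Prod.ext_iff.1 ((hc i hi).trans (hc i0 hi0).symm)).1 k)
        simp only [id] at h2 ⊢
        rw [← mul_sub, abs_mul, abs_of_pos r0] at h2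
        rw [← mul_sub, abs_mul, Nat.abs_cast, le_div_iff₀ r0]
        nlinarith
      have a2 : (A.card : ℝ) ^ (β / m) * ((2 : ℝ) ^ j) ^ β ≤ (5 * Q) ^ β := by
        have b1 := Real.rpow_le_rpow hA0.le a1 (show 0 ≤ β / m by positivity)
        rw [← Real.rpow_natCast, ← Real.rpow_mul (by positivity),
          mul_div_cancel₀ _ (by positivity)] at b1
        refine (mul_le_mul_of_nonneg_right b1 (by positivity)).trans (le_of_eq ?_)
        rw [← Real.mul_rpow (by positivity) (by positivity)]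
        have : 5 * ((Q : ℝ) / 2 ^ j) * 2 ^ j = 5 * Q := by field_simp
        rw [this]
      have a3 : (A.card : ℝ) ^ (1 - φ - β / m) ≤ (G.card : ℝ) ^ (1 - φ - β / m) :=
        Real.rpow_le_rpow hA0.le (Nat.cast_le.2 (Finset.card_le_card hA)) (by linarith)
      rw [show 1 - φ = (1 - φ - β / m) + β / m by ring, Real.rpow_add hA0, mul_assoc,
        add_sub_cancel_right]
      exact mul_le_mul a3 a2 (by positivity) (by positivity)) (by
      intro g _ t ht
      unfold shade at ht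
      exact ⟨Finset.mem_range.1 (Finset.mem_filter.1 ht).1, (Finset.mem_filter.1 ht).2⟩)
    (fun g hg => Nat.cast_le.2 (hs g hg))
  have e1 : (((3 : ℝ) * Q) ^ m) ^ (ε / m) = 3 ^ ε * (Q : ℝ) ^ ε := by
    rw [← Real.rpow_natCast, ← Real.rpow_mul (by positivity), mul_div_cancel₀ _ (by positivity),
      Real.mul_rpow (by norm_num) (by positivity)]
  have e2 : (1 * (Q : ℝ) ^ m) ^ φ * (5 * Q) ^ β = 5 ^ β * (Q : ℝ) ^ (β + 1 + φ * m - 1) := by
    rw [one_mul, ← Real.rpow_natCast, ← Real.rpow_mul (by positivity),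
      Real.mul_rpow (by norm_num) (by positivity), show β + 1 + φ * m - 1 = m * φ + β by ring,
      Real.rpow_add (by positivity)]
    ring
  have e3 : (G.card : ℝ) = (G.card : ℝ) ^ (1 - φ - β / m) *
      (G.card : ℝ) ^ ((β + 1 + φ * m - 1) / m) := by
    rw [← Real.rpow_add hG0, show 1 - φ - β / m + (β + 1 + φ * m - 1) / m = 1 by
      field_simp; ring, Real.rpow_one]
  refine le_of_mul_le_mul_left ?_ (Real.rpow_pos_of_pos hG0 (1 - φ - β / m))
  rw [← mul_assoc, ← e3]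
  refine key.trans (le_of_eq ?_)
  rw [e1]
  calc _ = C * (3 ^ ε * (Q : ℝ) ^ ε) * (G.card : ℝ) ^ (1 - φ - β / m) *
        ((1 * (Q : ℝ) ^ m) ^ φ * (5 * Q) ^ β) * E.card := by ring
    _ = _ := by rw [e2]; ring

theorem lk_down {p D : ℝ} (hp : 1 ≤ p) (hD : p ≤ D) (hD1 : 1 < D) (h : LK m D) : LK m p := by
  intro ε hε
  obtain ⟨C, hC, h⟩ := h ε hε
  set θ := (p - 1) / (D - 1) with hθ
  have t0 : 0 ≤ θ := div_nonneg (by linarith) (by linarith)
  have t1 : θ ≤ 1 := by rw [hθ, div_le_one (by linarith)]; linarith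
  have t2 : (D - 1) * θ = p - 1 := mul_div_cancel₀ _ (by linarith)
  refine ⟨C ^ θ, by positivity, fun Q l G E hl hG hS hs => ?_⟩
  obtain ⟨a1, a2⟩ := shade_facts hl hG hs
  have hl0 : (0 : ℝ) < l := by exact_mod_cast hl
  have hQ1 : (1 : ℝ) ≤ Q := by exact_mod_cast lt_of_lt_of_le hl a1
  have hE : (l : ℝ) ≤ E.card := by exact_mod_cast a2
  have hE0 : (0 : ℝ) < E.card := by linarith
  have hG0 : (0 : ℝ) < G.card := by exact_mod_cast hG.card_pos
  have b1 := Real.rpow_le_rpow (by positivity) (h Q l G E hl hG hS hs) t0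
  have b2 := Real.rpow_le_rpow hl0.le hE (show 0 ≤ 1 - θ by linarith)
  rw [Real.mul_rpow (by positivity) (by positivity), Real.mul_rpow (by positivity) (by positivity),
    Real.mul_rpow (by positivity) (by positivity), Real.mul_rpow (by positivity) (by positivity),
    ← Real.rpow_mul hG0.le, ← Real.rpow_mul hl0.le, ← Real.rpow_mul (by positivity),
    ← Real.rpow_mul (by positivity), t2, div_mul_eq_mul_div, t2] at b1
  have b3 := mul_le_mul b1 b2 (by positivity) (by positivity)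
  rw [mul_assoc, ← Real.rpow_add hl0, mul_assoc _ _ ((E.card : ℝ) ^ (1 - θ)),
    ← Real.rpow_add hE0, show D * θ + (1 - θ) = p by linarith, show θ + (1 - θ) = 1 by ring,
    Real.rpow_one] at b3
  refine b3.trans ?_
  have b4 : (Q : ℝ) ^ (ε * θ) ≤ (Q : ℝ) ^ ε :=
    Real.rpow_le_rpow_of_exponent_le hQ1 (by nlinarith)
  gcongr

theorem lk_up (hm : 0 < m) {p : ℝ} (h : ∀ δ : ℝ, 0 < δ → ∃ D, p - δ ≤ D ∧ D ≤ p ∧ LK m D) :
    LK m p := by
  intro ε hε
  obtain ⟨D, d1, d2, h⟩ := h (ε / 2) (by positivity)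
  obtain ⟨C, hC, h⟩ := h (ε / 2) (by positivity)
  refine ⟨C * 3 ^ (ε / 2), by positivity, fun Q l G E hl hG hS hs => ?_⟩
  obtain ⟨a1, a2⟩ := shade_facts hl hG hs
  have hm' : (0 : ℝ) < m := by exact_mod_cast hm
  have hl0 : (0 : ℝ) < l := by exact_mod_cast hl
  have hQ : 0 < Q := lt_of_lt_of_le hl a1
  have hQ1 : (1 : ℝ) ≤ Q := by exact_mod_cast hQ
  have hG0 : (0 : ℝ) < G.card := by exact_mod_cast hG.card_pos
  have b1 := h Q l G E hl hG hS hs
  have b2 : (G.card : ℝ) ^ ((p - D) / m) ≤ 3 ^ (ε / 2) * (Q : ℝ) ^ (ε / 2) := by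
    have c1 := Real.rpow_le_rpow hG0.le (card_le_pow hQ hS) (show 0 ≤ (p - D) / m by
      apply div_nonneg <;> linarith)
    rw [← Real.rpow_natCast, ← Real.rpow_mul (by positivity), mul_div_cancel₀ _ hm'.ne'] at c1
    rw [← Real.mul_rpow (by norm_num) (by positivity)]
    exact c1.trans (Real.rpow_le_rpow_of_exponent_le (by linarith) (by linarith))
  have b3 : (l : ℝ) ^ (p - D) ≤ (Q : ℝ) ^ (p - D) :=
    Real.rpow_le_rpow hl0.le (by exact_mod_cast a1) (by linarith)
  have e1 : (G.card : ℝ) ^ ((p - 1) / m) * (l : ℝ) ^ p = (G.card : ℝ) ^ ((D - 1) / m) *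
      (l : ℝ) ^ D * ((G.card : ℝ) ^ ((p - D) / m) * (l : ℝ) ^ (p - D)) := by
    rw [show (p - 1) / m = (D - 1) / m + (p - D) / m by ring, Real.rpow_add hG0]
    conv_lhs => rw [show p = D + (p - D) by ring, Real.rpow_add hl0]
    rw [show D + (p - D) - D = p - D by ring]
    ring
  have e2 : (Q : ℝ) ^ ε * (Q : ℝ) ^ (p - 1) = (Q : ℝ) ^ (ε / 2) * (Q : ℝ) ^ (D - 1) *
      ((Q : ℝ) ^ (ε / 2) * (Q : ℝ) ^ (p - D)) := by
    rw [← Real.rpow_add (by linarith), ← Real.rpow_add (by linarith), ← Real.rpow_add (by linarith),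
      ← Real.rpow_add (by linarith)]
    congr 1; ring
  rw [e1]
  refine (mul_le_mul b1 (mul_le_mul b2 b3 (by positivity) (by positivity)) (by positivity)
    (by positivity)).trans (le_of_eq ?_)
  calc _ = C * 3 ^ (ε / 2) * ((Q : ℝ) ^ (ε / 2) * (Q : ℝ) ^ (D - 1) *
      ((Q : ℝ) ^ (ε / 2) * (Q : ℝ) ^ (p - D))) * E.card := by ring
    _ = _ := by rw [← e2]; ring

theorem gk_of_lk (hm : 0 < m) {p : ℝ} (hp : 1 < p) (h : LK m p) :
    H42.GK m (m / (p - 1)) (p * (m / (p - 1))) := by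
  intro ε hε
  have hm' : (0 : ℝ) < m := by exact_mod_cast hm
  have hp' : 0 < p - 1 := by linarith
  set b := (m : ℝ) / (p - 1) with hb
  have hb0 : 0 < b := by positivity
  obtain ⟨C, hC, h⟩ := h (ε / b) (by positivity)
  refine ⟨C ^ b, by positivity, fun Q l G E hl hS hs => ?_⟩
  rcases G.eq_empty_or_nonempty with rfl | hG
  · simp only [Finset.card_empty, Nat.cast_zero]; positivity
  have hl0 : (0 : ℝ) < l := by exact_mod_cast hl
  have hG0 : (0 : ℝ) < G.card := by exact_mod_cast hG.card_pos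
  have b1 := Real.rpow_le_rpow (by positivity) (h Q l G E hl hG hS hs) hb0.le
  rw [Real.mul_rpow (by positivity) (by positivity), Real.mul_rpow (by positivity) (by positivity),
    Real.mul_rpow (by positivity) (by positivity), Real.mul_rpow (by positivity) (by positivity),
    ← Real.rpow_mul hG0.le, ← Real.rpow_mul hl0.le, ← Real.rpow_mul (by positivity),
    ← Real.rpow_mul (by positivity), div_mul_cancel₀ _ hb0.ne',
    show (p - 1) / m * b = 1 by rw [hb]; field_simp,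
    show (p - 1) * b = m by rw [hb]; field_simp, Real.rpow_one, Real.rpow_natCast] at b1
  rwa [le_div_iff₀ (by positivity)]

theorem uu_iter (hm : 5 ≤ m) (n : ℕ) : ∃ φ β : ℝ, 0 ≤ φ ∧ φ ≤ 2 - √2 ∧ 0 ≤ β ∧ β ≤ 1 - φ ∧
    β ≤ 2 - 3 * φ ∧ β ≤ 3 * √2 - 4 ∧ 2 - √2 - φ ≤ (2 / 3) ^ n ∧ 3 * √2 - 4 - β ≤ (2 / 3) ^ n ∧
    UU m φ β (β + 1 + φ * m) := by
  have s1 : √2 * √2 = 2 := Real.mul_self_sqrt (by norm_num)
  have s2 : 1.414 < √2 := by
    rw [Real.lt_sqrt (by norm_num)]; norm_num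
  have s3 : √2 < 1.415 := by
    rw [Real.sqrt_lt' (by norm_num)]; norm_num
  induction n with
  | zero =>
    refine ⟨0, 0, le_rfl, by linarith, le_rfl, by norm_num, by norm_num, by linarith,
      by norm_num; linarith, by norm_num; linarith, ?_⟩
    simpa using uu_base m
  | succ n ih =>
    obtain ⟨φ, β, h0, h1, h2, h3, h4, h5, h6, h7, hU⟩ := ih
    have h8 : 0 < 4 - φ := by linarith
    have hδ : (0 : ℝ) ≤ (2 / 3) ^ n := by positivity
    refine ⟨2 / (4 - φ), (β + φ) / (4 - φ), by positivity, ?_, by positivity, ?_, ?_, ?_, ?_, ?_,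
      uu_step hm h0 h2 h3 h4 hU⟩
    · rw [div_le_iff₀ h8]; nlinarith
    · rw [le_sub_iff_add_le, ← add_div, div_le_one h8]; linarith
    · rw [le_sub_iff_add_le, ← mul_div_assoc, ← add_div, div_le_iff₀ h8]; linarith
    · rw [div_le_iff₀ h8]; nlinarith
    · rw [sub_le_comm, le_div_iff₀ h8, pow_succ]; nlinarith
    · rw [sub_le_comm, le_div_iff₀ h8, pow_succ]; nlinarith

theorem lk_final (hm : 5 ≤ m) {p : ℝ} (hp : 1 ≤ p) (hp' : p ≤ (2 - √2) * (m - 3) + 3) :
    LK m p := by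
  have hm' : (5 : ℝ) ≤ m := by exact_mod_cast hm
  have s3 : √2 < 1.415 := by
    rw [Real.sqrt_lt' (by norm_num)]; norm_num
  refine lk_down hp hp' (by nlinarith) (lk_up (by omega) fun δ hδ => ?_)
  obtain ⟨n, hn⟩ := exists_pow_lt_of_lt_one (show 0 < δ / (m + 1) by positivity)
    (show (2 : ℝ) / 3 < 1 by norm_num)
  obtain ⟨φ, β, h0, h1, h2, h3, h4, h5, h6, h7, hU⟩ := uu_iter hm n
  rw [lt_div_iff₀ (by positivity)] at hn
  refine ⟨β + 1 + φ * m, by nlinarith, by nlinarith,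
    lk_of_uu (by omega) h2 h3 hU⟩

end Pool.Agent.MP_5168f5_an.H29
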