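import Pool.Agent.MP_5168f5_an.H29.Ends

/-! From broad families to general families, and the iteration. -/

namespace Pool.Agent.MP_5168f5_an.H29

open Finset H19

variable {m : ℕ}

theorem uu_of_br {φ β D : ℝ} (h0 : 0 ≤ φ) (h1 : φ ≤ 1) (hβ : 0 ≤ β) (hβ1 : β ≤ 1)
    (hD : D = β + 1 + φ * m) (hB : BR m φ D) : UU m φ β D := by
  classical
  obtain ⟨A, hA, hU⟩ := u1_of_br h0 h1 hβ hβ1 hD hB
  have hD1 : 1 ≤ D := by
    have : 0 ≤ φ * m := by positivity
    linarith
  intro ε hε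
  set ε0 : ℝ := min 1 (ε / (2 * A + 2 * D + 2)) with hε0
  have e0 : 0 < ε0 := lt_min one_pos (by positivity)
  have e1 : ε0 ≤ 1 := min_le_left _ _
  have e2 : ε0 * (2 * A + 2 * D + 2) ≤ ε := by
    rw [← le_div_iff₀ (by positivity)]; exact min_le_right _ _
  obtain ⟨C, hC, hU⟩ := hU (ε0 * ε0) (by positivity)
  obtain ⟨C2, hC2⟩ := loglog_small e0
  set c5 : ℝ := (10 * C) ^ ε0⁻¹ with hc5
  have hc51 : 1 ≤ c5 := Real.one_le_rpow (by linarith) (by positivity)
  set c6 : ℝ := 7 ^ (3 * m) * (4 * c5) ^ D with hc6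
  set c7 : ℝ := Real.exp C2 ^ 2 * 4 ^ D * (245 ^ m * C * (2 * c5) ^ A) with hc7
  have hc60 : 0 < c6 := by positivity
  have hc70 : 0 < c7 := by positivity
  refine ⟨c6 + c7, by positivity, ?_⟩
  intro ι G g E Y Q N l u F hQ hQN hGN hl hu hF0 hy hd hF hE hl1
  have hQ1 : (1 : ℝ) ≤ Q := by exact_mod_cast hQ
  have hN1 : 1 ≤ N := hQ1.trans hQN
  set M : ℝ := N ^ ε0 with hM
  have hM1 : 1 ≤ M := Real.one_le_rpow hN1 e0.le
  have hMε : ∀ x : ℝ, x ≤ 2 * A + 2 * D + 2 → M ^ x ≤ N ^ ε := by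
    intro x hx
    refine (Real.rpow_le_rpow_of_exponent_le hM1 hx).trans ?_
    rw [hM, ← Real.rpow_mul (by linarith)]
    exact Real.rpow_le_rpow_of_exponent_le hN1 e2
  set X := F * (u * (Q : ℝ) ^ m) ^ φ * E.card with hX
  have hX0 : 0 ≤ X := by positivity
  have hNε : 0 ≤ N ^ ε := by positivity
  suffices h : G.card * l ^ D ≤ c6 * N ^ ε * X ∨ G.card * l ^ D ≤ c7 * N ^ ε * X by
    have : (c6 + c7) * N ^ ε * F * (u * (Q : ℝ) ^ m) ^ φ * E.card =
      c6 * N ^ ε * X + c7 * N ^ ε * X := by rw [hX]; ring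
    rw [this]
    rcases h with h | h
    · exact h.trans (le_add_of_nonneg_right (by positivity))
    · exact h.trans (le_add_of_nonneg_left (by positivity))
  obtain ⟨k0, hk1, hk2⟩ : ∃ k0 : ℕ, c5 * M ≤ 2 ^ k0 ∧ (2 : ℝ) ^ k0 ≤ 2 * (c5 * M) := by
    obtain ⟨n, a1, a2⟩ := exists_nat_pow_near (x := c5 * M) (y := 2)
      (one_le_mul_of_one_le_of_one_le hc51 hM1) one_lt_two
    exact ⟨n + 1, a2.le, by rw [pow_succ]; linarith⟩
  have hK : 10 * C * N ^ (ε0 * ε0) ≤ ((2 : ℝ) ^ k0) ^ ε0 := by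
    refine le_trans (le_of_eq ?_) (Real.rpow_le_rpow (by positivity) hk1 e0.le)
    rw [Real.mul_rpow (by positivity) (by positivity), hc5,
      Real.rpow_inv_rpow (by positivity) e0.ne', hM, ← Real.rpow_mul (by linarith)]
  by_cases hsmall : l ≤ 2 * 2 ^ k0 * M
  · left
    have a1 := triv h0 h1 hQ hu hy hd hF hF0 hE hl1
    have a2 : l ^ D ≤ l * ((4 * c5) ^ D * N ^ ε) := by
      have b1 : l ^ D = l * l ^ (D - 1) := by
        rw [show D = 1 + (D - 1) by ring, Real.rpow_add hl, Real.rpow_one]; congr 2; ring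
      rw [b1]
      refine mul_le_mul_of_nonneg_left ?_ hl.le
      have b2 : l ≤ 4 * c5 * M ^ (2 : ℝ) := by
        rw [Real.rpow_two]
        have := mul_le_mul_of_nonneg_right hk2 (show 0 ≤ M by linarith)
        nlinarith
      have b3 : (1 : ℝ) ≤ 4 * c5 * M ^ (2 : ℝ) :=
        one_le_mul_of_one_le_of_one_le (by linarith) (Real.one_le_rpow hM1 (by norm_num))
      calc l ^ (D - 1) ≤ (4 * c5 * M ^ (2 : ℝ)) ^ (D - 1) :=
            Real.rpow_le_rpow hl.le b2 (by linarith)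
        _ ≤ (4 * c5 * M ^ (2 : ℝ)) ^ D := Real.rpow_le_rpow_of_exponent_le b3 (by linarith)
        _ = (4 * c5) ^ D * M ^ (2 * D) := by
            rw [Real.mul_rpow (by positivity) (by positivity), ← Real.rpow_mul (by linarith)]
        _ ≤ _ := mul_le_mul_of_nonneg_left (hMε _ (by linarith)) (by positivity)
    calc (G.card : ℝ) * l ^ D ≤ G.card * (l * ((4 * c5) ^ D * N ^ ε)) :=
          mul_le_mul_of_nonneg_left a2 (Nat.cast_nonneg _)
      _ = G.card * l * ((4 * c5) ^ D * N ^ ε) := by ring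
      _ ≤ 7 ^ (3 * m) * F * (u * (Q : ℝ) ^ m) ^ φ * E.card * ((4 * c5) ^ D * N ^ ε) :=
          mul_le_mul_of_nonneg_right a1 (by positivity)
      _ = _ := by rw [hc6, hX]; ring
  right
  push Not at hsmall
  choose kk aa hkk hmax using fun i => exists_block hQ (Y i) ε0
  set n : ι → ℕ := fun i => ((Y i).filter fun t => t / 2 ^ kk i = aa i).card with hn
  have hn1 : ∀ i ∈ G, l ≤ 2 * M * n i := by
    intro i hi
    have hY : ∀ t ∈ Y i, t < Q := fun t ht => (hE i hi t ht).1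
    have b0 : 2 ^ Nat.log 2 Q ≤ Q := Nat.pow_log_le_self 2 hQ.ne'
    have b1 := card_le_of_fib (Y i) (fun t => t / 2 ^ Nat.log 2 Q) (Finset.range 2) (M * n i) (by
      intro t ht
      rw [Finset.mem_range, Nat.div_lt_iff_lt_mul (by positivity), mul_comm, ← pow_succ]
      exact (hY t ht).trans (Nat.lt_pow_succ_log_self (by norm_num) Q)) (by
      intro B hB c _ hc
      have d1 : (B.card : ℝ) ≤ ((Y i).filter fun t => t / 2 ^ Nat.log 2 Q = c).card :=
        Nat.cast_le.2 (Finset.card_le_card fun t ht => Finset.mem_filter.2 ⟨hB ht, hc t ht⟩)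
      have d2 := hmax i hY _ c b0
      rw [div_le_iff₀ (by positivity)] at d2
      have d3 : ((2 : ℝ) ^ Nat.log 2 Q) ^ ε0 ≤ M :=
        Real.rpow_le_rpow (by positivity) (le_trans (by exact_mod_cast b0) hQN) e0.le
      have d4 : (n i : ℝ) / ((2 : ℝ) ^ kk i) ^ ε0 ≤ n i :=
        div_le_self (Nat.cast_nonneg _) (Real.one_le_rpow (one_le_pow₀ (by norm_num)) e0.le)
      refine d1.trans (d2.trans ?_)
      rw [mul_comm M]
      exact mul_le_mul d4 d3 (by positivity) (Nat.cast_nonneg _))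
    rw [Finset.card_range] at b1
    push_cast at b1
    linarith [hl1 i hi]
  have hn2 : ∀ i, n i ≤ 2 ^ kk i := by
    intro i
    rw [← Finset.card_range (2 ^ kk i)]
    refine Finset.card_le_card_of_injOn (· % 2 ^ kk i)
      (fun z _ => Finset.mem_coe.2 (Finset.mem_range.2 (Nat.mod_lt _ (by positivity)))) ?_
    intro t ht t' ht' e
    rw [← Nat.div_add_mod t (2 ^ kk i), ← Nat.div_add_mod t' (2 ^ kk i),
      (Finset.mem_filter.1 ht).2, (Finset.mem_filter.1 ht').2]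
    exact congrArg _ e
  have hn3 : ∀ i ∈ G, 0 < n i := fun i hi => by
    have := hn1 i hi
    rcases Nat.eq_zero_or_pos (n i) with h | h
    · rw [h] at this; simp at this; linarith
    · exact h
  have hlog : 0 ≤ Real.log N := Real.log_nonneg hN1
  set I : ℕ := ⌊2 * Real.log N⌋₊ + 1 with hI
  have hI1 : (I : ℝ) ≤ Real.exp C2 * M := by
    have b1 := Nat.floor_le (show 0 ≤ 2 * Real.log N by linarith)
    have b2 := Real.exp_le_exp.2 (hC2 N hN1)
    rw [Real.exp_log (by positivity), Real.exp_add, mul_comm ε0, ← Real.rpow_def_of_pos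
      (by positivity)] at b2
    rw [hI]; push_cast; linarith
  obtain ⟨⟨k, k2⟩, -, G1, hG1, hG1m, s1⟩ := exists_fib G (fun i => (kk i, Nat.log 2 (n i)))
    (Finset.range I ×ˢ Finset.range I) ⟨(0, 0), by simp [hI]⟩ (fun _ => (1 : ℝ)) (by
      intro i hi
      refine Finset.mem_product.2 ⟨Finset.mem_range.2 ?_, Finset.mem_range.2 (log_lt (hn3 i hi) ?_)⟩
      · have := two_pow_lt (hkk i)
        have h2 := log_lt hQ hQN
        simp only
        omega
      · exact le_trans (Nat.cast_le.2 ((hn2 i).trans (hkk i))) hQN)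
  simp only [Finset.sum_const, nsmul_eq_mul, mul_one, Finset.card_product, Finset.card_range,
    Nat.cast_mul] at s1
  have hG1a : ∀ i ∈ G1, kk i = k ∧ Nat.log 2 (n i) = k2 := fun i hi => by
    have := (hG1m i (hG1 hi)).1 hi
    simpa using this
  rcases G1.eq_empty_or_nonempty with rfl | ⟨i0, hi0⟩
  · simp only [Finset.card_empty, Nat.cast_zero, mul_zero] at s1
    have : (G.card : ℝ) = 0 := le_antisymm s1 (Nat.cast_nonneg _)
    rw [this, zero_mul]; positivity
  have hk : 2 ^ k ≤ Q := (hG1a i0 hi0).1 ▸ hkk i0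
  have hdy : ∀ i ∈ G1, (2 : ℝ) ^ k2 ≤ n i ∧ (n i : ℝ) ≤ 2 * 2 ^ k2 := fun i hi => by
    have := dyad (hn3 i (hG1 hi))
    rwa [(hG1a i hi).2] at this
  have hk0 : k0 ≤ k := by
    have b1 := hn1 i0 (hG1 hi0)
    have b2 : (n i0 : ℝ) ≤ 2 ^ k := by
      rw [← (hG1a i0 hi0).1]; exact_mod_cast hn2 i0
    have b3 : (2 : ℝ) ^ k0 < 2 ^ k := by
      by_contra hh
      push Not at hh
      have : 2 * M * n i0 ≤ 2 * M * 2 ^ k0 := mul_le_mul_of_nonneg_left (b2.trans hh) (by positivity)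
      linarith
    exact ((pow_lt_pow_iff_right₀ one_lt_two).1 b3).le
  set Λ := 245 ^ m * C * N ^ (ε0 * ε0 * A) * ((2 : ℝ) ^ k0) ^ A * F * (u * (Q : ℝ) ^ m) ^ φ with hΛ
  have hΛ0 : 0 ≤ Λ := by positivity
  have s2 : G1.card * ((2 : ℝ) ^ k2) ^ D ≤ Λ * E.card := by
    rw [Finset.card_eq_sum_card_image aa G1, Nat.cast_sum, Finset.sum_mul]
    have b1 : ∀ a ∈ G1.image aa, ((G1.filter fun i => aa i = a).card : ℝ) * ((2 : ℝ) ^ k2) ^ D ≤
        Λ * (E.filter fun z => z.2 / 2 ^ k = a).card := by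
      intro a _
      have hs : (G1.filter fun i => aa i = a) ⊆ G := (Finset.filter_subset _ _).trans hG1
      have hnn : ∀ i ∈ G1.filter (fun i => aa i = a),
          ((Y i).filter fun t => t / 2 ^ k = a).card = n i := fun i hi => by
        obtain ⟨c1, c2⟩ := Finset.mem_filter.1 hi
        rw [← (hG1a i c1).1, ← c2]
      exact block_bd h0 h1 hC hU hQN (le_trans (Nat.cast_le.2 (Finset.card_le_card hs)) hGN)
        (by positivity) hu hF0 hk hk0 hK (fun i hi => hy i (hs hi)) (hd.mono hs) (hF.mono hs)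
        (fun i hi => hE i (hs hi))
        (fun i hi => by rw [hnn i hi]; exact (hdy i (Finset.mem_filter.1 hi).1).1)
        (fun i hi => by rw [hnn i hi]; exact (hdy i (Finset.mem_filter.1 hi).1).2) (by
          intro i hi k' a' hk'
          have := hmax i (fun t ht => (hE i (hs hi) t ht).1) k' a' hk'
          obtain ⟨c1, c2⟩ := Finset.mem_filter.1 hi
          rwa [(hG1a i c1).1, c2] at this)
    refine (Finset.sum_le_sum b1).trans ?_
    rw [← Finset.mul_sum, ← Nat.cast_sum]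
    refine mul_le_mul_of_nonneg_left (Nat.cast_le.2 ?_) hΛ0
    rw [← Finset.card_biUnion]
    · exact Finset.card_le_card (Finset.biUnion_subset.2 fun a _ => Finset.filter_subset _ _)
    · intro a _ b _ hab
      exact Finset.disjoint_filter.2 fun z _ h2 h3 => hab (h2.symm.trans h3)
  have s3 : l ^ D ≤ 4 ^ D * M ^ D * ((2 : ℝ) ^ k2) ^ D := by
    rw [← Real.mul_rpow (by norm_num) (by positivity), ← Real.mul_rpow (by positivity)
      (by positivity)]
    refine Real.rpow_le_rpow hl.le ?_ (by linarith)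
    have := mul_le_mul_of_nonneg_left (hdy i0 hi0).2 (show 0 ≤ 2 * M by positivity)
    linarith [hn1 i0 (hG1 hi0)]
  have s4 : N ^ (ε0 * ε0 * A) ≤ M ^ A := by
    rw [hM, ← Real.rpow_mul (by linarith)]
    refine Real.rpow_le_rpow_of_exponent_le hN1 (mul_le_mul_of_nonneg_right ?_ hA)
    nlinarith
  have s5 : ((2 : ℝ) ^ k0) ^ A ≤ (2 * c5) ^ A * M ^ A := by
    rw [← Real.mul_rpow (by positivity) (by positivity)]
    exact Real.rpow_le_rpow (by positivity) (by linarith) hA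
  have s6 : M * M * M ^ D * (M ^ A * M ^ A) ≤ N ^ ε := by
    refine le_trans (le_of_eq ?_) (hMε (2 + D + (A + A)) (by linarith))
    rw [Real.rpow_add (by linarith), Real.rpow_add (by linarith), Real.rpow_add (by linarith),
      Real.rpow_two, sq]
  have s7 : (G.card : ℝ) ≤ Real.exp C2 * M * (Real.exp C2 * M) * G1.card :=
    s1.trans (mul_le_mul_of_nonneg_right (mul_le_mul hI1 hI1 (Nat.cast_nonneg _) (by positivity))
      (Nat.cast_nonneg _))
  have s8 : Λ ≤ 245 ^ m * C * M ^ A * ((2 * c5) ^ A * M ^ A) * F * (u * (Q : ℝ) ^ m) ^ φ := by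
    rw [hΛ]
    refine mul_le_mul_of_nonneg_right (mul_le_mul_of_nonneg_right (mul_le_mul
      (mul_le_mul_of_nonneg_left s4 (by positivity)) s5 (by positivity) (by positivity)) hF0)
      (by positivity)
  calc (G.card : ℝ) * l ^ D ≤ Real.exp C2 * M * (Real.exp C2 * M) * G1.card *
        (4 ^ D * M ^ D * ((2 : ℝ) ^ k2) ^ D) :=
        mul_le_mul s7 s3 (by positivity) (by positivity)
    _ = Real.exp C2 ^ 2 * 4 ^ D * (M * M * M ^ D) * (G1.card * ((2 : ℝ) ^ k2) ^ D) := by ring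
    _ ≤ Real.exp C2 ^ 2 * 4 ^ D * (M * M * M ^ D) * ((245 ^ m * C * M ^ A *
        ((2 * c5) ^ A * M ^ A) * F * (u * (Q : ℝ) ^ m) ^ φ) * E.card) :=
        mul_le_mul_of_nonneg_left (s2.trans (mul_le_mul_of_nonneg_right s8 (Nat.cast_nonneg _)))
          (by positivity)
    _ = c7 * (M * M * M ^ D * (M ^ A * M ^ A)) * X := by rw [hc7, hX]; ring
    _ ≤ _ := mul_le_mul_of_nonneg_right (mul_le_mul_of_nonneg_left s6 hc70.le) hX0

/-- One step of the iteration. -/
theorem uu_step (hm : 5 ≤ m) {φ β : ℝ} (h0 : 0 ≤ φ) (hβ : 0 ≤ β) (hβ1 : β ≤ 1 - φ)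
    (hβ2 : β ≤ 2 - 3 * φ) (hU : UU m φ β (β + 1 + φ * m)) :
    UU m (2 / (4 - φ)) ((β + φ) / (4 - φ)) ((β + φ) / (4 - φ) + 1 + 2 / (4 - φ) * m) := by
  have hm' : (5 : ℝ) ≤ m := by exact_mod_cast hm
  have h4 : 0 < 4 - φ := by linarith
  refine uu_of_br (by positivity) (by rw [div_le_one h4]; linarith) (by positivity)
    (by rw [div_le_one h4]; linarith) rfl
    (br_of_uu h0 (by linarith) hβ hβ1 rfl (by field_simp; ring) ?_ hU)
  nlinarith

end Pool.Agent.MP_5168f5_an.H29
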