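import Pool.Agent.MP_5168f5_an.H29.Pivot

/-! Rescaling a narrow family to a broad one. -/

namespace Pool.Agent.MP_5168f5_an.H29

open Finset H19

variable {m : ℕ} {ι : Type}

/-- The body of the broad estimate with fixed constants. -/
def BRc (m : ℕ) (φ D A ε C : ℝ) : Prop :=
  ∀ (ι : Type) (G : Finset ι) (g : ι → Line m)
    (E : Finset (Pt m)) (Y : ι → Finset ℕ) (T : Finset (ι × ι × ℕ)) (Q : ℕ) (N l u K : ℝ),
    0 < Q → (Q : ℝ) ≤ N → (G.card : ℝ) ≤ N → 0 < l → 1 ≤ K → G.Nonempty →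
    (∀ i ∈ G, ∀ k, |(g i).2 k| ≤ 1) → DirM Q G g u →
    (∀ i ∈ G, ∀ t ∈ Y i, t < Q ∧ (cell (g i) t, t) ∈ E) →
    (∀ o ∈ T, Cross Q K l G g Y o) →
    ((G.card : ℝ) * l) ^ 2 ≤ K * T.card * E.card →
    (∀ B ⊆ T, ∀ c, (∀ o ∈ B, o.2 = c) → (G.card : ℝ) * l * B.card ≤ K * T.card) →
    (G.card : ℝ) ^ φ * l ^ D ≤ C * N ^ ε * K ^ A * (u * (Q : ℝ) ^ m) ^ φ * E.card

open Classical in
/-- The lines shaded at a point. -/
noncomputable def thru (G : Finset ι) (g : ι → Line m) (Y : ι → Finset ℕ) (z : Pt m) : Finset ι :=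
  G.filter fun i => z.2 ∈ Y i ∧ cell (g i) z.2 = z.1

theorem mem_thru {G : Finset ι} {g : ι → Line m} {Y : ι → Finset ℕ} {z : Pt m} {i : ι} :
    i ∈ thru G g Y z ↔ i ∈ G ∧ z.2 ∈ Y i ∧ cell (g i) z.2 = z.1 := by
  unfold thru; rw [Finset.mem_filter]

open Classical in
theorem sum_thru (G : Finset ι) (g : ι → Line m) (Y : ι → Finset ℕ) (E : Finset (Pt m)) :
    ∑ z ∈ E, (thru G g Y z).card =
      ∑ i ∈ G, ((Y i).filter fun t => (cell (g i) t, t) ∈ E).card := by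
  unfold thru
  simp only [Finset.card_filter]
  rw [Finset.sum_comm]
  refine Finset.sum_congr rfl fun i _ => ?_
  rw [← Finset.card_filter, ← Finset.card_filter]
  refine Finset.card_bij (fun z _ => z.2) ?_ ?_ ?_
  · intro z hz
    obtain ⟨h1, h2, h3⟩ := Finset.mem_filter.1 hz
    exact Finset.mem_filter.2 ⟨h2, by rw [h3]; exact h1⟩
  · intro z hz z' hz' e
    obtain ⟨-, -, h3⟩ := Finset.mem_filter.1 hz
    obtain ⟨-, -, h3'⟩ := Finset.mem_filter.1 hz'
    exact Prod.ext (by rw [← h3, ← h3', e]) e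
  · intro t ht
    obtain ⟨h1, h2⟩ := Finset.mem_filter.1 ht
    exact ⟨_, Finset.mem_filter.2 ⟨h2, h1, rfl⟩, rfl⟩

theorem card_split {α : Type} (s : Finset α) (p : α → Prop) [DecidablePred p]
    [∀ x, Decidable (¬p x)] :
    ((s.filter p).card : ℝ) + (s.filter fun x => ¬p x).card = s.card := by
  rw [← Nat.cast_add, Finset.card_filter_add_card_filter_not]

/-- The rescaled line. -/
noncomputable def resc (j : ℕ) (c : Fin m → ℤ) (g : Line m) : Line m :=
  (g.1, fun k => 2 ^ j * g.2 k - c k)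

/-- The column of a point. -/
noncomputable def col (j : ℕ) (c : Fin m → ℤ) (z : Pt m) : Pt m :=
  (fun k => ⌊(z.1 k : ℝ) - z.2 * c k / 2 ^ j⌋, z.2 / 2 ^ j)

theorem resc_le {j : ℕ} {c : Fin m → ℤ} {g : Line m} (h : ∀ k, ⌊(2 : ℝ) ^ j * g.2 k⌋ = c k)
    (k : Fin m) : |(resc j c g).2 k| ≤ 1 := by
  unfold resc
  simp only
  rw [← h k]
  exact abs_frac _

theorem div_near (t j : ℕ) : |(t : ℝ) / 2 ^ j - (t / 2 ^ j : ℕ)| ≤ 1 := by
  have h1 : ((t / 2 ^ j : ℕ) : ℝ) = (⌊(t : ℝ) / 2 ^ j⌋ : ℤ) := by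
    have h2 : ⌊(t : ℝ) / 2 ^ j⌋₊ = t / 2 ^ j := by
      rw [← Nat.floor_div_eq_div (K := ℝ)]; push_cast; rfl
    rw [← h2, ← Int.natCast_floor_eq_floor (by positivity)]
    push_cast; rfl
  rw [h1]
  exact abs_frac _

theorem col_near {j : ℕ} {c : Fin m → ℤ} {g : Line m} (h : ∀ k, ⌊(2 : ℝ) ^ j * g.2 k⌋ = c k)
    (t : ℕ) (k : Fin m) :
    |pos (resc j c g) (t / 2 ^ j : ℕ) k - ((cell g t k : ℝ) - t * c k / 2 ^ j)| ≤ 2 := by
  have e : pos (resc j c g) (t / 2 ^ j : ℕ) k - ((cell g t k : ℝ) - t * c k / 2 ^ j) =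
      (pos g t k - cell g t k) - ((t : ℝ) / 2 ^ j - (t / 2 ^ j : ℕ)) * (resc j c g).2 k := by
    unfold pos resc; field_simp; ring
  rw [e]
  have h1 := pos_sub_cell g t k
  have h2 := abs_mul_le' (div_near t j) (resc_le h k)
  exact (abs_sub _ _).trans (by linarith)

theorem cell_mem_cube {j : ℕ} {c : Fin m → ℤ} {g : Line m}
    (h : ∀ k, ⌊(2 : ℝ) ^ j * g.2 k⌋ = c k) (t : ℕ) :
    cell (resc j c g) (t / 2 ^ j) ∈ cube (col j c (cell g t, t)).1 2 :=
  floor_mem_cube (col_near h t)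

theorem col_mem_cube {j : ℕ} {c : Fin m → ℤ} {g : Line m}
    (h : ∀ k, ⌊(2 : ℝ) ^ j * g.2 k⌋ = c k) (t : ℕ) :
    (col j c (cell g t, t)).1 ∈ cube (cell (resc j c g) (t / 2 ^ j)) 2 :=
  floor_mem_cube fun k => by rw [abs_sub_comm]; exact col_near h t k

theorem card_cube2 (c : Fin m → ℤ) : ((cube c 2).card : ℝ) ≤ 7 ^ m :=
  (card_cube_le c (by norm_num)).trans (by norm_num)

theorem far_coarse {Q j t s : ℕ} {K : ℝ} (hK : 1 ≤ K) (hj : 2 * K * 2 ^ j ≤ Q)
    (h : (Q : ℝ) ≤ K * |(t : ℝ) - s * 2 ^ j|) :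
    ((Q / 2 ^ j + 1 : ℕ) : ℝ) ≤ 4 * K * |((t / 2 ^ j : ℕ) : ℝ) - s| := by
  have r0 : (0 : ℝ) < 2 ^ j := by positivity
  have h1 : ((Q / 2 ^ j : ℕ) : ℝ) ≤ Q / 2 ^ j := by
    have := Nat.cast_div_le (α := ℝ) (m := Q) (n := 2 ^ j)
    push_cast at this; exact this
  have h2 := div_near t j
  have h3 : |(t : ℝ) - s * 2 ^ j| ≤ (|((t / 2 ^ j : ℕ) : ℝ) - s| + 1) * 2 ^ j := by
    have e : (t : ℝ) - s * 2 ^ j = ((((t / 2 ^ j : ℕ) : ℝ) - s) + ((t : ℝ) / 2 ^ j -
      (t / 2 ^ j : ℕ))) * 2 ^ j := by field_simp; ring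
    rw [e, abs_mul, abs_of_pos r0]
    exact mul_le_mul_of_nonneg_right ((abs_add_le _ _).trans (by linarith)) r0.le
  have h4 : (Q : ℝ) / 2 ^ j ≤ K * (|((t / 2 ^ j : ℕ) : ℝ) - s| + 1) := by
    rw [div_le_iff₀ r0, mul_assoc]
    exact h.trans (mul_le_mul_of_nonneg_left h3 (by linarith))
  have h5 : 2 * K ≤ (Q : ℝ) / 2 ^ j := by rwa [le_div_iff₀ r0]
  push_cast
  nlinarith

theorem local_bd {φ D A ε C : ℝ} (hC : 0 < C) (hB : BRc m φ D A ε C)
    {G : Finset ι} {g : ι → Line m} {E : Finset (Pt m)} {Y : ι → Finset ℕ} {Q j : ℕ}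
    {c : Fin m → ℤ} {N l u K K0 η μ θ : ℝ} (hQN : (Q : ℝ) + 1 ≤ N) (hGN : (G.card : ℝ) ≤ N)
    (hl : 0 < l) (hK : 1 ≤ K) (hK0 : 1 ≤ K0) (hη : 0 < η) (hμ : 0 < μ) (hθ : 0 < θ)
    (hj : 2 * K * 2 ^ j ≤ Q) (hG : G.Nonempty) (hc : ∀ i ∈ G, ∀ k, ⌊(2 : ℝ) ^ j * (g i).2 k⌋ = c k)
    (hd : DirM Q G g u) (hY : ∀ i ∈ G, ∀ t ∈ Y i, t < Q)
    (hm1 : ∀ z ∈ E, μ ≤ (thru G g Y z).card) (hm2 : ∀ z ∈ E, ((thru G g Y z).card : ℝ) ≤ 2 * μ)
    (hbr : ∀ z ∈ E, ∀ i' ∈ thru G g Y z, ∀ B ⊆ thru G g Y z,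
      (∀ i ∈ B, ∀ k, K0 * (2 ^ j * |(g i).2 k - (g i').2 k|) < 1) → (B.card : ℝ) ≤ μ / 4)
    (hc1 : θ * (E.image (col j c)).card ≤ E.card)
    (hc2 : ∀ B ⊆ E, ∀ γ, (∀ z ∈ B, col j c z = γ) → (B.card : ℝ) ≤ 2 * θ)
    (hI : η * G.card * l ≤ ∑ z ∈ E, ((thru G g Y z).card : ℝ))
    (h2e : ∀ i ∈ G, ∀ s : ℕ, ∀ B ⊆ Y i, (∀ t ∈ B, K * |(t : ℝ) - s| < Q) →
      (B.card : ℝ) ≤ η * l / 64) :
    (G.card : ℝ) ^ φ * (η * l / (64 * 7 ^ m * θ)) ^ D ≤ C * N ^ ε * (12 * 7 ^ m * K * K0) ^ A *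
      (5 ^ m * u * ((Q / 2 ^ j + 1 : ℕ) : ℝ) ^ m) ^ φ * (7 ^ m * (E.card / θ)) := by
  classical
  have hG0 : (0 : ℝ) < G.card := by exact_mod_cast hG.card_pos
  have hu := hd.one_le hG
  have p7 : (1 : ℝ) ≤ 7 ^ m := one_le_pow₀ (by norm_num)
  set K' : ℝ := 12 * 7 ^ m * K * K0 with hK'
  have kk : 1 ≤ K * K0 := one_le_mul_of_one_le_of_one_le hK hK0
  have k1 : 12 * 7 ^ m ≤ K' := by rw [hK', mul_assoc]; nlinarith
  have k2 : 4 * K ≤ K' := by
    have : 1 ≤ 7 ^ m * K0 := one_le_mul_of_one_le_of_one_le p7 hK0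
    rw [hK']; nlinarith
  have k3 : K0 ≤ K' := by
    have : 1 ≤ 7 ^ m * K := one_le_mul_of_one_le_of_one_le p7 hK
    rw [hK']; nlinarith
  set l' : ℝ := η * l / (64 * 7 ^ m * θ) with hl'
  have hl'0 : 0 < l' := by positivity
  set g' : ι → Line m := fun i => resc j c (g i) with hg'
  set Y1 : ι → Finset ℕ := fun i => (Y i).filter fun t => (cell (g i) t, t) ∈ E with hY1
  set Y' : ι → Finset ℕ := fun i => (Y1 i).image (· / 2 ^ j) with hY'
  set E' : Finset (Pt m) := (E.image (col j c)).biUnion fun γ => (cube γ.1 2).image (·, γ.2)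
    with hE'
  have hE'1 : (E'.card : ℝ) ≤ 7 ^ m * (E.card / θ) := by
    have h1 : (E'.card : ℝ) ≤ ∑ γ ∈ E.image (col j c), (((cube γ.1 2).image (·, γ.2)).card : ℝ) := by
      exact_mod_cast Finset.card_biUnion_le
    have h2 : ∑ γ ∈ E.image (col j c), (((cube γ.1 2).image (·, γ.2)).card : ℝ) ≤
        (E.image (col j c)).card • (7 : ℝ) ^ m :=
      Finset.sum_le_card_nsmul _ _ _ fun γ _ =>
        le_trans (by exact_mod_cast Finset.card_image_le) (card_cube2 γ.1)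
    rw [nsmul_eq_mul, mul_comm] at h2
    refine h1.trans (h2.trans (mul_le_mul_of_nonneg_left ?_ (by positivity)))
    rw [le_div_iff₀ hθ, mul_comm]; exact hc1
  set Gd : Finset ι := G.filter fun i => η * l / 16 ≤ (Y1 i).card with hGd
  set Gb : Finset ι := G.filter fun i => ¬ η * l / 16 ≤ (Y1 i).card with hGb
  have hbad : ∑ z ∈ E, ((thru Gb g Y z).card : ℝ) ≤ G.card * (η * l / 16) := by
    rw [← Nat.cast_sum, sum_thru, Nat.cast_sum]
    refine (Finset.sum_le_card_nsmul _ _ (η * l / 16) fun i hi =>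
      (not_le.1 (Finset.mem_filter.1 hi).2).le).trans ?_
    rw [nsmul_eq_mul]
    exact mul_le_mul_of_nonneg_right (by exact_mod_cast Finset.card_filter_le _ _) (by positivity)
  set GP : Finset (Pt m) := E.filter fun z => ((thru Gb g Y z).card : ℝ) ≤ μ / 4 with hGP
  have hGP1 : η * G.card * l ≤ 4 * μ * GP.card := by
    have h1 : ((E.filter fun z => ¬ ((thru Gb g Y z).card : ℝ) ≤ μ / 4).card : ℝ) * (μ / 4) ≤
        G.card * (η * l / 16) := by
      refine le_trans ?_ hbad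
      rw [← nsmul_eq_mul]
      refine (Finset.card_nsmul_le_sum _ (fun z => ((thru Gb g Y z).card : ℝ)) _ fun z hz =>
        (not_le.1 (Finset.mem_filter.1 hz).2).le).trans ?_
      exact Finset.sum_le_sum_of_subset_of_nonneg (Finset.filter_subset _ _)
        fun _ _ _ => Nat.cast_nonneg _
    have h2 := hI.trans (Finset.sum_le_card_nsmul _ _ _ hm2)
    rw [nsmul_eq_mul] at h2
    have h3 : (GP.card : ℝ) +
        (E.filter fun z => ¬ ((thru Gb g Y z).card : ℝ) ≤ μ / 4).card = E.card := by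
      exact_mod_cast Finset.card_filter_add_card_filter_not _
    nlinarith
  obtain ⟨R, hR1, hR2, hR3⟩ := Finset.exists_subset_injOn_image_eq_of_surjOn (f := col j c)
    (GP : Set (Pt m)) (GP.image (col j c)) (by
      intro γ hγ
      obtain ⟨z, hz, rfl⟩ := Finset.mem_image.1 hγ
      exact ⟨z, hz, rfl⟩)
  have hRE : ∀ z ∈ R, z ∈ E := fun z hz => (Finset.mem_filter.1 (hR1 hz)).1
  have hR4 : (R.image (col j c)).card = R.card := Finset.card_image_of_injOn hR2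
  have hR5 : 8 * 7 ^ m * (G.card * l') ≤ μ * R.card := by
    have h1 := card_le_of_fib GP (col j c) (GP.image (col j c)) (2 * θ)
      (fun z hz => Finset.mem_image_of_mem _ hz)
      fun B hB γ _ h => hc2 B (hB.trans (Finset.filter_subset _ _)) γ h
    rw [← hR3, hR4] at h1
    have h2 : 8 * 7 ^ m * (G.card * l') = η * G.card * l / (8 * θ) := by
      rw [hl']; field_simp; ring
    rw [h2, div_le_iff₀ (by positivity)]
    nlinarith
  have hR6 : (R.card : ℝ) ≤ E'.card := by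
    rw [← hR4]
    refine Nat.cast_le.2 (Finset.card_le_card fun γ hγ => ?_)
    obtain ⟨z, hz, rfl⟩ := Finset.mem_image.1 hγ
    exact Finset.mem_biUnion.2 ⟨_, Finset.mem_image_of_mem _ (hRE z hz),
      Finset.mem_image.2 ⟨_, self_mem_cube _ _, rfl⟩⟩
  have hsplit : ∀ z, ((thru Gd g Y z).card : ℝ) + (thru Gb g Y z).card = (thru G g Y z).card := by
    intro z
    have h1 : thru Gd g Y z = (thru G g Y z).filter fun i => η * l / 16 ≤ (Y1 i).card := by
      ext i; simp only [mem_thru, hGd, Finset.mem_filter]; tauto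
    have h2 : thru Gb g Y z = (thru G g Y z).filter fun i => ¬ η * l / 16 ≤ (Y1 i).card := by
      ext i; simp only [mem_thru, hGb, Finset.mem_filter]; tauto
    rw [h1, h2]
    exact_mod_cast Finset.card_filter_add_card_filter_not _
  have hsub : ∀ z, thru Gd g Y z ⊆ thru G g Y z := fun z i hi =>
    mem_thru.2 ⟨(Finset.mem_filter.1 (mem_thru.1 hi).1).1, (mem_thru.1 hi).2⟩
  set Pr : Pt m → ι → Finset ι := fun z i' => (thru Gd g Y z).filter fun i =>
    ∃ k, 1 ≤ K0 * (2 ^ j * |(g i).2 k - (g i').2 k|) with hPr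
  set T0 := R.sigma fun z => (thru Gd g Y z).sigma fun i' => Pr z i' with hT0
  have hT0c : R.card * (3 / 8 * μ ^ 2) ≤ (T0.card : ℝ) := by
    rw [hT0, Finset.card_sigma, Nat.cast_sum, ← nsmul_eq_mul]
    refine Finset.card_nsmul_le_sum _ _ _ fun z hz => ?_
    have h1 : 3 / 4 * μ ≤ (thru Gd g Y z).card := by
      have := (Finset.mem_filter.1 (hR1 hz)).2
      linarith [hsplit z, hm1 z (hRE z hz)]
    rw [Finset.card_sigma, Nat.cast_sum]
    have h2 : (thru Gd g Y z).card • (μ / 2) ≤ ∑ i' ∈ thru Gd g Y z, ((Pr z i').card : ℝ) := by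
      refine Finset.card_nsmul_le_sum _ _ _ fun i' hi' => ?_
      have h3 := hbr z (hRE z hz) i' (hsub z hi') ((thru Gd g Y z).filter fun i =>
        ¬ ∃ k, 1 ≤ K0 * (2 ^ j * |(g i).2 k - (g i').2 k|))
        ((Finset.filter_subset _ _).trans (hsub z)) fun i hi k =>
          not_le.1 fun h => (Finset.mem_filter.1 hi).2 ⟨k, h⟩
      have h4 : ((Pr z i').card : ℝ) + ((thru Gd g Y z).filter fun i =>
          ¬ ∃ k, 1 ≤ K0 * (2 ^ j * |(g i).2 k - (g i').2 k|)).card = (thru Gd g Y z).card :=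
        card_split _ _
      linarith
    rw [nsmul_eq_mul] at h2
    nlinarith
  set T : Finset (ι × ι × ℕ) := T0.image fun x => (x.2.2, x.2.1, x.1.2 / 2 ^ j) with hT
  have hTm : ∀ o ∈ T, ∃ z ∈ R, o.1 ∈ thru Gd g Y z ∧ o.2.1 ∈ thru Gd g Y z ∧
      (∃ k, 1 ≤ K0 * (2 ^ j * |(g o.1).2 k - (g o.2.1).2 k|)) ∧ o.2.2 = z.2 / 2 ^ j := by
    intro o ho
    obtain ⟨x, hx, rfl⟩ := Finset.mem_image.1 ho
    obtain ⟨h1, h2⟩ := Finset.mem_sigma.1 hx
    obtain ⟨h3, h4⟩ := Finset.mem_sigma.1 h2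
    obtain ⟨h5, h6⟩ := Finset.mem_filter.1 h4
    exact ⟨x.1, h1, h5, h3, h6, rfl⟩
  have hcol : ∀ z, ∀ i ∈ thru Gd g Y z, (col j c z).1 ∈ cube (cell (g' i) (z.2 / 2 ^ j)) 2 := by
    intro z i hi
    obtain ⟨h1, -, h3⟩ := mem_thru.1 (hsub z hi)
    have := col_mem_cube (hc i h1) z.2
    rwa [h3] at this
  have hTc : (T0.card : ℝ) ≤ T.card * 7 ^ m := by
    refine card_le_of_fib T0 _ T _ (fun x hx => Finset.mem_image_of_mem _ hx) ?_
    intro B hB o _ ho
    refine le_trans ?_ (card_cube2 (cell (g' o.2.1) o.2.2))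
    refine Nat.cast_le.2 (Finset.card_le_card_of_injOn (fun x => (col j c x.1).1) ?_ ?_)
    · intro x hx
      rw [← ho x hx]
      exact hcol _ _ (Finset.mem_sigma.1 (Finset.mem_sigma.1 (hB hx)).2).1
    · rintro ⟨z, i', i⟩ hx ⟨z2, i2', i2⟩ hy e
      have h1 := (ho _ hx).trans (ho _ hy).symm
      simp only [Prod.mk.injEq] at h1
      obtain ⟨rfl, rfl, h2⟩ := h1
      have h3 : z = z2 := hR2 (Finset.mem_sigma.1 (hB hx)).1 (Finset.mem_sigma.1 (hB hy)).1
        (Prod.ext e h2)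
      subst h3
      rfl
  have hends : ∀ i ∈ Gd, Ends (Q / 2 ^ j + 1) K' l' (Y' i) := by
    intro i hi s₁ s₂
    obtain ⟨hiG, hi2⟩ := Finset.mem_filter.1 hi
    set Z0 := (Y1 i).filter fun t : ℕ => (Q : ℝ) ≤ K * |(t : ℝ) - (s₁ * 2 ^ j : ℕ)| ∧
      (Q : ℝ) ≤ K * |(t : ℝ) - (s₂ * 2 ^ j : ℕ)| with hZ0
    refine ⟨Z0.image (· / 2 ^ j), Finset.image_subset_image (Finset.filter_subset _ _), ?_, ?_⟩
    · have h1 : η * l / 32 ≤ Z0.card := by
        have a1 := h2e i hiG (s₁ * 2 ^ j) ((Y i).filter fun t : ℕ => K * |(t : ℝ) - (s₁ * 2 ^ j : ℕ)| < Q)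
          (Finset.filter_subset _ _) fun t ht => (Finset.mem_filter.1 ht).2
        have a2 := h2e i hiG (s₂ * 2 ^ j) ((Y i).filter fun t : ℕ => K * |(t : ℝ) - (s₂ * 2 ^ j : ℕ)| < Q)
          (Finset.filter_subset _ _) fun t ht => (Finset.mem_filter.1 ht).2
        have a3 : Y1 i ⊆ Z0 ∪ (((Y i).filter fun t : ℕ => K * |(t : ℝ) - (s₁ * 2 ^ j : ℕ)| < Q) ∪
            ((Y i).filter fun t : ℕ => K * |(t : ℝ) - (s₂ * 2 ^ j : ℕ)| < Q)) := by
          intro t ht
          have ht' := (Finset.mem_filter.1 ht).1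
          simp only [hZ0, Finset.mem_union, Finset.mem_filter]
          by_cases b1 : K * |(t : ℝ) - (s₁ * 2 ^ j : ℕ)| < Q
          · exact Or.inr (Or.inl ⟨ht', b1⟩)
          · by_cases b2 : K * |(t : ℝ) - (s₂ * 2 ^ j : ℕ)| < Q
            · exact Or.inr (Or.inr ⟨ht', b2⟩)
            · exact Or.inl ⟨ht, not_lt.1 b1, not_lt.1 b2⟩
        have a4 := (Finset.card_le_card a3).trans ((Finset.card_union_le _ _).trans
          (Nat.add_le_add_left (Finset.card_union_le _ _) _))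
        have a5 : ((Y1 i).card : ℝ) ≤ Z0.card +
            ((((Y i).filter fun t : ℕ => K * |(t : ℝ) - (s₁ * 2 ^ j : ℕ)| < Q).card : ℝ) +
            ((Y i).filter fun t : ℕ => K * |(t : ℝ) - (s₂ * 2 ^ j : ℕ)| < Q).card) := by
          exact_mod_cast a4
        linarith
      have h2 := card_le_of_fib Z0 (· / 2 ^ j) (Z0.image (· / 2 ^ j)) (7 ^ m * (2 * θ))
        (fun t ht => Finset.mem_image_of_mem _ ht) (by
          intro B hB r _ hr
          refine (card_le_of_fib B (fun t => (col j c (cell (g i) t, t)).1) (cube (cell (g' i) r) 2)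
            (2 * θ) (fun t ht => by rw [← hr t ht]; exact col_mem_cube (hc i hiG) t) ?_).trans
            (mul_le_mul_of_nonneg_right (card_cube2 _) (by positivity))
          intro B' hB' w _ hw
          have a1 := hc2 (B'.image fun t => (cell (g i) t, t)) (by
            intro z hz
            obtain ⟨t, ht, rfl⟩ := Finset.mem_image.1 hz
            exact (Finset.mem_filter.1 (Finset.mem_filter.1 (hB (hB' ht))).1).2) (w, r) (by
            intro z hz
            obtain ⟨t, ht, rfl⟩ := Finset.mem_image.1 hz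
            exact Prod.ext (hw t ht) (hr t (hB' ht)))
          rwa [Finset.card_image_of_injOn fun a _ b _ e => (Prod.ext_iff.1 e).2] at a1)
      rw [hl', div_le_iff₀ (by positivity)]
      nlinarith
    · intro r hr
      obtain ⟨t, ht, rfl⟩ := Finset.mem_image.1 hr
      obtain ⟨-, h1, h2⟩ := Finset.mem_filter.1 ht
      push_cast at h1 h2
      exact ⟨(far_coarse hK hj h1).trans (mul_le_mul_of_nonneg_right k2 (abs_nonneg _)),
        (far_coarse hK hj h2).trans (mul_le_mul_of_nonneg_right k2 (abs_nonneg _))⟩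
  have hlt : ∀ t < Q, t / 2 ^ j < Q / 2 ^ j + 1 := fun t ht =>
    Nat.lt_succ_of_le (Nat.div_le_div_right ht.le)
  have hQ' : (Q : ℝ) ≤ ((Q / 2 ^ j + 1 : ℕ) : ℝ) * 2 ^ j := by
    have := Nat.lt_div_mul_add (a := Q) (b := 2 ^ j) (by positivity)
    have h2 : Q ≤ (Q / 2 ^ j + 1) * 2 ^ j := by nlinarith
    exact_mod_cast h2
  have hT1 : 3 * μ * (G.card * l') ≤ T.card := by
    have h1 : 3 / 8 * μ * (8 * 7 ^ m * (G.card * l')) ≤ 3 / 8 * μ * (μ * R.card) :=
      mul_le_mul_of_nonneg_left hR5 (by positivity)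
    refine le_of_mul_le_mul_right ?_ (show (0 : ℝ) < 7 ^ m by positivity)
    nlinarith
  have hGl : 0 < G.card * l' := by positivity
  have key := hB ι G g' E' Y' T (Q / 2 ^ j + 1) N l' (5 ^ m * u) K' (Nat.succ_pos _) (by
      have : ((Q / 2 ^ j : ℕ) : ℝ) ≤ Q := by exact_mod_cast Nat.div_le_self _ _
      push_cast; linarith) hGN hl'0 (by linarith) hG (fun i hi => resc_le (hc i hi)) (by
      intro B hB w hw
      rcases B.eq_empty_or_nonempty with rfl | ⟨i0, hi0⟩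
      · simp only [Finset.card_empty, Nat.cast_zero]; positivity
      refine (hd.ball (by linarith) hB (fun k => Q * (g i0).2 k) (R := 1) zero_le_one ?_).trans
        (by norm_num)
      intro i hi k
      have h1 := abs_of_floor (congrFun ((hw i hi).trans (hw i0 hi0).symm) k)
      have e : ((Q / 2 ^ j + 1 : ℕ) : ℝ) * (g' i).2 k - ((Q / 2 ^ j + 1 : ℕ) : ℝ) * (g' i0).2 k =
          ((Q / 2 ^ j + 1 : ℕ) : ℝ) * 2 ^ j * ((g i).2 k - (g i0).2 k) := by
        simp only [hg', resc]; ring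
      rw [e, abs_mul, abs_of_nonneg (by positivity)] at h1
      rw [← mul_sub, abs_mul, Nat.abs_cast]
      exact le_trans (mul_le_mul_of_nonneg_right hQ' (abs_nonneg _)) h1) (by
      intro i hi r hr
      obtain ⟨t, ht, rfl⟩ := Finset.mem_image.1 hr
      obtain ⟨h1, h2⟩ := Finset.mem_filter.1 ht
      exact ⟨hlt t (hY i hi t h1), Finset.mem_biUnion.2 ⟨_, Finset.mem_image_of_mem _ h2,
        Finset.mem_image.2 ⟨_, cell_mem_cube (hc i hi) t, rfl⟩⟩⟩) (by
      intro o ho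
      obtain ⟨z, hz, h1, h2, ⟨k, h3⟩, h4⟩ := hTm o ho
      obtain ⟨a1, a2, a3⟩ := mem_thru.1 (hsub z h1)
      obtain ⟨b1, b2, b3⟩ := mem_thru.1 (hsub z h2)
      refine ⟨a1, b1, by rw [h4]; exact hlt _ (hY _ a1 _ a2), fun k => ?_, ⟨k, ?_⟩,
        hends _ (mem_thru.1 h1).1, hends _ (mem_thru.1 h2).1⟩
      · have n1 := col_near (hc _ a1) z.2 k
        have n2 := col_near (hc _ b1) z.2 k
        rw [a3] at n1
        rw [b3] at n2
        rw [h4, abs_le] at *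
        simp only [hg']
        constructor <;> linarith [n1.1, n1.2, n2.1, n2.2]
      · have e : (g' o.1).2 k - (g' o.2.1).2 k = 2 ^ j * ((g o.1).2 k - (g o.2.1).2 k) := by
          simp only [hg', resc]; ring
        rw [e, abs_mul, abs_of_pos (show (0 : ℝ) < 2 ^ j by positivity)]
        exact h3.trans (mul_le_mul_of_nonneg_right k3 (by positivity))) (by
      have h1 : G.card * l' ≤ μ * E'.card := by
        have : μ * R.card ≤ μ * E'.card := mul_le_mul_of_nonneg_left hR6 hμ.le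
        nlinarith
      have h2 : (G.card * l') * (G.card * l') * μ ≤ (G.card * l') * (μ * E'.card) * μ := by gcongr
      have h3 : 8 * 7 ^ m * (G.card * l') * (G.card * l') ≤ (μ * R.card) * (μ * E'.card) :=
        mul_le_mul hR5 h1 hGl.le (by positivity)
      have h4 : R.card * (3 / 8 * μ ^ 2) * E'.card ≤ T.card * 7 ^ m * E'.card :=
        mul_le_mul_of_nonneg_right (hT0c.trans hTc) (Nat.cast_nonneg _)
      have h5 : (0 : ℝ) ≤ T.card * E'.card := by positivity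
      have h6 : 7 ^ m * (3 * (G.card * l') ^ 2) ≤ 7 ^ m * (T.card * E'.card) := by nlinarith
      have h7 := le_of_mul_le_mul_left h6 (by positivity)
      have h8 : 1 * (T.card * E'.card) ≤ K' * (T.card * (E'.card : ℝ)) :=
        mul_le_mul_of_nonneg_right (by linarith) h5
      nlinarith) (by
      intro B hB w hw
      have h1 : (B.card : ℝ) ≤ 7 ^ m * (2 * μ) := by
        choose! z hz using hTm
        refine (card_le_of_fib B (fun o => (col j c (z o)).1) (cube (cell (g' w.1) w.2) 2) (2 * μ)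
          (fun o ho => ?_) ?_).trans (mul_le_mul_of_nonneg_right (card_cube2 _) (by positivity))
        · obtain ⟨-, -, a3, -, a5⟩ := hz o (hB ho)
          rw [← hw o ho, a5]
          exact hcol _ _ a3
        · intro B' hB' v _ hv
          rcases B'.eq_empty_or_nonempty with rfl | ⟨o0, ho0⟩
          · simp only [Finset.card_empty, Nat.cast_zero]; positivity
          have a0 := hz o0 (hB (hB' ho0))
          refine le_trans ?_ (hm2 _ (hRE _ a0.1))
          refine Nat.cast_le.2 (Finset.card_le_card_of_injOn Prod.fst ?_ ?_)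
          · intro o ho
            have a1 := hz o (hB (hB' ho))
            have a2 : z o = z o0 := hR2 a1.1 a0.1 (Prod.ext ((hv o ho).trans (hv o0 ho0).symm) (by
              change (z o).2 / 2 ^ j = (z o0).2 / 2 ^ j
              rw [← a1.2.2.2.2, ← a0.2.2.2.2, hw o (hB' ho), hw o0 (hB' ho0)]))
            rw [← a2]
            exact hsub _ a1.2.1
          · intro o ho o' ho' e
            exact Prod.ext e ((hw o (hB' ho)).trans (hw o' (hB' ho')).symm)
      have h2 : G.card * l' * B.card ≤ G.card * l' * (7 ^ m * (2 * μ)) :=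
        mul_le_mul_of_nonneg_left h1 hGl.le
      have h3 : 7 ^ m * (3 * μ * (G.card * l')) ≤ 7 ^ m * (T.card : ℝ) :=
        mul_le_mul_of_nonneg_left hT1 (by positivity)
      have h4 : 7 ^ m * (T.card : ℝ) ≤ K' * T.card :=
        mul_le_mul_of_nonneg_right (by linarith) (Nat.cast_nonneg _)
      have h5 : 0 ≤ 7 ^ m * μ * (G.card * l') := by positivity
      nlinarith)
  refine key.trans (mul_le_mul_of_nonneg_left hE'1 ?_)
  have : 0 < N := by have : (0 : ℝ) ≤ Q := Nat.cast_nonneg _; linarith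
  positivity

end Pool.Agent.MP_5168f5_an.H29
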