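import Pool.Agent.MP_5168f5_an.H29.PivEnt

/-! The pivot inequality. -/

namespace Pool.Agent.MP_5168f5_an.H29

open Finset H19 Setoid

variable {m : ℕ} {ι Ω : Type}

theorem pivot_core {c : Cf m ι Ω} {P : FP Ω} {Q : ℕ} {K l u : ℝ} {G : Finset ι}
    {Y : ι → Finset ℕ} (hQ : 0 < Q) (hK : 1 ≤ K) (hy : ∀ i ∈ G, ∀ k, |(c.g i).2 k| ≤ 1)
    (hO : ∀ a ∈ P.S, Cross Q K l G c.g Y (c.O a))
    (hH : ∀ a ∈ P.S, Hts Q K (c.O a).2.2 (c.s a) (c.t a) (c.t' a))
    (hd : DirM Q G c.g u) (hu : 1 ≤ u) {E : Finset (Pt m)}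
    (hX : ∀ a ∈ P.S, c.X a ∈ E) (hX' : ∀ a ∈ P.S, c.X' a ∈ E) (hXi : ∀ a ∈ P.S, c.Xi a ∈ E)
    {lam c1 : ℝ} (hc1 : 0 ≤ c1)
    (H1 : hh P (fun a => (c.O a, c.s a)) + 2 * lam ≤ hh P c.all)
    (H2 : hh P c.O + lam ≤ hh P (fun a => (c.O a, c.s a)))
    (H3 : hh P (fun a => (c.O a, c.s a, c.t a)) + lam ≤ hh P c.all)
    (H4 : ∀ w : Ω → ℕ, (∀ a ∈ P.S, 2 ^ w a ≤ Q) →
      2 * (Real.log 2 * P.E fun a => (w a : ℝ)) - 3 * (Real.log Q - lam) - c1 ≤
        hh P fun a => (w a, cc Q (w a) (c.Xi a)))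
    {φ β D N err : ℝ} (h0 : 0 ≤ φ) (hβ : 0 ≤ β) (hβ1 : β ≤ 1 - φ) (hD : 1 ≤ D)
    (hU : UE m φ β D N err) (hQN : (Q : ℝ) ≤ N) (hp : ∀ a ∈ P.S, 1 / N ≤ P.p a) :
    hh P c.O + 3 * lam - 2 * Real.log E.card - Real.log Q + (D - 1 + φ) * (2 * lam - Real.log Q) ≤
      (1 - φ) * Real.log E.card + 3 * β * (Real.log Q - lam) + Real.log u +
        Real.log (cM m Q K u) - lam + φ * Real.log Q + φ * (m * Real.log Q) + err +
        ((3 * m + 3 * D + 8) * kap K + Real.log (2 * Real.log Q + 1) + c1) := by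
  classical
  have hQ1 : (1 : ℝ) ≤ Q := by exact_mod_cast hQ
  have hκ := kap_nonneg hK
  have hq : 0 ≤ Real.log Q := Real.log_nonneg hQ1
  have hJ : 0 ≤ Real.log (2 * Real.log Q + 1) := Real.log_nonneg (by linarith)
  obtain ⟨w, hw, U⟩ := hU Ω (ι × ι × ℕ) _ P c.O (fun o => c.g o.1) c.p c.t Q hQ hQN hp
    (fun a ha => hy _ (hO a ha).m1) (fun a ha => (hH a ha).lt)
  change hh P (fun a => (c.O a, c.p a)) - hh P c.p +
        D * (hh P (fun a => (c.t a, c.O a, c.p a)) - hh P (fun a => (c.O a, c.p a))) ≤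
      (hh P (fun a => (c.X a, c.p a)) - hh P c.p) +
        (1 - φ) * (hh P (fun a => (c.O a, c.p a)) -
          hh P (fun a => (w a, cls Q (w a) (c.g (c.O a).1), c.p a))) +
        β * (Real.log 2 * P.E fun a => (w a : ℝ)) +
        φ * (hh P (fun a => (c.O a, c.p a)) - hh P (fun a => (dir Q (c.g (c.O a).1), c.p a)) +
          m * Real.log Q) + err at U
  have A1 := entA hQ hK hy hO hH
  have A2 : hh P (fun a => (c.X a, c.X' a)) ≤ 2 * Real.log E.card := by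
    have h1 := hh_subadd P c.X c.X' (fun a => (c.X a, c.X' a)) fun a _ b _ h1 h2 => by rw [h1, h2]
    have h2 := hh_le_log P c.X E _ le_rfl hX
    have h3 := hh_le_log P c.X' E _ le_rfl hX'
    linarith
  have B := entB hQ hK hO hH
  have C := entC hQ hK hH
  have Dd := entD hQ hK hy hO hH hd
  have Ee := entE hQ hK hy hO hH hd
  -- the pair entropy
  have I0 : hh P (fun a => (c.X a, c.p a)) ≤ hh P (fun a => (c.X a, c.X' a, c.p a)) :=
    hh_mono P _ _ fun a _ b _ h => by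
      simp only [Prod.mk.injEq] at h ⊢; exact ⟨h.1, h.2.2⟩
  have I1 := hh_submod P (fun a => (c.X a, c.X' a, c.p a)) (fun a => ((c.O a).1, c.t a, c.p a))
    (fun a => (c.X' a, (c.O a).1, c.t a, c.p a)) (fun a => (c.X a, c.p a))
    (fun a _ b _ h1 h2 => by
      simp only [Prod.mk.injEq] at h1
      rw [h1.2.1, h2])
    (fun a _ b _ h1 => by simp only [Prod.mk.injEq] at h1 ⊢; exact ⟨h1.1, h1.2.2⟩)
    (fun a _ b _ h1 => by
      simp only [Prod.mk.injEq] at h1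
      simp only [Cf.X, h1.1, h1.2.1, h1.2.2])
  have I2 : hh P (fun a => (c.t a, c.O a, c.p a)) ≤
      hh P (fun a => (c.O a, c.X' a, c.t a, c.p a)) :=
    hh_mono P _ _ fun a _ b _ h => by
      simp only [Prod.mk.injEq] at h ⊢; exact ⟨h.2.2.1, h.1, h.2.2.2⟩
  have I3 := entF hK hO (fun a => (c.X' a, c.t a, c.p a))
  have I4 := hh_submod P (fun a => ((c.O a).2.1, c.X' a, (c.O a).1))
    (fun a => (c.X' a, (c.O a).1, c.t a, c.p a))
    (fun a => ((c.O a).1, (c.O a).2.1, c.X' a, c.t a, c.p a)) (fun a => (c.X' a, (c.O a).1))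
    (fun a _ b _ h1 h2 => by
      simp only [Prod.mk.injEq] at h1 h2 ⊢
      exact ⟨h1.2.2, h1.1, h2.1, h2.2.2⟩)
    (fun a _ b _ h1 => by simp only [Prod.mk.injEq] at h1 ⊢; exact h1.2)
    (fun a _ b _ h1 => by simp only [Prod.mk.injEq] at h1 ⊢; exact ⟨h1.1, h1.2.1⟩)
  have I5 : hh P (fun a => ((c.O a).1, c.t a, c.p a)) ≤
      hh P (fun a => ((c.O a).1, c.p a)) + Real.log Q :=
    hh_count P _ _ c.t Q (fun a _ b _ h1 h2 => by
      simp only [Prod.mk.injEq] at h1 ⊢; exact ⟨h1.1, h2, h1.2⟩)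
      fun a _ => ⟨Finset.range Q, by simp, fun b hb _ => Finset.mem_range.2 (hH b hb).lt⟩
  have I6 : hh P (fun a => ((c.O a).1, c.p a)) ≤
      hh P (fun a => (dir Q (c.g (c.O a).1), c.p a)) + Real.log u :=
    hh_count P _ _ (fun a => (c.O a).1) u (fun a _ b _ h1 h2 => by
      simp only [Prod.mk.injEq] at h1 ⊢; exact ⟨h2, h1.2⟩)
      fun a _ => ⟨G.filter fun i => dir Q (c.g i) = dir Q (c.g (c.O a).1),
        hd _ (Finset.filter_subset _ _) _ fun i hi => (Finset.mem_filter.1 hi).2,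
        fun b hb h => Finset.mem_filter.2 ⟨(hO b hb).m1, (Prod.ext_iff.1 h).1⟩⟩
  -- the non-concentration term
  set W : Ω → ℕ × (Fin m → ℤ) × (Fin m → ℤ) := fun a => (w a, cls Q (w a) (c.g (c.O a).1)) with hW
  have F1 : hh P (fun a => (c.O a, c.p a)) ≤ hh P (fun a => (c.O a, c.Xi a, c.p a, W a)) :=
    hh_mono P _ _ fun a _ b _ h => by
      simp only [Prod.mk.injEq] at h ⊢; exact ⟨h.1, h.2.2.1⟩
  have F2 := entF hK hO (fun a => (c.Xi a, c.p a, W a))
  have F3 := hh_submod P (fun a => ((c.O a).1, c.Xi a, (c.O a).2.1))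
    (fun a => ((c.O a).2.1, c.Xi a, c.p a, W a))
    (fun a => ((c.O a).1, (c.O a).2.1, c.Xi a, c.p a, W a)) (fun a => (c.Xi a, (c.O a).2.1))
    (fun a _ b _ h1 h2 => by
      simp only [Prod.mk.injEq] at h1
      rw [h1.1, h2])
    (fun a _ b _ h1 => by simp only [Prod.mk.injEq] at h1 ⊢; exact h1.2)
    (fun a _ b _ h1 => by simp only [Prod.mk.injEq] at h1 ⊢; exact ⟨h1.2.1, h1.1⟩)
  have F4 := entG hQ hK hy hO hH hd hu W
  have F5 := hh_submod P (fun a => (c.Xi a, W a))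
    (fun a => (w a, cls Q (w a) (c.g (c.O a).1), c.p a))
    (fun a => (c.Xi a, c.p a, W a)) W
    (fun a _ b _ h1 h2 => by
      simp only [Prod.mk.injEq] at h1 h2 ⊢
      exact ⟨h1.1, h2.2.2, h1.2⟩)
    (fun a _ b _ h1 => (Prod.ext_iff.1 h1).2)
    (fun a _ b _ h1 => by
      simp only [Prod.mk.injEq] at h1
      exact Prod.ext h1.1 h1.2.1)
  have e1 := hh_le_log P c.Xi E _ le_rfl hXi
  have F6 := hh_subadd P c.Xi W (fun a => (c.Xi a, W a)) fun a _ b _ h1 h2 => by rw [h1, h2]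
  have F7 := hh_submod P (fun a => (c.Xi a, w a)) (fun a => (cc Q (w a) (c.Xi a), W a))
    (fun a => (c.Xi a, W a)) (fun a => (w a, cc Q (w a) (c.Xi a)))
    (fun a _ b _ h1 h2 => by
      simp only [Prod.mk.injEq] at h1 h2 ⊢
      exact ⟨h1.1, h2.2⟩)
    (fun a _ b _ h1 => by
      simp only [Prod.mk.injEq] at h1
      rw [h1.1, h1.2])
    (fun a _ b _ h1 => Prod.ext (Prod.ext_iff.1 (Prod.ext_iff.1 h1).2).1 (Prod.ext_iff.1 h1).1)
  have F8 : hh P (fun a => (c.Xi a, w a)) ≤ hh P c.Xi + Real.log (2 * Real.log Q + 1) :=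
    hh_count P _ _ w _ (fun a _ b _ h1 h2 => by rw [h1, h2])
      fun a _ => ⟨Finset.range (Nat.log 2 Q + 1), by
        rw [Finset.card_range]; exact log_card_le hQ,
        fun b hb _ => Finset.mem_range.2 (two_pow_lt (hw b hb))⟩
  have F9 : hh P (fun a => (cc Q (w a) (c.Xi a), W a)) ≤
      hh P W + (Real.log 2 * P.E fun a => (w a : ℝ)) + m * kap K := entH hQ hK hy hO hH w hw
  have F10 := H4 w hw
  -- assembling
  set q := Real.log Q
  set e := Real.log E.card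
  set κ := kap K
  set LM := Real.log (cM m Q K u)
  set J := Real.log (2 * q + 1)
  set Wv := Real.log 2 * P.E fun a => (w a : ℝ)
  set hOp := hh P (fun a => (c.O a, c.p a))
  set htOp := hh P (fun a => (c.t a, c.O a, c.p a))
  set hXp := hh P (fun a => (c.X a, c.p a))
  set hXXp := hh P (fun a => (c.X a, c.X' a, c.p a))
  set hcl := hh P (fun a => (w a, cls Q (w a) (c.g (c.O a).1), c.p a))
  set hdir := hh P (fun a => (dir Q (c.g (c.O a).1), c.p a))
  set A := hh P (fun a => (c.Xi a, W a)) - hh P W with hA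
  have hm : (0 : ℝ) ≤ m := Nat.cast_nonneg m
  have g1 : 2 * lam - q - 3 * κ ≤ htOp - hOp := by linarith
  have g2 : hOp - hdir ≤ (hXXp - hXp) - (htOp - hOp) + q + LM - lam + κ + Real.log u := by linarith
  have g3 : hOp - hcl ≤ A + m * κ + Real.log u + LM - lam + κ := by linarith
  have g4 : A ≤ e := by linarith
  have g5 : A + Wv ≤ e + J + 3 * (q - lam) + c1 + m * κ := by linarith
  have g6 : hh P c.O + 3 * lam - 2 * e - q - (m + 4) * κ ≤ htOp - hXXp := by linarith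
  have m1 := mul_le_mul_of_nonneg_left g1 (show 0 ≤ D - 1 + φ by linarith)
  have m2 := mul_le_mul_of_nonneg_left g2 h0
  have m3 := mul_le_mul_of_nonneg_left g3 (show 0 ≤ 1 - φ by linarith)
  have m4 := mul_le_mul_of_nonneg_left g4 (show 0 ≤ 1 - φ - β by linarith)
  have m5 := mul_le_mul_of_nonneg_left g5 hβ
  have m6 : 0 ≤ (1 - φ) * (hXXp - hXp) := mul_nonneg (by linarith) (by linarith)
  have m7 : 0 ≤ (1 - β) * (J + c1 + m * κ) := mul_nonneg (by linarith) (by positivity)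
  have m8 : 0 ≤ φ * (m * κ) := by positivity
  have m9 : 0 ≤ (1 - φ) * κ := mul_nonneg (by linarith) hκ
  nlinarith

end Pool.Agent.MP_5168f5_an.H29
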