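import Pool.Agent.MP_5168f5_an.H29.PivGeo

/-! Entropy bounds for the pivot configuration. -/

namespace Pool.Agent.MP_5168f5_an.H29

open Finset H19 Setoid

variable {m : ℕ} {ι Ω : Type}

/-- A crossing together with three heights. -/
structure Cf (m : ℕ) (ι Ω : Type) where
  g : ι → Line m
  O : Ω → ι × ι × ℕ
  s : Ω → ℕ
  t : Ω → ℕ
  t' : Ω → ℕ

namespace Cf

variable (c : Cf m ι Ω)

/-- The first shaded point. -/
noncomputable def X (a : Ω) : Pt m := (cell (c.g (c.O a).1) (c.t a), c.t a)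

/-- The shaded point of the second line. -/
noncomputable def X' (a : Ω) : Pt m := (cell (c.g (c.O a).2.1) (c.t' a), c.t' a)

/-- The third shaded point. -/
noncomputable def Xi (a : Ω) : Pt m := (cell (c.g (c.O a).1) (c.s a), c.s a)

/-- The rounded height of the pivot. -/
noncomputable def b (a : Ω) : ℤ := bet (c.O a).2.2 (c.s a) (c.t a) (c.t' a)

/-- The pivot. -/
noncomputable def p (a : Ω) : (Fin m → ℤ) × ℤ :=
  piv (c.g (c.O a).1) (c.g (c.O a).2.1) (c.s a) (c.b a)

/-- All the data. -/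
def all (a : Ω) : (ι × ι × ℕ) × ℕ × ℕ × ℕ := (c.O a, c.s a, c.t a, c.t' a)

theorem all_eq {a b : Ω} : c.all a = c.all b ↔
    c.O a = c.O b ∧ c.s a = c.s b ∧ c.t a = c.t b ∧ c.t' a = c.t' b := by
  simp only [all, Prod.mk.injEq]

end Cf

/-- The logarithmic cost of an approximate determination. -/
noncomputable def kap (K : ℝ) : ℝ := Real.log (100 * K ^ 3)

theorem log_le_kap {K x : ℝ} (hx : 0 < x) (h : x ≤ 100 * K ^ 3) : Real.log x ≤ kap K :=
  Real.log_le_log hx h

theorem kap_nonneg {K : ℝ} (hK : 1 ≤ K) : 0 ≤ kap K :=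
  Real.log_nonneg (by have := one_le_pow₀ (n := 3) hK; linarith)

theorem log_mul_le {K x y : ℝ} (hx : 0 < x) (hy : 0 < y) (h : x ≤ 100 * K ^ 3) :
    Real.log (x * y) ≤ kap K + Real.log y := by
  rw [Real.log_mul hx.ne' hy.ne']
  linarith [log_le_kap hx h]

theorem log_pow_le {K x : ℝ} (hx : 0 < x) (h : x ≤ 100 * K ^ 3) (n : ℕ) :
    Real.log (x ^ n) ≤ n * kap K := by
  rw [Real.log_pow]
  exact mul_le_mul_of_nonneg_left (log_le_kap hx h) (Nat.cast_nonneg _)

section

variable {c : Cf m ι Ω} {P : FP Ω} {Q : ℕ} {K l u : ℝ} {G : Finset ι} {Y : ι → Finset ℕ}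
  (hQ : 0 < Q) (hK : 1 ≤ K) (hy : ∀ i ∈ G, ∀ k, |(c.g i).2 k| ≤ 1)
  (hO : ∀ a ∈ P.S, Cross Q K l G c.g Y (c.O a))
  (hH : ∀ a ∈ P.S, Hts Q K (c.O a).2.2 (c.s a) (c.t a) (c.t' a))

include hQ hK hy hO hH

theorem entA : hh P (fun a => (c.X a, c.X' a, c.p a)) ≤
    hh P (fun a => (c.X a, c.X' a)) + Real.log Q + (m + 2) * kap K := by
  have hQ1 : (1 : ℝ) ≤ Q := by exact_mod_cast hQ
  have k1 : K ≤ K ^ 3 := le_self_pow₀ hK (by norm_num)
  have k2 : K ^ 2 ≤ K ^ 3 := pow_le_pow_right₀ hK (by norm_num)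
  have k3 : K ≤ K ^ 2 := le_self_pow₀ hK (by norm_num)
  set γ : Ω → ℝ := fun a => gam (c.O a).2.2 (c.s a) (c.t a) with hγ
  have h1 := hh_count P (fun a => (c.X a, c.X' a, ⌊Q * γ a⌋)) (fun a => (c.X a, c.X' a))
    (fun a => ⌊Q * γ a⌋) (5 * K * Q) (fun a _ b _ h1 h2 => by
      simp only [Prod.mk.injEq] at h1 ⊢; exact ⟨h1.1, h1.2, h2⟩) (fun a _ =>
      ⟨seg ⌊(0 : ℝ)⌋ (K * Q), (card_seg_le _ (by positivity)).trans (by nlinarith), fun b hb _ =>
        floor_mem_seg (by
          rw [sub_zero, abs_mul, Nat.abs_cast, mul_comm]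
          exact mul_le_mul_of_nonneg_right ((hH b hb).gam_le hQ) (by positivity))⟩)
  have h2 := hh_count P (fun a => (c.X a, c.X' a, c.p a)) (fun a => (c.X a, c.X' a, ⌊Q * γ a⌋))
    c.p ((33 * K ^ 2) ^ (m + 1)) (fun a _ b _ h1 h2 => by
      simp only [Prod.mk.injEq] at h1 ⊢; exact ⟨h1.1, h1.2.1, h2⟩) (fun a ha =>
      ⟨cube (c.p a).1 (15 * K ^ 2) ×ˢ seg (c.p a).2 3, by
        rw [Finset.card_product, Nat.cast_mul, pow_succ (33 * K ^ 2)]
        refine mul_le_mul ((card_cube_le _ (by positivity)).trans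
          (pow_le_pow_left₀ (by positivity) (by nlinarith) m))
          ((card_seg_le _ (by norm_num)).trans (by nlinarith)) (Nat.cast_nonneg _) (by positivity),
      fun b hb h => by
        simp only [Cf.X, Cf.X', Prod.mk.injEq] at h
        obtain ⟨⟨e1, e2⟩, ⟨e3, e4⟩, e5⟩ := h
        have hg : |γ b - γ a| ≤ 1 / Q := by
          have := abs_of_floor e5
          rw [← mul_sub, abs_mul, Nat.abs_cast] at this
          rw [le_div_iff₀ (by positivity)]; linarith
        refine Finset.mem_product.2 ⟨floor_mem_cube fun k => ?_, int_mem_seg ?_⟩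
        · have n1 := piv_near hQ hK (hH a ha) (hO a ha).near (hy _ (hO a ha).m2) k
          have n2 := piv_near hQ hK (hH b hb) (hO b hb).near (hy _ (hO b hb).m2) k
          have n3 := cells_le hQ hK (hH a ha) (hO a ha).near (hy _ (hO a ha).m1)
            (hy _ (hO a ha).m2) k
          rw [e1, e3] at n2
          have n4 := abs_mul_le' hg n3
          have n5 : 1 / (Q : ℝ) * (5 * K * Q) = 5 * K := by field_simp
          rw [abs_le] at n1 n2 n4 ⊢
          simp only [hγ, Cf.b] at n4 ⊢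
          constructor <;> nlinarith
        · have n1 := piv_height hQ (hH a ha)
          have n2 := piv_height hQ (hH b hb)
          rw [e2, e4] at n2
          have n3 := abs_mul_le' hg (abs_nat_sub_le (hH a ha).lt' (hH a ha).lt)
          have n5 : 1 / (Q : ℝ) * Q = 1 := by field_simp
          rw [abs_le] at n1 n2 n3 ⊢
          simp only [hγ, Cf.p, piv, Cf.b, e2, e4] at n3 ⊢
          constructor <;> nlinarith⟩)
  have h3 := log_mul_le (K := K) (x := 5 * K) (y := Q) (by positivity) (by positivity) (by linarith)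
  have h4 := log_pow_le (K := K) (x := 33 * K ^ 2) (by positivity) (by nlinarith) (m + 1)
  push_cast at h4
  linarith

omit hy in
theorem entB : hh P c.all ≤ hh P (fun a => (c.t a, c.O a, c.p a)) + 2 * kap K := by
  have k1 : K ≤ K ^ 3 := le_self_pow₀ hK (by norm_num)
  have h1 := hh_count P (fun a => (c.s a, c.t a, c.O a, c.p a)) (fun a => (c.t a, c.O a, c.p a))
    (fun a => (c.s a : ℤ)) (2 * K + 3) (fun a _ b _ h1 h2 => by
      rw [h1, Nat.cast_injective h2]) (fun a ha =>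
      ⟨seg (c.s a) K, card_seg_le _ (by linarith), fun b hb h => by
        simp only [Prod.mk.injEq] at h
        have h2 := h.2.2
        unfold Cf.p at h2
        rw [h.2.1] at h2
        exact int_mem_seg (s_near (hO a ha).ang hK h2)⟩)
  have h2 := hh_count P c.all (fun a => (c.s a, c.t a, c.O a, c.p a))
    (fun a => (c.t' a : ℤ)) (2 * K + 3) (fun a _ b _ h1 h2 => by
      simp only [Prod.mk.injEq] at h1
      exact c.all_eq.2 ⟨h1.2.2.1, h1.1, h1.2.1, Nat.cast_injective h2⟩) (fun a ha =>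
      ⟨seg (c.t' a) K, card_seg_le _ (by linarith), fun b hb h => by
        simp only [Prod.mk.injEq] at h
        obtain ⟨e1, e2, e3, e4⟩ := h
        have h2 : (c.s b : ℤ) + c.b b = c.s a + c.b a := (Prod.ext_iff.1 e4).2
        have h3 : c.b b = c.b a := by omega
        unfold Cf.b at h3
        have h4 := hH b hb
        rw [e1, e2, e3] at h3 h4
        exact int_mem_seg (t'_near hQ hK h4 h3)⟩)
  have h3 := log_le_kap (K := K) (x := 2 * K + 3) (by positivity) (by linarith)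
  linarith

omit hy hO in
theorem entC : hh P (fun a => (c.O a, c.p a)) ≤
    hh P (fun a => (c.O a, c.s a)) + Real.log Q + kap K := by
  have hQ1 : (1 : ℝ) ≤ Q := by exact_mod_cast hQ
  have k1 : K ≤ K ^ 3 := le_self_pow₀ hK (by norm_num)
  have h1 := hh_count P (fun a => (c.O a, c.p a)) (fun a => (c.O a, c.s a)) c.b (7 * K * Q)
    (fun a _ b _ h1 h2 => by
      simp only [Prod.mk.injEq] at h1
      simp only [Cf.p, h1.1, h1.2, h2]) (fun a _ =>
      ⟨seg 0 (K * Q + 1), (card_seg_le _ (by positivity)).trans (by nlinarith), fun b hb _ =>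
        int_mem_seg ((hH b hb).bet_le hQ)⟩)
  have h3 := log_mul_le (K := K) (x := 7 * K) (y := Q) (by positivity) (by positivity) (by linarith)
  linarith

omit hQ hy hH in
theorem entF {ζ : Type} (W : Ω → ζ) : hh P (fun a => (c.O a, W a)) ≤
    hh P (fun a => ((c.O a).1, (c.O a).2.1, W a)) + kap K := by
  have k1 : 1 ≤ K ^ 3 := one_le_pow₀ hK
  have k2 : K ^ 2 ≤ K ^ 3 := pow_le_pow_right₀ hK (by norm_num)
  have h1 := hh_count P (fun a => (c.O a, W a)) (fun a => ((c.O a).1, (c.O a).2.1, W a))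
    (fun a => ((c.O a).2.2 : ℤ)) (2 * (2 * K ^ 2) + 3) (fun a _ b _ h1 h2 => by
      simp only [Prod.mk.injEq] at h1 ⊢
      exact ⟨Prod.ext h1.1 (Prod.ext h1.2.1 (Nat.cast_injective h2)), h1.2.2⟩) (fun a ha =>
      ⟨seg (c.O a).2.2 (2 * K ^ 2), card_seg_le _ (by positivity), fun b hb h => by
        simp only [Prod.mk.injEq] at h
        have h2 := (hO b hb).near
        rw [h.1, h.2.1] at h2
        exact int_mem_seg (t0_near (hO a ha).ang hK h2 (hO a ha).near)⟩)
  have h3 := log_le_kap (K := K) (x := 2 * (2 * K ^ 2) + 3) (by positivity) (by linarith)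
  linarith

theorem entG (hd : DirM Q G c.g u) (hu : 1 ≤ u) {ζ : Type} (W : Ω → ζ) :
    hh P (fun a => ((c.O a).2.1, c.Xi a, c.p a, W a)) ≤
      hh P (fun a => (c.Xi a, c.p a, W a)) + m * kap K + Real.log u := by
  classical
  have k1 : 1 ≤ K ^ 3 := one_le_pow₀ hK
  have k2 : K ^ 2 ≤ K ^ 3 := pow_le_pow_right₀ hK (by norm_num)
  have h1 := hh_count P (fun a => ((c.O a).2.1, c.Xi a, c.p a, W a))
    (fun a => (c.Xi a, c.p a, W a)) (fun a => (c.O a).2.1) ((2 * (4 * K ^ 2) + 3) ^ m * u)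
    (fun a _ b _ h1 h2 => by rw [h1, h2]) (fun a ha =>
      ⟨G.filter fun i => ∀ k, |Q * (c.g i).2 k - Q * (c.g (c.O a).2.1).2 k| ≤ 4 * K ^ 2,
        hd.ball (by linarith) (Finset.filter_subset _ _) _ (by positivity)
          fun i hi => (Finset.mem_filter.1 hi).2, fun b hb h => by
        simp only [Cf.Xi, Prod.mk.injEq] at h
        obtain ⟨⟨e1, e2⟩, e3, -⟩ := h
        refine Finset.mem_filter.2 ⟨(hO b hb).m2, ?_⟩
        unfold Cf.p at e3
        rw [← e2] at e1 e3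
        exact dir_near' hK ((hH b hb).le_bet hQ hK) e1 e3 (hy _ (hO b hb).m2) (hy _ (hO a ha).m2)⟩)
  rw [Real.log_mul (by positivity) (by positivity)] at h1
  have h3 := log_pow_le (K := K) (x := 2 * (4 * K ^ 2) + 3) (by positivity) (by linarith) m
  linarith

theorem entD (hd : DirM Q G c.g u) :
    hh P (fun a => ((c.O a).2.1, c.X' a, (c.O a).1)) +
      (hh P c.all - hh P (fun a => (c.O a, c.s a, c.t a))) ≤
      hh P (fun a => (c.X' a, (c.O a).1)) + Real.log (cM m Q K u) := by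
  have h1 := cord P (fun a => (c.O a).1) (fun a => (c.O a).2.1) c.t' c.X' (cM m Q K u) (by
    intro a ha
    obtain ⟨W, h1, h2⟩ := cordW hQ hK hy hd (hO a ha).m1 (hO a ha).m2 (hO a ha).ang
    refine ⟨W, h1, fun b hb d hd' e1 e2 e3 e4 => ?_⟩
    simp only [Cf.X', Prod.mk.injEq] at e4
    refine h2 _ (hH b hb).lt' _ (hO d hd').m2 ?_ (c.O a).2.2 (c.O d).2.2 (hO a ha).near ?_ ?_
    · rw [← e2, ← e4.1, e4.2]
    · rw [← e3]; exact (hO d hd').near
    · rw [← e4.2]; exact (hH d hd').ft')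
  have h2 := hh_submod P (fun a => (c.t' a, (c.O a).2.1, (c.O a).1))
    (fun a => (c.O a, c.s a, c.t a)) c.all (fun a => ((c.O a).2.1, (c.O a).1))
    (fun a _ b _ h1 h2 => by
      simp only [Prod.mk.injEq] at h1 h2
      exact c.all_eq.2 ⟨h2.1, h2.2.1, h2.2.2, h1.1⟩)
    (fun a _ b _ h1 => by simp only [Prod.mk.injEq] at h1 ⊢; exact h1.2)
    (fun a _ b _ h1 => by simp only [Prod.mk.injEq] at h1; rw [h1.1])
  linarith

theorem entE (hd : DirM Q G c.g u) :
    hh P (fun a => ((c.O a).1, c.Xi a, (c.O a).2.1)) +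
      (hh P (fun a => (c.O a, c.s a)) - hh P c.O) ≤
      hh P (fun a => (c.Xi a, (c.O a).2.1)) + Real.log (cM m Q K u) := by
  have h1 := cord P (fun a => (c.O a).2.1) (fun a => (c.O a).1) c.s c.Xi (cM m Q K u) (by
    intro a ha
    obtain ⟨W, h1, h2⟩ := cordW hQ hK hy hd (hO a ha).m2 (hO a ha).m1 (by
      obtain ⟨k, hk⟩ := (hO a ha).ang
      exact ⟨k, by rwa [abs_sub_comm]⟩)
    refine ⟨W, h1, fun b hb d hd' e1 e2 e3 e4 => ?_⟩
    simp only [Cf.Xi, Prod.mk.injEq] at e4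
    refine h2 _ (hH b hb).ls _ (hO d hd').m1 ?_ (c.O a).2.2 (c.O d).2.2
      (Near.symm (hO a ha).near) ?_ ?_
    · rw [← e2, ← e4.1, e4.2]
    · rw [← e3]; exact Near.symm (hO d hd').near
    · rw [← e4.2]; exact (hH d hd').fs)
  have h2 := hh_submod P (fun a => (c.s a, (c.O a).1, (c.O a).2.1))
    c.O (fun a => (c.O a, c.s a)) (fun a => ((c.O a).1, (c.O a).2.1))
    (fun a _ b _ h1 h2 => by
      simp only [Prod.mk.injEq] at h1 ⊢
      exact ⟨h2, h1.1⟩)
    (fun a _ b _ h1 => by simp only [Prod.mk.injEq] at h1 ⊢; exact h1.2)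
    (fun a _ b _ h1 => by rw [h1])
  linarith

theorem entH (w : Ω → ℕ) (hw : ∀ a ∈ P.S, 2 ^ w a ≤ Q) :
    hh P (fun a => (cc Q (w a) (c.Xi a), w a, cls Q (w a) (c.g (c.O a).1))) ≤
      hh P (fun a => (w a, cls Q (w a) (c.g (c.O a).1))) +
        (Real.log 2 * P.E fun a => (w a : ℝ)) + m * kap K := by
  have k1 : 1 ≤ K ^ 3 := one_le_pow₀ hK
  have hQ0 : (0 : ℝ) < Q := by exact_mod_cast hQ
  have h1 : hh P (fun a => ((cc Q (w a) (c.Xi a)).2, w a, cls Q (w a) (c.g (c.O a).1))) ≤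
      hh P (fun a => (w a, cls Q (w a) (c.g (c.O a).1))) + P.E fun a => Real.log (2 ^ w a) := by
    refine P.count _ _ (fun a => (cc Q (w a) (c.Xi a)).2) (fun a => 2 ^ w a) ?_ ?_ ?_
    · intro a _ b _ h1 h2
      simp only [ker_def] at h1 ⊢
      rw [h1, h2]
    · intro a _ b _ h1
      simp only [ker_def, Prod.mk.injEq] at h1
      rw [h1.1]
    · intro a _
      refine ⟨Finset.Ico 0 (2 ^ w a), by
        rw [Int.card_Ico, sub_zero, show (2 : ℤ) ^ w a = ((2 ^ w a : ℕ) : ℤ) by push_cast; rfl,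
          Int.toNat_natCast]
        push_cast; exact le_rfl, fun b hb h1 => ?_⟩
      simp only [ker_def, Prod.mk.injEq] at h1
      rw [← h1.1, Finset.mem_Ico]
      simp only [cc, Cf.Xi]
      refine ⟨Int.floor_nonneg.2 (by positivity), Int.floor_lt.2 ?_⟩
      have : (c.s b : ℝ) < Q := by exact_mod_cast (hH b hb).ls
      push_cast
      rw [div_lt_iff₀ hQ0]
      exact mul_lt_mul_of_pos_left this (by positivity)
  have h2 := hh_count P (fun a => (cc Q (w a) (c.Xi a), w a, cls Q (w a) (c.g (c.O a).1)))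
    (fun a => ((cc Q (w a) (c.Xi a)).2, w a, cls Q (w a) (c.g (c.O a).1)))
    (fun a => (cc Q (w a) (c.Xi a)).1) ((2 * 5 + 3) ^ m) (fun a _ b _ h1 h2 => by
      simp only [Prod.mk.injEq] at h1 ⊢
      exact ⟨Prod.ext h2 h1.1, h1.2⟩) (fun a ha =>
      ⟨cube (cc Q (w a) (c.Xi a)).1 5, card_cube_le _ (by norm_num), fun b hb h => by
        simp only [Prod.mk.injEq] at h
        obtain ⟨e1, e2, e3⟩ := h
        rw [e2] at e1 e3 ⊢
        exact floor_mem_cube (cc_near hQ (hw a ha) (hy _ (hO b hb).m1) (hH a ha).ls e3 e1)⟩)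
  have h3 := log_pow_le (K := K) (x := 2 * 5 + 3) (by positivity) (by linarith) m
  have h4 : (P.E fun a => Real.log (2 ^ w a)) = Real.log 2 * P.E fun a => (w a : ℝ) := by
    rw [← FP.E_mul]
    exact P.E_congr fun a _ => by rw [Real.log_pow, mul_comm]
  linarith

end

end Pool.Agent.MP_5168f5_an.H29
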