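import Pool.Agent.MP_5168f5_an.H29.Coll

/-! Geometry of the pivot. -/

namespace Pool.Agent.MP_5168f5_an.H29

open Finset H19 Setoid

variable {m : ℕ} {ι : Type}

/-- The ratio locating the pivot on the line through the two shaded points. -/
noncomputable def gam (t0 s t : ℕ) : ℝ := ((t : ℝ) - s) / ((t : ℝ) - t0)

/-- The rounded height of the pivot above the third point. -/
noncomputable def bet (t0 s t t' : ℕ) : ℤ := ⌊((t' : ℝ) - t0) * gam t0 s t⌋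

/-- The pivot. -/
noncomputable def piv (g g' : Line m) (s : ℕ) (b : ℤ) : (Fin m → ℤ) × ℤ :=
  (fun k => ⌊pos g s k + b * g'.2 k⌋, s + b)

/-- Four heights in general position. -/
structure Hts (Q : ℕ) (K : ℝ) (t0 s t t' : ℕ) : Prop where
  l0 : t0 < Q
  ls : s < Q
  lt : t < Q
  lt' : t' < Q
  fs : (Q : ℝ) ≤ K * |(s : ℝ) - t0|
  ft : (Q : ℝ) ≤ K * |(t : ℝ) - t0|
  fts : (Q : ℝ) ≤ K * |(t : ℝ) - s|
  ft' : (Q : ℝ) ≤ K * |(t' : ℝ) - t0|

section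

variable {Q : ℕ} {K : ℝ} {t0 s t t' : ℕ} (hQ : 0 < Q) (hK : 1 ≤ K)
include hQ

theorem Hts.gam_le (h : Hts Q K t0 s t t') : |gam t0 s t| ≤ K := by
  unfold gam
  rw [abs_div, div_le_iff₀ (abs_pos.2 (far_ne hQ h.ft))]
  exact (abs_nat_sub_le h.lt h.ls).trans h.ft

theorem Hts.le_gam (h : Hts Q K t0 s t t') : 1 ≤ K * |gam t0 s t| := by
  unfold gam
  rw [abs_div, ← mul_div_assoc, le_div_iff₀ (abs_pos.2 (far_ne hQ h.ft)), one_mul]
  exact (abs_nat_sub_le h.lt h.l0).trans h.fts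

theorem Hts.bet_le (h : Hts Q K t0 s t t') : |(bet t0 s t t' : ℝ) - (0 : ℤ)| ≤ K * Q + 1 := by
  have h1 := abs_mul_le' (abs_nat_sub_le h.lt' h.l0) (h.gam_le hQ)
  have h2 := abs_frac (((t' : ℝ) - t0) * gam t0 s t)
  have h3 := abs_sub (((t' : ℝ) - t0) * gam t0 s t)
    (((t' : ℝ) - t0) * gam t0 s t - ⌊((t' : ℝ) - t0) * gam t0 s t⌋)
  rw [sub_sub_cancel] at h3
  unfold bet
  push_cast
  rw [sub_zero]
  linarith

include hK

theorem Hts.le_bet (h : Hts Q K t0 s t t') : (Q : ℝ) ≤ K ^ 2 * (|(bet t0 s t t' : ℝ)| + 1) := by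
  have h1 := h.le_gam hQ
  have h2 := abs_frac (((t' : ℝ) - t0) * gam t0 s t)
  have h3 := abs_add_le (((t' : ℝ) - t0) * gam t0 s t - ⌊((t' : ℝ) - t0) * gam t0 s t⌋)
    (⌊((t' : ℝ) - t0) * gam t0 s t⌋ : ℝ)
  rw [sub_add_cancel, abs_mul] at h3
  have h4 : (Q : ℝ) * 1 ≤ (K * |(t' : ℝ) - t0|) * (K * |gam t0 s t|) :=
    mul_le_mul h.ft' h1 zero_le_one (by positivity)
  have h5 : K ^ 2 * (|(t' : ℝ) - t0| * |gam t0 s t|) ≤ K ^ 2 * (|(bet t0 s t t' : ℝ)| + 1) :=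
    mul_le_mul_of_nonneg_left (by unfold bet; linarith) (by positivity)
  nlinarith

/-- The pivot is close to the line through the two shaded cells. -/
theorem piv_near {g g' : Line m} (h : Hts Q K t0 s t t') (hn : Near K g g' t0)
    (hy' : ∀ k, |g'.2 k| ≤ 1) (k : Fin m) :
    |pos g s k + bet t0 s t t' * g'.2 k -
      (cell g t k + gam t0 s t * ((cell g' t' k : ℝ) - cell g t k))| ≤ 5 * K ^ 2 := by
  have hne := far_ne hQ h.ft
  have e : pos g s k + bet t0 s t t' * g'.2 k -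
      (cell g t k + gam t0 s t * ((cell g' t' k : ℝ) - cell g t k)) =
      (pos g t k - cell g t k) + gam t0 s t * ((pos g' t' k - cell g' t' k) -
        (pos g t k - cell g t k)) + gam t0 s t * (pos g t0 k - pos g' t0 k) -
        (((t' : ℝ) - t0) * gam t0 s t - bet t0 s t t') * g'.2 k := by
    unfold pos gam; field_simp; ring
  have b1 := pos_sub_cell g t k
  have b2 := pos_sub_cell g' t' k
  have b3 : |(pos g' t' k - cell g' t' k) - (pos g t k - cell g t k)| ≤ 2 :=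
    (abs_sub _ _).trans (by linarith)
  have b4 := abs_mul_le' (h.gam_le hQ) b3
  have b5 := abs_mul_le' (h.gam_le hQ) (hn k)
  have b6 := abs_mul_le' (abs_frac (((t' : ℝ) - t0) * gam t0 s t)) (hy' k)
  have k1 : K ≤ K ^ 2 := le_self_pow₀ hK (by norm_num)
  rw [e]
  refine (abs_sub _ _).trans ?_
  have b7 := abs_add_three (pos g t k - cell g t k) (gam t0 s t * ((pos g' t' k - cell g' t' k) -
        (pos g t k - cell g t k))) (gam t0 s t * (pos g t0 k - pos g' t0 k))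
  unfold bet
  nlinarith

theorem cells_le {g g' : Line m} (h : Hts Q K t0 s t t') (hn : Near K g g' t0)
    (hy : ∀ k, |g.2 k| ≤ 1) (hy' : ∀ k, |g'.2 k| ≤ 1) (k : Fin m) :
    |(cell g' t' k : ℝ) - cell g t k| ≤ 5 * K * Q := by
  have hQ1 : (1 : ℝ) ≤ Q := by exact_mod_cast hQ
  have e : (cell g' t' k : ℝ) - cell g t k = ((pos g t k - cell g t k) -
      (pos g' t' k - cell g' t' k) - (pos g t0 k - pos g' t0 k)) +
      (((t' : ℝ) - t0) * g'.2 k - ((t : ℝ) - t0) * g.2 k) := by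
    unfold pos; ring
  have b1 := pos_sub_cell g t k
  have b2 := pos_sub_cell g' t' k
  have b3 := abs_mul_le' (abs_nat_sub_le h.lt' h.l0) (hy' k)
  have b4 := abs_mul_le' (abs_nat_sub_le h.lt h.l0) (hy k)
  have b5 := abs_sub (((t' : ℝ) - t0) * g'.2 k) (((t : ℝ) - t0) * g.2 k)
  have b6 := abs_sub ((pos g t k - cell g t k) - (pos g' t' k - cell g' t' k))
    (pos g t0 k - pos g' t0 k)
  have b7 := abs_sub (pos g t k - cell g t k) (pos g' t' k - cell g' t' k)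
  have b8 := hn k
  rw [e]
  refine (abs_add_le _ _).trans ?_
  nlinarith

omit hK in
theorem piv_height (h : Hts Q K t0 s t t') :
    |((s + bet t0 s t t' : ℤ) : ℝ) - (t + gam t0 s t * ((t' : ℝ) - t))| ≤ 1 := by
  have hne := far_ne hQ h.ft
  have e : ((s + bet t0 s t t' : ℤ) : ℝ) - (t + gam t0 s t * ((t' : ℝ) - t)) =
      -(((t' : ℝ) - t0) * gam t0 s t - bet t0 s t t') := by
    push_cast; unfold gam; field_simp; ring
  rw [e, abs_neg]
  exact abs_frac _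

end

/-- The pivot determines the third height. -/
theorem s_near {K : ℝ} {g g' : Line m} (hang : ∃ k, 1 ≤ K * |g.2 k - g'.2 k|) (hK : 1 ≤ K)
    {s s' : ℕ} {b b' : ℤ} (h : piv g g' s b = piv g g' s' b') : |((s : ℤ) : ℝ) - (s' : ℤ)| ≤ K := by
  obtain ⟨k, hk⟩ := hang
  have h1 := abs_of_floor (congrFun (Prod.ext_iff.1 h).1 k)
  have h2 : (s : ℤ) + b = s' + b' := (Prod.ext_iff.1 h).2
  have h3 : (b : ℝ) = s' + b' - s := by
    have : ((s : ℤ) : ℝ) + b = (s' : ℤ) + b' := by exact_mod_cast h2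
    push_cast at this; linarith
  have e : pos g s k + b * g'.2 k - (pos g s' k + b' * g'.2 k) =
      ((s : ℝ) - s') * (g.2 k - g'.2 k) := by
    rw [h3]; unfold pos; ring
  rw [e, abs_mul] at h1
  push_cast
  have h4 := abs_nonneg ((s : ℝ) - s')
  nlinarith

theorem t'_near {Q : ℕ} {K : ℝ} {t0 s t t' t'' : ℕ} (hQ : 0 < Q) (hK : 1 ≤ K)
    (h : Hts Q K t0 s t t') (e : bet t0 s t t' = bet t0 s t t'') :
    |((t' : ℤ) : ℝ) - (t'' : ℤ)| ≤ K := by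
  have h1 := abs_of_floor e
  have h2 := h.le_gam hQ
  rw [← sub_mul, abs_mul, sub_sub_sub_cancel_right] at h1
  push_cast
  have h4 := abs_nonneg ((t' : ℝ) - t'')
  nlinarith

theorem t0_near {K : ℝ} {g g' : Line m} (hang : ∃ k, 1 ≤ K * |g.2 k - g'.2 k|) (hK : 1 ≤ K)
    {t0 t1 : ℕ} (h0 : Near K g g' t0) (h1 : Near K g g' t1) :
    |((t0 : ℤ) : ℝ) - (t1 : ℤ)| ≤ 2 * K ^ 2 := by
  obtain ⟨k, hk⟩ := hang
  have e : (pos g t0 k - pos g' t0 k) - (pos g t1 k - pos g' t1 k) =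
      ((t0 : ℝ) - t1) * (g.2 k - g'.2 k) := by unfold pos; ring
  have h2 := abs_sub (pos g t0 k - pos g' t0 k) (pos g t1 k - pos g' t1 k)
  rw [e, abs_mul] at h2
  have h3 := h0 k
  have h4 := h1 k
  push_cast
  have h5 := abs_nonneg ((t0 : ℝ) - t1)
  have h6 : |(t0 : ℝ) - t1| * 1 ≤ |(t0 : ℝ) - t1| * (K * |g.2 k - g'.2 k|) :=
    mul_le_mul_of_nonneg_left hk h5
  have h7 : K * (|(t0 : ℝ) - t1| * |g.2 k - g'.2 k|) ≤ K * (2 * K) :=
    mul_le_mul_of_nonneg_left (by linarith) (by linarith)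
  nlinarith

theorem dir_near' {Q : ℕ} {K : ℝ} (hK : 1 ≤ K) {g1 g2 g1' g2' : Line m} {s : ℕ} {b b' : ℤ}
    (hb : (Q : ℝ) ≤ K ^ 2 * (|(b : ℝ)| + 1)) (hc : cell g1 s = cell g2 s)
    (h : piv g1 g1' s b = piv g2 g2' s b') (hy1 : ∀ k, |g1'.2 k| ≤ 1) (hy2 : ∀ k, |g2'.2 k| ≤ 1)
    (k : Fin m) : |Q * g1'.2 k - Q * g2'.2 k| ≤ 4 * K ^ 2 := by
  have h1 := abs_of_floor (congrFun (Prod.ext_iff.1 h).1 k)
  have h2 : (s : ℤ) + b = s + b' := (Prod.ext_iff.1 h).2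
  have h3 : b' = b := by omega
  subst h3
  have h4 := pos_close hc k
  have h5 : |(b' : ℝ)| * |g1'.2 k - g2'.2 k| ≤ 2 := by
    rw [← abs_mul]
    have e : (b' : ℝ) * (g1'.2 k - g2'.2 k) = (pos g1 s k + b' * g1'.2 k -
      (pos g2 s k + b' * g2'.2 k)) - (pos g1 s k - pos g2 s k) := by ring
    rw [e]
    exact (abs_sub _ _).trans (by linarith)
  have h6 : |g1'.2 k - g2'.2 k| ≤ 2 := (abs_sub _ _).trans (by linarith [hy1 k, hy2 k])
  rw [← mul_sub, abs_mul, Nat.abs_cast]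
  have h7 := abs_nonneg (g1'.2 k - g2'.2 k)
  have h8 : (Q : ℝ) * |g1'.2 k - g2'.2 k| ≤ K ^ 2 * (|(b' : ℝ)| + 1) * |g1'.2 k - g2'.2 k| :=
    mul_le_mul_of_nonneg_right hb h7
  have h9 : K ^ 2 * (|(b' : ℝ)| * |g1'.2 k - g2'.2 k| + |g1'.2 k - g2'.2 k|) ≤ K ^ 2 * 4 :=
    mul_le_mul_of_nonneg_left (by linarith) (by positivity)
  nlinarith

theorem cc_near {Q j : ℕ} (hQ : 0 < Q) (hj : 2 ^ j ≤ Q) {g g' : Line m} (hy : ∀ k, |g.2 k| ≤ 1)
    {s s' : ℕ} (hs : s' < Q) (hc : cls Q j g = cls Q j g')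
    (hh : ⌊(2 : ℝ) ^ j * s / Q⌋ = ⌊(2 : ℝ) ^ j * s' / Q⌋) (k : Fin m) :
    |(2 : ℝ) ^ j * cell g s k / Q - (2 : ℝ) ^ j * cell g' s' k / Q| ≤ 5 := by
  have hQ0 : (0 : ℝ) < Q := by exact_mod_cast hQ
  have h1 := abs_of_floor (congrFun (Prod.ext_iff.1 hc).1 k)
  have h2 := abs_of_floor (congrFun (Prod.ext_iff.1 hc).2 k)
  have h3 := abs_of_floor hh
  have h4 : |(s' : ℝ) / Q| ≤ 1 := by
    rw [abs_div, Nat.abs_cast, Nat.abs_cast, div_le_one hQ0]; exact_mod_cast hs.le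
  have h5 : |(2 : ℝ) ^ j / Q| ≤ 1 := by
    rw [abs_div, Nat.abs_cast, abs_of_pos (by positivity), div_le_one hQ0]; exact_mod_cast hj
  have h6 : |(pos g' s' k - cell g' s' k) - (pos g s k - cell g s k)| ≤ 2 :=
    (abs_sub _ _).trans (by linarith [pos_sub_cell g' s' k, pos_sub_cell g s k])
  have e : (2 : ℝ) ^ j * cell g s k / Q - (2 : ℝ) ^ j * cell g' s' k / Q =
      ((2 ^ j * g.1 k / Q - 2 ^ j * g'.1 k / Q) + (2 ^ j * s / Q - 2 ^ j * s' / Q) * g.2 k +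
      (s' : ℝ) / Q * (2 ^ j * g.2 k - 2 ^ j * g'.2 k)) +
      (2 : ℝ) ^ j / Q * ((pos g' s' k - cell g' s' k) - (pos g s k - cell g s k)) := by
    unfold pos; ring
  rw [e]
  refine (abs_add_le _ _).trans ?_
  have b1 := abs_add_three (2 ^ j * g.1 k / Q - 2 ^ j * g'.1 k / Q)
    ((2 ^ j * s / Q - 2 ^ j * s' / Q) * g.2 k) ((s' : ℝ) / Q * (2 ^ j * g.2 k - 2 ^ j * g'.2 k))
  have b2 := abs_mul_le' h3 (hy k)
  have b3 := abs_mul_le' h4 h1
  have b4 := abs_mul_le' h5 h6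
  linarith

end Pool.Agent.MP_5168f5_an.H29
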