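import Pool.Agent.MP_5168f5_an.H29.PivCore

/-! The pivot step: the general estimate implies a better estimate for broad families. -/

namespace Pool.Agent.MP_5168f5_an.H29

open Finset H19 Setoid

variable {m : ℕ} {ι : Type}

theorem ext_ge {Ω β : Type} (P : FP Ω) (T : Ω → Finset β) (hT : ∀ ω ∈ P.S, (T ω).Nonempty) {l : ℝ}
    (hl : 0 < l) (h : ∀ ω ∈ P.S, l ≤ (T ω).card) :
    hh P id + Real.log l ≤ hh (P.ext T hT) id := by
  have h1 := P.H_ext_new T hT (ker id) (ker id) (fun x y => by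
    simp only [ker_def, id, Prod.ext_iff]) (fun a _ b _ e => by
    have : a = b := e
    rw [this])
  have h2 : P.E (fun _ => Real.log l) ≤ P.E fun ω => Real.log (T ω).card :=
    P.E_mono fun ω hω => Real.log_le_log hl (h ω hω)
  rw [FP.E_const] at h2
  unfold hh
  linarith

theorem ext_old {Ω β γ δ : Type} (P : FP Ω) (T : Ω → Finset β) (hT : ∀ ω ∈ P.S, (T ω).Nonempty)
    (f : Ω → γ) (f' : Ω × β → δ) (h : ∀ x y, f' x = f' y ↔ f x.1 = f y.1) :
    hh (P.ext T hT) f' = hh P f :=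
  P.H_ext_old T hT (ker f) (ker f') h

theorem ext_p {Ω β : Type} (P : FP Ω) (T : Ω → Finset β) (hT : ∀ ω ∈ P.S, (T ω).Nonempty)
    {M N : ℝ} (h : ∀ ω ∈ P.S, 1 / M ≤ P.p ω)
    (h' : ∀ ω ∈ P.S, ((T ω).card : ℝ) ≤ N) :
    ∀ x ∈ (P.ext T hT).S, 1 / (M * N) ≤ (P.ext T hT).p x := by
  intro x hx
  have hx' := ((P.mem_ext T hT x).1 hx).1
  have h0 : (0 : ℝ) < (T x.1).card := by exact_mod_cast (hT _ hx').card_pos
  change _ ≤ P.p x.1 / (T x.1).card
  rw [← div_div]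
  exact div_le_div₀ (P.pos _ hx').le (h _ hx') h0 (h' _ hx')

theorem pivot_log {G : Finset ι} {g : ι → Line m} {E : Finset (Pt m)} {Y : ι → Finset ℕ}
    {T : Finset (ι × ι × ℕ)} {Q : ℕ} {N l u K : ℝ} (hQ : 0 < Q) (hQN : (Q : ℝ) ≤ N)
    (hGN : (G.card : ℝ) ≤ N) (hl : 0 < l) (hK : 1 ≤ K) (hG : G.Nonempty)
    (hy : ∀ i ∈ G, ∀ k, |(g i).2 k| ≤ 1) (hd : DirM Q G g u)
    (hE : ∀ i ∈ G, ∀ t ∈ Y i, t < Q ∧ (cell (g i) t, t) ∈ E) (hT : ∀ o ∈ T, Cross Q K l G g Y o)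
    (hTne : T.Nonempty)
    (hfib : ∀ B ⊆ T, ∀ c, (∀ o ∈ B, o.2 = c) → (G.card : ℝ) * l * B.card ≤ K * T.card)
    {φ β D err : ℝ} (h0 : 0 ≤ φ) (hβ : 0 ≤ β) (hβ1 : β ≤ 1 - φ) (hD : 1 ≤ D)
    (hU : UE m φ β D (N ^ 6) err) :
    Real.log T.card + 3 * Real.log l - 2 * Real.log E.card - Real.log Q +
        (D - 1 + φ) * (2 * Real.log l - Real.log Q) ≤
      (1 - φ) * Real.log E.card + 3 * β * (Real.log Q - Real.log l) + Real.log u +
        Real.log (cM m Q K u) - Real.log l + φ * Real.log Q + φ * (m * Real.log Q) + err +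
        ((3 * m + 3 * D + 8) * kap K + Real.log (2 * Real.log Q + 1) +
          Real.log (380 * K ^ 3 * (2 * Real.log Q + 1) * (1 + Real.log (Q + 1)))) := by
  classical
  have hQ1 : (1 : ℝ) ≤ Q := by exact_mod_cast hQ
  have hN1 : 1 ≤ N := hQ1.trans hQN
  have hex : ∀ (i : ι) (s₁ s₂ : ℕ), ∃ Z : Finset ℕ, Ends Q K l (Y i) → Z ⊆ Y i ∧ l ≤ Z.card ∧
      ∀ t ∈ Z, (Q : ℝ) ≤ K * |(t : ℝ) - s₁| ∧ (Q : ℝ) ≤ K * |(t : ℝ) - s₂| := by
    intro i s₁ s₂
    by_cases h : Ends Q K l (Y i)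
    · obtain ⟨Z, h1, h2⟩ := h s₁ s₂
      exact ⟨Z, fun _ => ⟨h1, h2⟩⟩
    · exact ⟨∅, fun h' => absurd h' h⟩
  choose Z hZ using hex
  have hne : ∀ i s₁ s₂, Ends Q K l (Y i) → (Z i s₁ s₂).Nonempty := fun i s₁ s₂ h => by
    have : (0 : ℝ) < (Z i s₁ s₂).card := lt_of_lt_of_le hl (hZ i s₁ s₂ h).2.1
    exact Finset.card_pos.1 (by exact_mod_cast this)
  have hsub : ∀ i ∈ G, ∀ s₁ s₂, Ends Q K l (Y i) → Z i s₁ s₂ ⊆ Finset.range Q :=
    fun i hi s₁ s₂ h t ht => Finset.mem_range.2 (hE i hi t ((hZ i s₁ s₂ h).1 ht)).1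
  have hcard : ∀ i ∈ G, ∀ s₁ s₂, Ends Q K l (Y i) → ((Z i s₁ s₂).card : ℝ) ≤ N := by
    intro i hi s₁ s₂ h
    have := Finset.card_le_card (hsub i hi s₁ s₂ h)
    rw [Finset.card_range] at this
    exact le_trans (by exact_mod_cast this) hQN
  set P0 := FP.unif T hTne with hP0
  have n1 : ∀ o ∈ P0.S, (Z o.1 o.2.2 o.2.2).Nonempty := fun o ho => hne _ _ _ (hT o ho).e1
  set P1 := P0.ext (fun o => Z o.1 o.2.2 o.2.2) n1 with hP1
  have m1 : ∀ x ∈ P1.S, x.1 ∈ T ∧ x.2 ∈ Z x.1.1 x.1.2.2 x.1.2.2 := fun x hx =>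
    (P0.mem_ext _ n1 x).1 hx
  have n2 : ∀ x ∈ P1.S, (Z x.1.1 x.1.2.2 x.2).Nonempty := fun x hx =>
    hne _ _ _ (hT _ (m1 x hx).1).e1
  set P2 := P1.ext (fun x => Z x.1.1 x.1.2.2 x.2) n2 with hP2
  have m2 : ∀ x ∈ P2.S, x.1 ∈ P1.S ∧ x.2 ∈ Z x.1.1.1 x.1.1.2.2 x.1.2 := fun x hx =>
    (P1.mem_ext _ n2 x).1 hx
  have n3 : ∀ x ∈ P2.S, (Z x.1.1.2.1 x.1.1.2.2 x.1.1.2.2).Nonempty := fun x hx =>
    hne _ _ _ (hT _ (m1 _ (m2 x hx).1).1).e2
  set P3 := P2.ext (fun x => Z x.1.1.2.1 x.1.1.2.2 x.1.1.2.2) n3 with hP3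
  have m3 : ∀ x ∈ P3.S, x.1 ∈ P2.S ∧ x.2 ∈ Z x.1.1.1.2.1 x.1.1.1.2.2 x.1.1.1.2.2 := fun x hx =>
    (P2.mem_ext _ n3 x).1 hx
  let c : Cf m ι ((((ι × ι × ℕ) × ℕ) × ℕ) × ℕ) :=
    ⟨g, fun x => x.1.1.1, fun x => x.1.1.2, fun x => x.1.2, fun x => x.2⟩
  have hO' : ∀ a ∈ P3.S, c.O a ∈ T := fun a ha => (m1 _ (m2 _ (m3 a ha).1).1).1
  have hO : ∀ a ∈ P3.S, Cross Q K l G c.g Y (c.O a) := fun a ha => hT _ (hO' a ha)
  have q1 : ∀ a ∈ P3.S, c.s a ∈ Y (c.O a).1 ∧ (Q : ℝ) ≤ K * |(c.s a : ℝ) - (c.O a).2.2| :=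
    fun a ha => by
      have h1 := hZ _ (c.O a).2.2 (c.O a).2.2 (hO a ha).e1
      have h2 := (m1 _ (m2 _ (m3 a ha).1).1).2
      exact ⟨h1.1 h2, (h1.2.2 _ h2).1⟩
  have q2 : ∀ a ∈ P3.S, c.t a ∈ Y (c.O a).1 ∧ (Q : ℝ) ≤ K * |(c.t a : ℝ) - (c.O a).2.2| ∧
      (Q : ℝ) ≤ K * |(c.t a : ℝ) - c.s a| := fun a ha => by
    have h1 := hZ _ (c.O a).2.2 (c.s a) (hO a ha).e1
    have h2 := (m2 _ (m3 a ha).1).2
    exact ⟨h1.1 h2, h1.2.2 _ h2⟩
  have q3 : ∀ a ∈ P3.S, c.t' a ∈ Y (c.O a).2.1 ∧ (Q : ℝ) ≤ K * |(c.t' a : ℝ) - (c.O a).2.2| :=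
    fun a ha => by
      have h1 := hZ _ (c.O a).2.2 (c.O a).2.2 (hO a ha).e2
      have h2 := (m3 a ha).2
      exact ⟨h1.1 h2, (h1.2.2 _ h2).1⟩
  have d1 : hh P0 id = Real.log T.card := by
    rw [← FP.H_unif T hTne]
    exact P0.H_congr fun a _ b _ => by simp [ker_def]
  have d2 := ext_ge P0 _ n1 hl fun o ho => (hZ _ _ _ (hT o ho).e1).2.1
  have d3 := ext_ge P1 _ n2 hl fun x hx => (hZ _ _ _ (hT _ (m1 x hx).1).e1).2.1
  have d4 := ext_ge P2 _ n3 hl fun x hx => (hZ _ _ _ (hT _ (m1 _ (m2 x hx).1).1).e2).2.1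
  have d5 : hh P3 c.all = hh P3 id := P3.H_congr fun a _ b _ => by
    simp only [ker_def, c.all_eq, c, id, Prod.ext_iff]; tauto
  have d6 : hh P3 (fun a => (c.O a, c.s a, c.t a)) = hh P2 id :=
    ext_old P2 _ n3 id _ fun x y => by simp only [c, id, Prod.ext_iff]; tauto
  have d7 : hh P3 (fun a => (c.O a, c.s a)) = hh P1 id := by
    rw [← ext_old P1 _ n2 id Prod.fst fun x y => Iff.rfl]
    exact ext_old P2 _ n3 Prod.fst _ fun x y => by simp only [c, Prod.ext_iff]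
  have d8 : hh P3 c.O = hh P0 id := by
    rw [← ext_old P0 _ n1 id Prod.fst fun x y => Iff.rfl,
      ← ext_old P1 _ n2 Prod.fst (fun x => x.1.1) fun x y => Iff.rfl]
    exact ext_old P2 _ n3 (fun x => x.1.1) _ fun x y => Iff.rfl
  have hT0 : (0 : ℝ) < T.card := by exact_mod_cast hTne.card_pos
  have hTN : (T.card : ℝ) ≤ N ^ 3 := by
    have h1 : T ⊆ G ×ˢ G ×ˢ Finset.range Q := fun o ho => by
      simp only [Finset.mem_product, Finset.mem_range]
      exact ⟨(hT o ho).m1, (hT o ho).m2, (hT o ho).lt⟩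
    have h2 := Finset.card_le_card h1
    simp only [Finset.card_product, Finset.card_range] at h2
    have h3 : (T.card : ℝ) ≤ G.card * (G.card * Q) := by exact_mod_cast h2
    calc _ ≤ _ := h3
      _ ≤ N * (N * N) := by gcongr
      _ = _ := by ring
  have p0 : ∀ o ∈ P0.S, 1 / N ^ 3 ≤ P0.p o := fun o _ =>
    one_div_le_one_div_of_le hT0 hTN
  have p1 := ext_p P0 _ n1 p0 fun o ho =>
    hcard _ (hT o ho).m1 _ _ (hT o ho).e1
  have p2 := ext_p P1 _ n2 p1 fun x hx =>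
    hcard _ (hT _ (m1 x hx).1).m1 _ _ (hT _ (m1 x hx).1).e1
  have p3 := ext_p P2 _ n3 p2 fun x hx =>
    hcard _ (hT _ (m1 _ (m2 x hx).1).1).m2 _ _ (hT _ (m1 _ (m2 x hx).1).1).e2
  have hdom : ∀ F : ι × ι × ℕ → ℕ → ℝ, (∀ o r, 0 ≤ F o r) → P3.E (fun a => F (c.O a) (c.s a)) ≤
      1 / (T.card * l) * ∑ o ∈ T, ∑ r ∈ Finset.range Q, F o r := by
    intro F hF
    have e1 := P2.E_ext_fst _ n3 fun x => F x.1.1 x.1.2
    have e2 := P1.E_ext_fst _ n2 fun x => F x.1 x.2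
    have e3 := P0.E_ext _ n1 fun x => F x.1 x.2
    have e4 : P3.E (fun a => F (c.O a) (c.s a)) =
        avg T fun o => avg (Z o.1 o.2.2 o.2.2) fun r => F o r :=
      e1.trans (e2.trans (e3.trans (FP.E_unif T hTne _)))
    rw [e4]
    unfold avg
    rw [div_le_iff₀ hT0, mul_right_comm, Finset.mul_sum]
    refine Finset.sum_le_sum fun o ho => ?_
    have h1 := (hZ o.1 o.2.2 o.2.2 (hT o ho).e1).2.1
    have h2 : ∑ r ∈ Z o.1 o.2.2 o.2.2, F o r ≤ ∑ r ∈ Finset.range Q, F o r :=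
      Finset.sum_le_sum_of_subset_of_nonneg (hsub _ (hT o ho).m1 _ _ (hT o ho).e1)
        fun r _ _ => hF o r
    have h3 : 1 / (T.card * l) * T.card * ∑ r ∈ Finset.range Q, F o r =
        (∑ r ∈ Finset.range Q, F o r) / l := by field_simp
    rw [h3]
    exact div_le_div₀ (Finset.sum_nonneg fun r _ => hF o r) h2 hl h1
  have hq : 0 ≤ Real.log Q := Real.log_nonneg hQ1
  have hq1 : 0 ≤ Real.log (Q + 1) := Real.log_nonneg (by linarith)
  have key := pivot_core (c := c) (P := P3) hQ hK hy hO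
    (fun a ha => ⟨(hO a ha).lt, (hE _ (hO a ha).m1 _ (q1 a ha).1).1,
      (hE _ (hO a ha).m1 _ (q2 a ha).1).1, (hE _ (hO a ha).m2 _ (q3 a ha).1).1,
      (q1 a ha).2, (q2 a ha).2.1, (q2 a ha).2.2, (q3 a ha).2⟩) hd (hd.one_le hG) (E := E)
    (fun a ha => (hE _ (hO a ha).m1 _ (q2 a ha).1).2)
    (fun a ha => (hE _ (hO a ha).m2 _ (q3 a ha).1).2)
    (fun a ha => (hE _ (hO a ha).m1 _ (q1 a ha).1).2) (lam := Real.log l)
    (c1 := Real.log (380 * K ^ 3 * (2 * Real.log Q + 1) * (1 + Real.log (Q + 1))))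
    (Real.log_nonneg (by
      have k3 : 1 ≤ K ^ 3 := one_le_pow₀ hK
      have : 1 ≤ (2 * Real.log Q + 1) * (1 + Real.log (Q + 1)) := by nlinarith
      nlinarith))
    (by linarith) (by linarith) (by linarith)
    (fun w hw => coarse_ge P3 hQ hK hl hG hy hT hfib hTne c.O c.s w hO' hw hdom)
    h0 hβ hβ1 hD hU (hQN.trans (le_self_pow₀ hN1 (by norm_num)))
    (fun a ha => le_trans (le_of_eq (by ring)) (p3 a ha))
  rw [d8, d1] at key
  exact key

theorem br_of_uu {φ β D D' : ℝ} (h0 : 0 ≤ φ) (h1 : φ < 1) (hβ : 0 ≤ β) (hβ1 : β ≤ 1 - φ)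
    (hD : D = β + 1 + φ * m) (hD' : (4 - φ) * D' = 4 + β + 2 * m)
    (hc : 2 * D + 2 * φ + 2 * β ≤ 2 * m) (hU : UU m φ β D) : BR m (2 / (4 - φ)) D' := by
  have hm : (0 : ℝ) ≤ m := Nat.cast_nonneg m
  have hD1 : 1 ≤ D := by rw [hD]; nlinarith
  refine ⟨4 * m + 3 * D + 14, by positivity, fun ε hε => ?_⟩
  obtain ⟨C1, hC1⟩ := ue_of_uu h0 h1 hβ (by linarith) (by linarith) hU (ε := ε / 10) (by positivity)
  obtain ⟨C2, hC2⟩ := loglog_small (ε := ε / 10) (by positivity)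
  refine ⟨Real.exp ((C1 + 4 * C2 + (4 * m + 3 * D + 14) * Real.log 100) / (4 - φ)),
    Real.exp_pos _, ?_⟩
  intro ι G g E Y T Q N l u K hQ hQN hGN hl hK hG hy hd hE hT ha hfib
  have hQ1 : (1 : ℝ) ≤ Q := by exact_mod_cast hQ
  have hN1 : 1 ≤ N := hQ1.trans hQN
  have hG0 : (0 : ℝ) < G.card := by exact_mod_cast hG.card_pos
  have hu := hd.one_le hG
  have hTE : (0 : ℝ) < K * T.card * E.card := lt_of_lt_of_le (by positivity) ha
  have hE0 : (0 : ℝ) < E.card := by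
    rcases (Nat.cast_nonneg E.card : (0 : ℝ) ≤ _).eq_or_lt with h | h
    · rw [← h] at hTE; simp at hTE
    · exact h
  have hT0 : (0 : ℝ) < T.card := by
    rcases (Nat.cast_nonneg T.card : (0 : ℝ) ≤ _).eq_or_lt with h | h
    · rw [← h] at hTE; simp at hTE
    · exact h
  have hTne : T.Nonempty := Finset.card_pos.1 (by exact_mod_cast hT0)
  have key := pivot_log hQ hQN hGN hl hK hG hy hd hE hT hTne hfib h0 hβ hβ1 hD1
    (hC1 (N ^ 6) (one_le_pow₀ hN1))
  have hlQ : l ≤ Q := by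
    obtain ⟨o, ho⟩ := hTne
    obtain ⟨Z, h2, h3, -⟩ := (hT o ho).e1 0 0
    have : Z ⊆ Finset.range Q := fun t ht => Finset.mem_range.2 (hE _ (hT o ho).m1 t (h2 ht)).1
    have := Finset.card_le_card this
    rw [Finset.card_range] at this
    exact h3.trans (by exact_mod_cast this)
  have hq : 0 ≤ Real.log Q := Real.log_nonneg hQ1
  have hqN : Real.log Q ≤ Real.log N := Real.log_le_log (by linarith) hQN
  have hL : 0 ≤ Real.log Q - Real.log l := sub_nonneg.2 (Real.log_le_log hl hlQ)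
  have k3 : 1 ≤ K ^ 3 := one_le_pow₀ hK
  have hκ := kap_nonneg hK
  have ll := hC2 N hN1
  set LL := Real.log (2 * Real.log N + 1) with hLL
  have l1 : Real.log (2 * Real.log Q + 1) ≤ LL := Real.log_le_log (by linarith) (by linarith)
  have l2 : Real.log (1 + Real.log (2 * Q + 1)) ≤ kap K + LL := by
    refine le_trans (Real.log_le_log ?_ ?_) (log_mul_le (x := 3) (by norm_num) (by linarith)
      (by linarith))
    · have := Real.log_nonneg (show (1 : ℝ) ≤ 2 * Q + 1 by linarith); linarith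
    · have h2 : Real.log (2 * Q + 1) ≤ Real.log (3 * Q) := Real.log_le_log (by linarith) (by linarith)
      rw [Real.log_mul (by norm_num) (by linarith)] at h2
      have h3 := Real.log_le_sub_one_of_pos (show (0 : ℝ) < 3 by norm_num)
      linarith
  have l0 : 0 ≤ Real.log (Q + 1) := Real.log_nonneg (by linarith)
  have l3 : Real.log (1 + Real.log (Q + 1)) ≤ Real.log (1 + Real.log (2 * Q + 1)) :=
    Real.log_le_log (by linarith) (by
      have := Real.log_le_log (show (0 : ℝ) < Q + 1 by linarith)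
        (show (Q : ℝ) + 1 ≤ 2 * Q + 1 by linarith)
      linarith)
  have l4 : Real.log (380 * K ^ 3 * (2 * Real.log Q + 1) * (1 + Real.log (Q + 1))) ≤
      3 * kap K + 2 * LL := by
    rw [Real.log_mul (by positivity) (by positivity), Real.log_mul (by positivity) (by positivity)]
    have h2 := log_mul_le (K := K) (x := 4) (y := 95 * K ^ 3) (by norm_num) (by positivity)
      (by linarith)
    have h3 := log_le_kap (K := K) (x := 95 * K ^ 3) (by positivity) (by linarith)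
    rw [show 4 * (95 * K ^ 3) = 380 * K ^ 3 by ring] at h2
    linarith
  have l5 : Real.log (cM m Q K u) ≤ (m + 2) * kap K + Real.log u + Real.log Q + LL := by
    have h2 := Real.log_nonneg (show (1 : ℝ) ≤ 2 * Q + 1 by linarith)
    unfold cM
    rw [Real.log_mul (by positivity) (by positivity), Real.log_mul (by positivity) (by positivity),
      Real.log_mul (by positivity) (by positivity), Real.log_mul (by positivity) (by positivity)]
    have h3 := log_le_kap (K := K) (x := 40) (by positivity) (by linarith)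
    have h4 := log_pow_le (K := K) (x := 43 * K ^ 3) (by positivity) (by linarith) m
    linarith
  have l6 : 2 * Real.log G.card + 2 * Real.log l ≤
      kap K + Real.log T.card + Real.log E.card := by
    have h2 := Real.log_le_log (by positivity) ha
    rw [Real.log_pow, Real.log_mul hG0.ne' hl.ne', Real.log_mul (by positivity) hE0.ne',
      Real.log_mul (by positivity) hT0.ne'] at h2
    have h3 := log_le_kap (K := K) (x := K) (by positivity)
      (by have := le_self_pow₀ hK (show 3 ≠ 0 by norm_num); linarith)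
    push_cast at h2
    linarith
  have l7 : kap K = Real.log 100 + 3 * Real.log K := by
    unfold kap
    rw [Real.log_mul (by norm_num) (by positivity), Real.log_pow]; norm_num
  have hk : 0 ≤ Real.log K := Real.log_nonneg hK
  have hn : 0 ≤ Real.log N := Real.log_nonneg hN1
  have h4 : 0 < 4 - φ := by linarith
  rw [Real.log_pow] at key
  push_cast at key
  rw [← Real.log_le_log_iff (by positivity) (by positivity),
    Real.log_mul (by positivity) (by positivity), Real.log_mul (by positivity) (by positivity),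
    Real.log_mul (by positivity) (by positivity), Real.log_mul (by positivity) (by positivity),
    Real.log_mul (by positivity) (by positivity), Real.log_rpow hG0, Real.log_rpow hl,
    Real.log_rpow (by positivity), Real.log_rpow (by positivity), Real.log_rpow (by positivity),
    Real.log_exp, Real.log_mul (by positivity) (by positivity), Real.log_pow]
  refine le_of_mul_le_mul_left ?_ h4
  have e1 : (4 - φ) * (2 / (4 - φ) * Real.log G.card + D' * Real.log l) =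
      2 * Real.log G.card + (4 + β + 2 * m) * Real.log l := by
    rw [← hD']; field_simp
  have e2 : (4 - φ) * ((C1 + 4 * C2 + (4 * m + 3 * D + 14) * Real.log 100) / (4 - φ) +
      ε * Real.log N + (4 * m + 3 * D + 14) * Real.log K +
      2 / (4 - φ) * (Real.log u + m * Real.log Q) + Real.log E.card) =
      C1 + 4 * C2 + (4 * m + 3 * D + 14) * Real.log 100 + (4 - φ) * (ε * Real.log N) +
      (4 - φ) * ((4 * m + 3 * D + 14) * Real.log K) + 2 * (Real.log u + m * Real.log Q) +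
      (4 - φ) * Real.log E.card := by
    field_simp
  rw [e1, e2]
  have f1 : 0 ≤ (1 - φ) * ((4 * m + 3 * D + 14) * Real.log K) :=
    mul_nonneg (by linarith) (by positivity)
  have f2 : 0 ≤ (3 - φ) * (ε * Real.log N) := mul_nonneg (by linarith) (by positivity)
  have f3 : 0 ≤ (2 * m - (2 * D + 2 * φ + 2 * β)) * (Real.log Q - Real.log l) :=
    mul_nonneg (by linarith) hL
  have f4 : (4 * m + 3 * D + 14) * kap K =
      (4 * m + 3 * D + 14) * Real.log 100 + 3 * ((4 * m + 3 * D + 14) * Real.log K) := by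
    rw [l7]; ring
  have f5 : D * Real.log Q = (β + 1 + φ * m) * Real.log Q := by rw [hD]
  nlinarith

end Pool.Agent.MP_5168f5_an.H29
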