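import Pool.Agent.MP_5168f5_an.H29.Local

/-! The estimate inside one class. -/

namespace Pool.Agent.MP_5168f5_an.H29

open Finset H19

variable {m : ℕ} {ι : Type}

theorem rpow_split {x φ : ℝ} (hx : 0 ≤ x) : x = x ^ (1 - φ) * x ^ φ := by
  rcases hx.eq_or_lt with rfl | h
  · by_cases h1 : φ = 0
    · simp [h1]
    · simp [Real.zero_rpow h1]
  · rw [← Real.rpow_add h]; simp

theorem rpow_le_self' {x φ : ℝ} (hx : 1 ≤ x) (h1 : φ ≤ 1) : x ^ φ ≤ x := by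
  calc x ^ φ ≤ x ^ (1 : ℝ) := Real.rpow_le_rpow_of_exponent_le hx h1
    _ = x := Real.rpow_one x

theorem tau_bd {φ β D A ε C : ℝ} (h0 : 0 ≤ φ) (h1 : φ ≤ 1) (hβ : 0 ≤ β) (hβ1 : β ≤ 1)
    (hD : D = β + 1 + φ * m) (hC : 0 < C) (hB : BRc m φ D A ε C)
    {G : Finset ι} {g : ι → Line m} {E : Finset (Pt m)} {Y : ι → Finset ℕ} {Q j : ℕ}
    {c : Fin m → ℤ} {N l u F K K0 η μ θ : ℝ} (hQN : (Q : ℝ) + 1 ≤ N) (hGN : (G.card : ℝ) ≤ N)
    (hl : 0 < l) (hlQ : l ≤ Q) (hK : 1 ≤ K) (hK0 : 1 ≤ K0) (hη : 0 < η) (hμ : 0 < μ) (hθ : 0 < θ)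
    (hθ1 : θ ≤ 2 ^ j) (hj : 2 ^ j ≤ Q) (hG : G.Nonempty)
    (hc : ∀ i ∈ G, ∀ k, ⌊(2 : ℝ) ^ j * (g i).2 k⌋ = c k)
    (hd : DirM Q G g u) (hF : (G.card : ℝ) ^ (1 - φ) * ((2 : ℝ) ^ j) ^ β ≤ F)
    (hY : ∀ i ∈ G, ∀ t ∈ Y i, t < Q)
    (hm1 : ∀ z ∈ E, μ ≤ (thru G g Y z).card) (hm2 : ∀ z ∈ E, ((thru G g Y z).card : ℝ) ≤ 2 * μ)
    (hbr : K0 * 2 ^ j ≤ Q → ∀ z ∈ E, ∀ i' ∈ thru G g Y z, ∀ B ⊆ thru G g Y z,
      (∀ i ∈ B, ∀ k, K0 * (2 ^ j * |(g i).2 k - (g i').2 k|) < 1) → (B.card : ℝ) ≤ μ / 4)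
    (hc1 : θ * (E.image (col j c)).card ≤ E.card)
    (hc2 : ∀ B ⊆ E, ∀ γ, (∀ z ∈ B, col j c z = γ) → (B.card : ℝ) ≤ 2 * θ)
    (hI : η * G.card * l ≤ ∑ z ∈ E, ((thru G g Y z).card : ℝ))
    (h2e : ∀ i ∈ G, ∀ s : ℕ, ∀ B ⊆ Y i, (∀ t ∈ B, K * |(t : ℝ) - s| < Q) →
      (B.card : ℝ) ≤ η * l / 64) :
    (G.card : ℝ) * l ^ D ≤ (C * N ^ ε * (12 * 7 ^ m * K * K0) ^ A * 70 ^ m * (64 * 7 ^ m / η) ^ D +
      (10 * K * K0) ^ (m + 1) / η) * F * (u * (Q : ℝ) ^ m) ^ φ * E.card := by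
  have hG0 : (0 : ℝ) < G.card := by exact_mod_cast hG.card_pos
  have hu := hd.one_le hG
  have r0 : (0 : ℝ) < 2 ^ j := by positivity
  have hj' : (2 : ℝ) ^ j ≤ Q := by exact_mod_cast hj
  have hQ0 : (0 : ℝ) < Q := by linarith
  have hN0 : 0 < N := by linarith
  have hF0 : 0 < F := lt_of_lt_of_le (by positivity) hF
  have hm : 0 ≤ φ * m := by positivity
  have kk : 1 ≤ K * K0 := one_le_mul_of_one_le_of_one_le hK hK0
  have eQ : (u * (Q : ℝ) ^ m) ^ φ = u ^ φ * (Q : ℝ) ^ (φ * m) := by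
    rw [Real.mul_rpow (by positivity) (by positivity), mul_comm φ, Real.rpow_mul hQ0.le,
      Real.rpow_natCast]
  rw [add_mul, add_mul, add_mul]
  by_cases hb : 2 * K * K0 * 2 ^ j ≤ Q
  · refine le_trans ?_ (le_add_of_nonneg_right (by positivity))
    have a1 : 2 * K * 2 ^ j ≤ Q := le_trans (by
      have : 0 ≤ 2 * K * 2 ^ j * (K0 - 1) := mul_nonneg (by positivity) (by linarith)
      nlinarith) hb
    have a2 : K0 * 2 ^ j ≤ Q := le_trans (by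
      have : 0 ≤ K0 * 2 ^ j * (2 * K - 1) := mul_nonneg (by positivity) (by linarith)
      nlinarith) hb
    have key := local_bd hC hB hQN hGN hl hK hK0 hη hμ hθ a1 hG hc hd hY hm1 hm2 (hbr a2) hc1 hc2
      hI h2e
    have b1 : ((Q / 2 ^ j + 1 : ℕ) : ℝ) ≤ 2 * (Q / 2 ^ j) := by
      have := Nat.cast_div_le (α := ℝ) (m := Q) (n := 2 ^ j)
      have h2 := one_le_ratio hj
      push_cast at this ⊢; linarith
    have b2 : (5 ^ m * u * ((Q / 2 ^ j + 1 : ℕ) : ℝ) ^ m) ^ φ ≤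
        10 ^ m * ((u * (Q : ℝ) ^ m) ^ φ / ((2 : ℝ) ^ j) ^ (φ * m)) := by
      have c1 : 5 ^ m * u * ((Q / 2 ^ j + 1 : ℕ) : ℝ) ^ m ≤
          10 ^ m * (u * (Q : ℝ) ^ m / ((2 : ℝ) ^ j) ^ m) := by
        calc _ ≤ 5 ^ m * u * (2 * ((Q : ℝ) / 2 ^ j)) ^ m := by gcongr
          _ = _ := by
            rw [mul_pow, div_pow, show (10 : ℝ) = 5 * 2 by norm_num, mul_pow]; ring
      refine (Real.rpow_le_rpow (by positivity) c1 h0).trans ?_
      rw [Real.mul_rpow (by positivity) (by positivity), Real.div_rpow (by positivity)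
        (by positivity), mul_comm φ, Real.rpow_mul r0.le, Real.rpow_natCast]
      exact mul_le_mul_of_nonneg_right (rpow_le_self' (one_le_pow₀ (by norm_num)) h1)
        (by positivity)
    have b3 : l ^ D = (η * l / (64 * 7 ^ m * θ)) ^ D * ((64 * 7 ^ m / η) ^ D * θ ^ D) := by
      rw [← Real.mul_rpow (by positivity) hθ.le, ← Real.mul_rpow (by positivity) (by positivity)]
      congr 1; field_simp
    have b4 : θ ^ D ≤ θ * (((2 : ℝ) ^ j) ^ β * ((2 : ℝ) ^ j) ^ (φ * m)) := by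
      rw [← Real.rpow_add r0, hD, show β + 1 + φ * m = 1 + (β + φ * m) by ring,
        Real.rpow_add hθ, Real.rpow_one]
      exact mul_le_mul_of_nonneg_left (Real.rpow_le_rpow hθ.le hθ1 (by positivity)) hθ.le
    set W := C * N ^ ε * (12 * 7 ^ m * K * K0) ^ A with hW
    have hW0 : 0 < W := by positivity
    have b5 : (G.card : ℝ) ^ φ * (η * l / (64 * 7 ^ m * θ)) ^ D ≤
        W * (10 ^ m * ((u * (Q : ℝ) ^ m) ^ φ / ((2 : ℝ) ^ j) ^ (φ * m))) * (7 ^ m * (E.card / θ)) :=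
      key.trans (by gcongr)
    calc (G.card : ℝ) * l ^ D = (G.card : ℝ) ^ (1 - φ) * ((G.card : ℝ) ^ φ *
          (η * l / (64 * 7 ^ m * θ)) ^ D) * ((64 * 7 ^ m / η) ^ D * θ ^ D) := by
          conv_lhs => rw [rpow_split (φ := φ) hG0.le, b3]
          ring
      _ ≤ (G.card : ℝ) ^ (1 - φ) * (W * (10 ^ m * ((u * (Q : ℝ) ^ m) ^ φ /
          ((2 : ℝ) ^ j) ^ (φ * m))) * (7 ^ m * (E.card / θ))) * ((64 * 7 ^ m / η) ^ D *
          (θ * (((2 : ℝ) ^ j) ^ β * ((2 : ℝ) ^ j) ^ (φ * m)))) := by gcongr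
      _ = W * 70 ^ m * (64 * 7 ^ m / η) ^ D * ((G.card : ℝ) ^ (1 - φ) * ((2 : ℝ) ^ j) ^ β) *
          (u * (Q : ℝ) ^ m) ^ φ * E.card := by
          rw [show (70 : ℝ) = 10 * 7 by norm_num, mul_pow]; field_simp
      _ ≤ _ := by gcongr
  · refine le_trans ?_ (le_add_of_nonneg_left (by positivity))
    push Not at hb
    obtain ⟨i0, hi0⟩ := hG
    have a1 : (G.card : ℝ) ≤ (10 * K * K0) ^ m * u := by
      refine (hd.ball (by linarith) subset_rfl (fun k => Q * (g i0).2 k) (R := 2 * K * K0)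
        (by positivity) fun i hi k => ?_).trans
        (mul_le_mul_of_nonneg_right (pow_le_pow_left₀ (by positivity) (by nlinarith) m) (by linarith))
      have h2 := abs_of_floor ((hc i hi k).trans (hc i0 hi0 k).symm)
      rw [← mul_sub, abs_mul, abs_of_pos r0] at h2
      rw [← mul_sub, abs_mul, Nat.abs_cast]
      have h3 : (Q : ℝ) * |(g i).2 k - (g i0).2 k| ≤ 2 * K * K0 * 2 ^ j * |(g i).2 k - (g i0).2 k| :=
        mul_le_mul_of_nonneg_right hb.le (abs_nonneg _)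
      have h4 : 2 * K * K0 * (2 ^ j * |(g i).2 k - (g i0).2 k|) ≤ 2 * K * K0 * 1 :=
        mul_le_mul_of_nonneg_left h2 (by positivity)
      nlinarith
    have a2 : (G.card : ℝ) ^ φ ≤ (10 * K * K0) ^ m * u ^ φ := by
      refine (Real.rpow_le_rpow hG0.le a1 h0).trans ?_
      rw [Real.mul_rpow (by positivity) (by positivity)]
      exact mul_le_mul_of_nonneg_right (rpow_le_self' (one_le_pow₀ (by nlinarith)) h1)
        (by positivity)
    have a3 : η * l ≤ E.card := by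
      have h2 := hI.trans (Finset.sum_le_card_nsmul E _ (G.card : ℝ) fun z _ => by
        exact_mod_cast Finset.card_le_card fun i hi => (mem_thru.1 hi).1)
      rw [nsmul_eq_mul] at h2
      nlinarith
    have a4 : (Q : ℝ) ^ β ≤ 10 * K * K0 * ((2 : ℝ) ^ j) ^ β := by
      refine (Real.rpow_le_rpow hQ0.le hb.le hβ).trans ?_
      rw [Real.mul_rpow (by positivity) (by positivity)]
      exact mul_le_mul_of_nonneg_right ((rpow_le_self' (by nlinarith) hβ1).trans (by nlinarith))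
        (by positivity)
    have a5 : l ^ D ≤ E.card / η * ((Q : ℝ) ^ β * (Q : ℝ) ^ (φ * m)) := by
      rw [← Real.rpow_add hQ0, hD, show β + 1 + φ * m = 1 + (β + φ * m) by ring,
        Real.rpow_add hl, Real.rpow_one]
      exact mul_le_mul (by rw [le_div_iff₀ hη]; linarith)
        (Real.rpow_le_rpow hl.le hlQ (by positivity)) (by positivity) (by positivity)
    calc (G.card : ℝ) * l ^ D = (G.card : ℝ) ^ (1 - φ) * (G.card : ℝ) ^ φ * l ^ D := by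
          rw [← rpow_split hG0.le]
      _ ≤ (G.card : ℝ) ^ (1 - φ) * ((10 * K * K0) ^ m * u ^ φ) * (E.card / η *
          (10 * K * K0 * ((2 : ℝ) ^ j) ^ β * (Q : ℝ) ^ (φ * m))) := by
          refine mul_le_mul (by gcongr) (a5.trans (by gcongr)) (by positivity) (by positivity)
      _ = (10 * K * K0) ^ (m + 1) / η * ((G.card : ℝ) ^ (1 - φ) * ((2 : ℝ) ^ j) ^ β) *
          (u * (Q : ℝ) ^ m) ^ φ * E.card := by
          rw [eQ, pow_succ]; ring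
      _ ≤ _ := by gcongr

end Pool.Agent.MP_5168f5_an.H29
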