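import Pool.Agent.MP_5168f5_an.H29.Ent2

/-! The general estimate in conditional entropy form. -/

namespace Pool.Agent.MP_5168f5_an.H29

open Finset H19 Setoid

variable {m : ℕ}

/-- The entropy form of the general estimate with error `err`. -/
def UE (m : ℕ) (φ β D : ℝ) (N err : ℝ) : Prop :=
  ∀ (Ω ι ζ : Type) (P : FP Ω) (O : Ω → ι) (g : ι → Line m) (Z : Ω → ζ) (t : Ω → ℕ) (Q : ℕ),
    0 < Q → (Q : ℝ) ≤ N → (∀ a ∈ P.S, 1 / N ≤ P.p a) → (∀ a ∈ P.S, ∀ k, |(g (O a)).2 k| ≤ 1) →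
    (∀ a ∈ P.S, t a < Q) →
    ∃ w : Ω → ℕ, (∀ a ∈ P.S, 2 ^ w a ≤ Q) ∧
      hh P (fun a => (O a, Z a)) - hh P Z +
        D * (hh P (fun a => (t a, O a, Z a)) - hh P (fun a => (O a, Z a))) ≤
      (hh P (fun a => ((cell (g (O a)) (t a), t a), Z a)) - hh P Z) +
        (1 - φ) * (hh P (fun a => (O a, Z a)) - hh P (fun a => (w a, cls Q (w a) (g (O a)), Z a))) +
        β * (Real.log 2 * P.E fun a => (w a : ℝ)) +
        φ * (hh P (fun a => (O a, Z a)) - hh P (fun a => (dir Q (g (O a)), Z a)) +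
          m * Real.log Q) + err

theorem E_surp {Ω β γ : Type} (P : FP Ω) (X : Ω → β) (Z : Ω → γ) :
    P.E (fun a => Real.log (P.pr (ker Z) a) - Real.log (P.pr (ker X) a)) = hh P X - hh P Z := by
  unfold hh FP.H
  rw [← FP.E_sub]
  exact P.E_congr fun ω _ => by ring

theorem surp_nonneg {Ω β γ : Type} (P : FP Ω) (X : Ω → β) (Z : Ω → γ) {a : Ω} (ha : a ∈ P.S) :
    0 ≤ Real.log (P.pr (ker Z) a) - Real.log (P.pr (ker fun a => (X a, Z a)) a) :=
  sub_nonneg.2 (Real.log_le_log (P.pr_pos _ ha) (P.pr_mono fun ω' _ h => by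
    simp only [ker_def, Prod.mk.injEq] at h ⊢
    exact h.2))

theorem ue_of_bound {φ β D ε C N : ℝ} (h0 : 0 ≤ φ) (h1 : φ < 1) (hβ : 0 ≤ β) (hβ1 : β ≤ 1)
    (hD : 0 ≤ D) (hC : 0 < C)
    (hU : ∀ (ι : Type) (G : Finset ι) (g : ι → Line m)
      (E : Finset (Pt m)) (Y : ι → Finset ℕ) (Q : ℕ) (l u F : ℝ),
      0 < Q → (Q : ℝ) ≤ N → (G.card : ℝ) ≤ N → 0 < l → 0 ≤ u → 0 ≤ F →
      (∀ i ∈ G, ∀ k, |(g i).2 k| ≤ 1) → DirM Q G g u → Fro φ β Q G g F →
      (∀ i ∈ G, ∀ t ∈ Y i, t < Q ∧ (cell (g i) t, t) ∈ E) → (∀ i ∈ G, l ≤ (Y i).card) →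
      (G.card : ℝ) * l ^ D ≤ C * N ^ ε * F * (u * (Q : ℝ) ^ m) ^ φ * E.card) :
    UE m φ β D N (Real.log C + ε * Real.log N + (3 + D) +
      (5 + D) * Real.log (2 * Real.log N + 1)) := by
  classical
  intro Ω ι ζ P O g Z t Q hQ hQN hp hy ht
  have hQ1 : (1 : ℝ) ≤ Q := by exact_mod_cast hQ
  have hN1 : 1 ≤ N := hQ1.trans hQN
  have hN0 : 0 < N := by linarith
  set L := Real.log N with hL
  have hL0 : 0 ≤ L := Real.log_nonneg hN1
  have hLQ : Real.log Q ≤ L := Real.log_le_log (by linarith) hQN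
  set lam := Real.log (2 * L + 1) with hlam
  have hlam0 : 0 ≤ lam := Real.log_nonneg (by linarith)
  set I : ℕ := ⌊2 * L⌋₊ + 1 with hI
  have hI1 : (I : ℝ) ≤ 2 * L + 1 := by
    have := Nat.floor_le (show 0 ≤ 2 * L by linarith)
    rw [hI]; push_cast; linarith
  have hIlt : ∀ x : ℝ, x ≤ 2 * L → ⌊x⌋₊ < I := fun x hx =>
    Nat.lt_succ_of_le (Nat.floor_le_floor hx)
  have hl2 : (1 : ℝ) / 2 < Real.log 2 := by have := Real.log_two_gt_d9; linarith
  have hj2 : ∀ j : ℕ, 2 ^ j ≤ Q → j * Real.log 2 ≤ L := by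
    intro j hj
    rw [← Real.log_pow]
    refine le_trans (Real.log_le_log (by positivity) ?_) hLQ
    exact_mod_cast hj
  set pt : Ω → Pt m := fun a => (cell (g (O a)) (t a), t a) with hpt
  set Zd : Ω → (Fin m → ℤ) × ζ := fun a => (dir Q (g (O a)), Z a) with hZd
  set Zc : ℕ → Ω → ((Fin m → ℤ) × (Fin m → ℤ)) × ζ := fun j a => (cls Q j (g (O a)), Z a) with hZc
  set u1 : Ω → ℝ := fun a => Real.log (P.pr (ker Z) a) -
    Real.log (P.pr (ker fun a => (pt a, Z a)) a) with hu1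
  set u2 : Ω → ℝ := fun a => Real.log (P.pr (ker Zd) a) -
    Real.log (P.pr (ker fun a => (O a, Zd a)) a) with hu2
  set f : ℕ → Ω → ℝ := fun j a => Real.log (P.pr (ker (Zc j)) a) -
    Real.log (P.pr (ker fun a => (O a, Zc j a)) a) with hf
  have hex : ∀ a : Ω, ∃ w : ℕ, 2 ^ w ≤ Q ∧ ∀ j : ℕ, 2 ^ j ≤ Q →
      (1 - φ) * f j a + β * (j * Real.log 2) ≤ (1 - φ) * f w a + β * (w * Real.log 2) := by
    intro a
    obtain ⟨w, hw, hmax⟩ := Finset.exists_max_image ((Finset.range Q).filter fun j => 2 ^ j ≤ Q)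
      (fun j : ℕ => (1 - φ) * f j a + β * (j * Real.log 2))
      ⟨0, Finset.mem_filter.2 ⟨Finset.mem_range.2 hQ, by rw [pow_zero]; exact hQ⟩⟩
    exact ⟨w, (Finset.mem_filter.1 hw).2, fun j hj => hmax j (Finset.mem_filter.2
      ⟨Finset.mem_range.2 (lt_of_lt_of_le Nat.lt_two_pow_self hj), hj⟩)⟩
  choose w hw hwmax using hex
  refine ⟨w, fun a _ => hw a, ?_⟩
  set v : Ω → ℝ := fun a => (1 - φ) * f (w a) a + β * (w a * Real.log 2) with hv
  set i1 : Ω → ℕ := fun a => ⌊u1 a⌋₊ with hi1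
  set i2 : Ω → ℕ := fun a => ⌊u2 a⌋₊ with hi2
  set i3 : Ω → ℕ := fun a => ⌊v a⌋₊ with hi3
  set Y : ι → ζ × ℕ → Finset ℕ := fun o z =>
    (P.S.filter fun x => O x = o ∧ (Z x, i1 x) = z).image t with hY
  have hY1 : ∀ a ∈ P.S, (1 : ℝ) ≤ (Y (O a) (Z a, i1 a)).card := fun a ha => by
    have h2 : t a ∈ Y (O a) (Z a, i1 a) :=
      Finset.mem_image.2 ⟨a, Finset.mem_filter.2 ⟨ha, rfl, rfl⟩, rfl⟩
    exact_mod_cast Finset.card_pos.2 ⟨_, h2⟩
  have hYQ : ∀ o z, ((Y o z).card : ℝ) ≤ Q := by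
    intro o z
    have : Y o z ⊆ Finset.range Q := by
      intro r hr
      obtain ⟨x, hx, rfl⟩ := Finset.mem_image.1 hr
      exact Finset.mem_range.2 (ht x (Finset.mem_filter.1 hx).1)
    have h2 := Finset.card_le_card this
    rw [Finset.card_range] at h2
    exact_mod_cast h2
  set jj : Ω → ℕ := fun a => ⌊Real.log (Y (O a) (Z a, i1 a)).card⌋₊ with hjj
  have b1 : ∀ a ∈ P.S, i1 a < I := fun a ha =>
    hIlt _ ((log_ratio_le P hN0 hp _ _ ha).trans (by linarith))
  have b2 : ∀ a ∈ P.S, i2 a < I := fun a ha =>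
    hIlt _ ((log_ratio_le P hN0 hp _ _ ha).trans (by linarith))
  have hf0 : ∀ j, ∀ a ∈ P.S, 0 ≤ f j a := fun j a ha => surp_nonneg P O (Zc j) ha
  have b3 : ∀ a ∈ P.S, i3 a < I := fun a ha => by
    refine hIlt _ ?_
    have h2 : f (w a) a ≤ L := log_ratio_le P hN0 hp _ _ ha
    have h3 := hj2 _ (hw a)
    have h4 := hf0 (w a) a ha
    have h5 : 0 ≤ (w a : ℝ) * Real.log 2 := by positivity
    simp only [hv]
    nlinarith
  have b4 : ∀ a ∈ P.S, jj a < I := fun a ha =>
    hIlt _ ((Real.log_le_log (by linarith [hY1 a ha]) (hYQ _ _)).trans (by linarith))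
  have b5 : ∀ a ∈ P.S, w a < I := fun a _ => by
    have h2 := hj2 _ (hw a)
    have h3 : (w a : ℝ) ≤ 2 * L := by
      have : (0 : ℝ) ≤ w a := Nat.cast_nonneg _
      nlinarith
    simpa using hIlt _ h3
  -- labels
  have L1 : hh P (fun a => (Z a, i1 a, jj a, i2 a, i3 a)) ≤ hh P Z + 4 * lam := by
    have := hh_count P (fun a => (Z a, i1 a, jj a, i2 a, i3 a)) Z
      (fun a => (i1 a, jj a, i2 a, i3 a)) ((2 * L + 1) ^ 4)
      (fun a _ b _ h2 h3 => by rw [h2, h3]) (fun a _ =>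
        ⟨Finset.range I ×ˢ Finset.range I ×ˢ Finset.range I ×ˢ Finset.range I, by
          simp only [Finset.card_product, Finset.card_range, Nat.cast_mul]
          calc (I : ℝ) * (I * (I * I)) = I ^ 4 := by ring
            _ ≤ _ := pow_le_pow_left₀ (Nat.cast_nonneg _) hI1 4, fun b hb _ => by
          simp only [Finset.mem_product, Finset.mem_range]
          exact ⟨b1 b hb, b4 b hb, b2 b hb, b3 b hb⟩⟩)
    rw [Real.log_pow] at this
    exact_mod_cast this
  have L2 : hh P (fun a => (O a, Z a, i1 a)) ≤ hh P (fun a => (O a, Z a)) + lam :=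
    hh_count P _ _ i1 (2 * L + 1) (fun a _ b _ h2 h3 => by
      simp only [Prod.mk.injEq] at h2 ⊢; exact ⟨h2.1, h2.2, h3⟩)
      (fun a _ => ⟨Finset.range I, by simpa using hI1, fun b hb _ => Finset.mem_range.2 (b1 b hb)⟩)
  have L3 : hh P (fun a => (t a, O a, Z a)) ≤ hh P (fun a => (O a, Z a, i1 a)) +
      P.E fun a => Real.log (Y (O a) (Z a, i1 a)).card := by
    refine P.count _ _ t (fun a => ((Y (O a) (Z a, i1 a)).card : ℝ)) ?_ ?_ ?_
    · intro a _ b _ h2 h3
      simp only [ker_def, Prod.mk.injEq] at h2 ⊢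
      exact ⟨h3, h2.1, h2.2.1⟩
    · intro a _ b _ h2
      simp only [ker_def, Prod.mk.injEq] at h2
      rw [h2.1, h2.2.1, h2.2.2]
    · intro a _
      refine ⟨_, le_rfl, fun b hb h2 => ?_⟩
      simp only [ker_def, Prod.mk.injEq] at h2
      exact Finset.mem_image.2 ⟨b, Finset.mem_filter.2 ⟨hb, h2.1, by rw [h2.2.1, h2.2.2]⟩, rfl⟩
  have L4 : hh P (fun a => (O a, Z a)) ≤ hh P (fun a => (Z a, i1 a, jj a, i2 a, i3 a)) +
      P.E fun a => Real.log (Real.exp (Real.log C + ε * L + (i3 a + 1) +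
        φ * (i2 a + 1 + m * Real.log Q) + (i1 a + 1) - D * jj a)) := by
    refine P.count _ _ O _ ?_ ?_ ?_
    · intro a _ b _ h2 h3
      simp only [ker_def, Prod.mk.injEq] at h2 ⊢
      exact ⟨h3, h2.1⟩
    · intro a _ b _ h2
      simp only [ker_def, Prod.mk.injEq] at h2
      rw [h2.2.1, h2.2.2.1, h2.2.2.2.1, h2.2.2.2.2]
    · intro a ha
      set G : Finset ι := (P.S.filter fun x => (Z x, i1 x, jj x, i2 x, i3 x) =
        (Z a, i1 a, jj a, i2 a, i3 a)).image O with hG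
      refine ⟨G, ?_, fun b hb h2 => Finset.mem_image.2 ⟨b, Finset.mem_filter.2 ⟨hb, h2⟩, rfl⟩⟩
      have hGm : ∀ o ∈ G, ∃ b ∈ P.S, O b = o ∧ Z b = Z a ∧ i1 b = i1 a ∧ jj b = jj a ∧
          i2 b = i2 a ∧ i3 b = i3 a := by
        intro o ho
        obtain ⟨b, hb, rfl⟩ := Finset.mem_image.1 ho
        obtain ⟨hb1, hb2⟩ := Finset.mem_filter.1 hb
        simp only [Prod.mk.injEq] at hb2
        exact ⟨b, hb1, rfl, hb2⟩
      set E0 : Finset (Pt m) := (P.S.filter fun x => (Z x, i1 x) = (Z a, i1 a)).image pt with hE0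
      have hE : (E0.card : ℝ) ≤ Real.exp (i1 a + 1) := by
        refine few P Z pt E0 (Z a) _ fun x hx => ?_
        obtain ⟨b, hb, rfl⟩ := Finset.mem_image.1 hx
        obtain ⟨hb1, hb2⟩ := Finset.mem_filter.1 hb
        simp only [Prod.mk.injEq] at hb2
        refine ⟨b, hb1, rfl, hb2.1, ?_⟩
        rw [← hb2.2]
        exact (Nat.lt_floor_add_one (u1 b)).le
      have key := hU ι G g E0 (fun o => Y o (Z a, i1 a)) Q (Real.exp (jj a))
        (Real.exp (i2 a + 1)) (Real.exp (i3 a + 1)) hQ hQN (by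
          refine le_trans ?_ (card_S_le P hN0 hp)
          exact_mod_cast Finset.card_image_le.trans (Finset.card_filter_le _ _))
        (Real.exp_pos _) (Real.exp_pos _).le (Real.exp_pos _).le (by
          intro o ho
          obtain ⟨b, hb, rfl, -⟩ := hGm o ho
          exact hy b hb) (by
          intro A hA c hc
          refine few P Zd O A (c, Z a) _ fun o ho => ?_
          obtain ⟨b, hb, rfl, h2, -, -, h3, -⟩ := hGm o (hA ho)
          refine ⟨b, hb, rfl, by simp only [hZd, hc _ ho, h2], ?_⟩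
          rw [← h3]
          exact (Nat.lt_floor_add_one (u2 b)).le) (by
          intro j hj A hA c hc
          have h2 := few P (Zc j) O A (c, Z a)
            ((i3 a + 1 - β * (j * Real.log 2)) / (1 - φ)) fun o ho => by
              obtain ⟨b, hb, rfl, h2, -, -, -, h3⟩ := hGm o (hA ho)
              refine ⟨b, hb, rfl, by simp only [hZc, hc _ ho, h2], ?_⟩
              rw [le_div_iff₀ (by linarith), ← h3]
              have h4 := hwmax b j hj
              have h5 : v b < i3 b + 1 := Nat.lt_floor_add_one (v b)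
              simp only [hv] at h5
              change f j b * (1 - φ) ≤ _
              linarith
          have h3 : (A.card : ℝ) ^ (1 - φ) ≤ Real.exp (i3 a + 1 - β * (j * Real.log 2)) := by
            refine (Real.rpow_le_rpow (Nat.cast_nonneg _) h2 (by linarith)).trans (le_of_eq ?_)
            rw [← Real.exp_mul, div_mul_cancel₀ _ (by linarith)]
          have h4 : ((2 : ℝ) ^ j) ^ β = Real.exp (β * (j * Real.log 2)) := by
            rw [Real.rpow_def_of_pos (by positivity), Real.log_pow, mul_comm]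
          rw [h4]
          refine (mul_le_mul_of_nonneg_right h3 (Real.exp_pos _).le).trans (le_of_eq ?_)
          rw [← Real.exp_add]; congr 1; ring) (by
          intro o _ r hr
          obtain ⟨x, hx, rfl⟩ := Finset.mem_image.1 hr
          obtain ⟨hx1, hx2, hx3⟩ := Finset.mem_filter.1 hx
          refine ⟨ht x hx1, Finset.mem_image.2 ⟨x, Finset.mem_filter.2 ⟨hx1, hx3⟩, ?_⟩⟩
          simp only [hpt, hx2]) (by
          intro o ho
          obtain ⟨b, hb, rfl, h2, h3, h4, -⟩ := hGm o ho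
          have h5 := hY1 b hb
          rw [← h4, ← h2, ← h3, ← Real.exp_log (show (0 : ℝ) < (Y (O b) (Z b, i1 b)).card by
            linarith)]
          exact Real.exp_le_exp.2 (Nat.floor_le (Real.log_nonneg h5)))
      have e1 : Real.exp (jj a) ^ D = Real.exp (D * jj a) := by
        rw [← Real.exp_mul, mul_comm]
      have e2 : N ^ ε = Real.exp (ε * L) := by
        rw [Real.rpow_def_of_pos hN0, mul_comm]
      have e3 : (Real.exp (i2 a + 1) * (Q : ℝ) ^ m) ^ φ =
          Real.exp (φ * (i2 a + 1 + m * Real.log Q)) := by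
        rw [mul_comm φ, Real.exp_mul, Real.exp_add (i2 a + 1), Real.exp_nat_mul,
          Real.exp_log (by linarith)]
      rw [e1, e2, e3] at key
      rw [Real.exp_sub, le_div_iff₀ (Real.exp_pos _)]
      refine key.trans ?_
      rw [Real.exp_add _ (i1 a + 1 : ℝ), Real.exp_add _ (φ * _), Real.exp_add _ (i3 a + 1 : ℝ),
        Real.exp_add (Real.log C), Real.exp_log hC]
      exact mul_le_mul_of_nonneg_left hE (by positivity)
  simp only [Real.log_exp] at L4
  have L5 : (P.E fun a => Real.log C + ε * L + (i3 a + 1) +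
        φ * (i2 a + 1 + m * Real.log Q) + (i1 a + 1) - D * jj a) ≤
      P.E fun a => (Real.log C + ε * L + (3 + D) + φ * (m * Real.log Q)) +
        (v a + (φ * u2 a + (u1 a - D * Real.log (Y (O a) (Z a, i1 a)).card))) := by
    refine P.E_mono fun a ha => ?_
    have c1 : (i1 a : ℝ) ≤ u1 a := Nat.floor_le (surp_nonneg P pt Z ha)
    have c2 : (i2 a : ℝ) ≤ u2 a := Nat.floor_le (surp_nonneg P O Zd ha)
    have c3 : (i3 a : ℝ) ≤ v a := Nat.floor_le (by
      have := hf0 (w a) a ha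
      have h5 : 0 ≤ (w a : ℝ) * Real.log 2 := by positivity
      simp only [hv]
      nlinarith)
    have c4 : Real.log (Y (O a) (Z a, i1 a)).card < jj a + 1 := Nat.lt_floor_add_one _
    nlinarith
  have L5' : (P.E fun a => (Real.log C + ε * L + (3 + D) + φ * (m * Real.log Q)) +
        (v a + (φ * u2 a + (u1 a - D * Real.log (Y (O a) (Z a, i1 a)).card)))) =
      (Real.log C + ε * L + (3 + D) + φ * (m * Real.log Q)) + (P.E v + (φ * P.E u2 +
        (P.E u1 - D * P.E fun a => Real.log (Y (O a) (Z a, i1 a)).card))) := by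
    rw [P.E_add (fun _ => _) (fun a => v a + _), FP.E_const, P.E_add v,
      P.E_add (fun a => φ * u2 a), P.E_sub u1, P.E_mul φ u2, P.E_mul D]
  rw [L5'] at L5
  have L6 : P.E u1 = hh P (fun a => (pt a, Z a)) - hh P Z := E_surp P _ _
  have L7 : P.E u2 ≤ hh P (fun a => (O a, Z a)) - hh P Zd := by
    rw [hu2, E_surp]
    have := hh_mono P (fun a => (O a, Zd a)) (fun a => (O a, Z a)) fun a _ b _ h => by
      simp only [hZd, Prod.mk.injEq] at h ⊢
      rw [h.1, h.2]; exact ⟨rfl, rfl, rfl⟩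
    linarith
  have L8 : P.E v ≤ (1 - φ) * (hh P (fun a => (O a, Z a)) -
      hh P (fun a => (w a, cls Q (w a) (g (O a)), Z a)) + lam) +
      β * (Real.log 2 * P.E fun a => (w a : ℝ)) := by
    have c1 := label P (fun j => ker (Zc j)) w I b5
      (ker fun a => (w a, cls Q (w a) (g (O a)), Z a)) (by
        intro a _ b _ h2 h3
        simp only [ker_def, hZc, Prod.mk.injEq] at h3 ⊢
        rw [← h2]
        exact ⟨rfl, h3⟩)
    have c2 : Real.log I ≤ lam := Real.log_le_log (by rw [hI]; positivity) hI1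
    have c3 : P.E (fun a => f (w a) a) ≤ P.E fun a => -Real.log (P.pr (ker fun a => (O a, Z a)) a) -
        -Real.log (P.pr (ker (Zc (w a))) a) := by
      refine P.E_mono fun a ha => ?_
      have : Real.log (P.pr (ker fun a => (O a, Z a)) a) ≤
          Real.log (P.pr (ker fun b => (O b, Zc (w a) b)) a) :=
        Real.log_le_log (P.pr_pos _ ha) (P.pr_mono fun b _ h => by
          simp only [ker_def, hZc, Prod.mk.injEq] at h ⊢
          rw [h.1, h.2]; exact ⟨rfl, rfl, rfl⟩)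
      simp only [hf]
      linarith
    replace c3 := c3.trans (le_of_eq (P.E_sub _ _))
    have c4 : P.E v = (1 - φ) * P.E (fun a => f (w a) a) +
        β * (Real.log 2 * P.E fun a => (w a : ℝ)) := by
      rw [← FP.E_mul, ← FP.E_mul, ← FP.E_mul, ← FP.E_add]
      exact P.E_congr fun a _ => by simp only [hv]; ring
    rw [c4]
    have c5 : P.E (fun a => f (w a) a) ≤ hh P (fun a => (O a, Z a)) -
        hh P (fun a => (w a, cls Q (w a) (g (O a)), Z a)) + lam := by
      have c6 : hh P (fun a => (w a, cls Q (w a) (g (O a)), Z a)) ≤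
          (P.E fun a => -Real.log (P.pr (ker (Zc (w a))) a)) + Real.log I := c1
      have c7 : P.E (fun a => f (w a) a) ≤ hh P (fun a => (O a, Z a)) -
          P.E fun a => -Real.log (P.pr (ker (Zc (w a))) a) := c3
      linarith
    have := mul_le_mul_of_nonneg_left c5 (show 0 ≤ 1 - φ by linarith)
    linarith
  have L9 : D * (hh P (fun a => (t a, O a, Z a)) - hh P (fun a => (O a, Z a)) - lam) ≤
      D * P.E fun a => Real.log (Y (O a) (Z a, i1 a)).card :=
    mul_le_mul_of_nonneg_left (by linarith) hD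
  have L10 := mul_le_mul_of_nonneg_left L7 h0
  have L11 : φ * lam ≥ 0 := by positivity
  rw [L6] at L5
  nlinarith

theorem loglog_small {ε : ℝ} (hε : 0 < ε) : ∃ C : ℝ, ∀ N : ℝ, 1 ≤ N →
    Real.log (2 * Real.log N + 1) ≤ ε * Real.log N + C := by
  refine ⟨Real.log (2 / ε + 1), fun N hN => ?_⟩
  have h1 : Real.log N ≤ N ^ ε / ε := Real.log_le_rpow_div (by linarith) hε
  have h2 : (1 : ℝ) ≤ N ^ ε := Real.one_le_rpow hN hε.le
  have h3 : 0 ≤ Real.log N := Real.log_nonneg hN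
  have h4 : 2 * Real.log N + 1 ≤ N ^ ε * (2 / ε + 1) := by
    have : N ^ ε * (2 / ε + 1) = 2 * (N ^ ε / ε) + N ^ ε := by ring
    linarith
  refine (Real.log_le_log (by positivity) h4).trans (le_of_eq ?_)
  rw [Real.log_mul (by positivity) (by positivity), Real.log_rpow (by linarith)]

theorem ue_of_uu {φ β D : ℝ} (h0 : 0 ≤ φ) (h1 : φ < 1) (hβ : 0 ≤ β) (hβ1 : β ≤ 1) (hD : 0 ≤ D)
    (hU : UU m φ β D) {ε : ℝ} (hε : 0 < ε) :
    ∃ C : ℝ, ∀ N : ℝ, 1 ≤ N → UE m φ β D N (ε * Real.log N + C) := by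
  obtain ⟨C, hC, h⟩ := hU (ε / 2) (by positivity)
  obtain ⟨C', h'⟩ := loglog_small (ε := ε / 2 / (5 + D)) (by positivity)
  refine ⟨Real.log C + (3 + D) + (5 + D) * C', fun N hN => ?_⟩
  intro Ω ι ζ P O g Z t Q hQ hQN hp hy ht
  obtain ⟨w, hw, h2⟩ := ue_of_bound h0 h1 hβ hβ1 hD hC
    (fun ι G g E Y Q l u F => h ι G g E Y Q N l u F) Ω ι ζ P O g Z t Q hQ hQN hp hy ht
  refine ⟨w, hw, h2.trans ?_⟩
  have h3 := mul_le_mul_of_nonneg_left (h' N hN) (show 0 ≤ 5 + D by linarith)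
  have h4 : (5 + D) * (ε / 2 / (5 + D) * Real.log N + C') =
      ε / 2 * Real.log N + (5 + D) * C' := by field_simp
  linarith

end Pool.Agent.MP_5168f5_an.H29
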